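import Pool.Agent.H306.HE.Stm

/-! Parameters for all `α < 1/2`. -/

noncomputable section

namespace Pool.Agent.H306.HE

open Set MeasureTheory Pool.Agent.H306.HD

open scoped Real

/-- The scale. -/
def zq (N : ℕ) (q : ℝ) (m : ℕ) : ℝ := (N : ℝ) ^ (q ^ m)

/-- Odd frequencies, `z ≤ K ≤ 3 z`. -/
def Kq (N : ℕ) (q : ℝ) (m : ℕ) : ℕ := 2 * ⌊zq N q m⌋₊ + 1

/-- Growth of the scale: (1), (2) uniformly in `m` for `N` large, (3), (4) for fixed `N ≥ 2`.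

Proof. (1) `q^m ≥ 1 + m (q - 1)` (Bernoulli), so for `N ≥ 1`, `zq N q m ^ e ≥ N^e * (N^(e (q-1)))^m`; take `N^e ≥ C`, `N^(e (q-1)) ≥ L`.
(2) `exp (-y) ≤ k! / y^k` with `k p ≥ |e| + 1`, and (1). (3) `zq N q m ^ e = exp (e (log N) q^m)` and `q^m / m → ∞`. (4) from (3). -/
def S_Z : Prop :=
  (∀ q e C L : ℝ, 1 < q → 0 < e → 0 ≤ L → ∃ N₀ : ℕ, ∀ N, N₀ ≤ N → ∀ m : ℕ,
    C * L ^ m ≤ zq N q m ^ e) ∧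
  (∀ q p a e C L : ℝ, 1 < q → 0 < p → 0 < a → 0 ≤ C → 0 ≤ L → ∃ N₀ : ℕ, ∀ N, N₀ ≤ N → ∀ m : ℕ,
    C * L ^ m * zq N q m ^ e * Real.exp (-(a * zq N q m ^ p)) ≤ 1) ∧
  (∀ q e C L : ℝ, ∀ N : ℕ, 1 < q → 0 < e → 0 ≤ L → 2 ≤ N → ∃ m₀ : ℕ, ∀ m, m₀ ≤ m →
    C * L ^ m ≤ zq N q m ^ e) ∧
  ∀ q p a e L : ℝ, ∀ N : ℕ, 1 < q → 0 < p → 0 < a → 0 ≤ L → 2 ≤ N → ∃ C : ℝ, 0 ≤ C ∧
    ∀ m : ℕ, L ^ m * zq N q m ^ e * Real.exp (-(a * zq N q m ^ p)) ≤ C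

/-- The exponents. -/
structure Exps (α σ q r x η : ℝ) : Prop where
  α0 : 0 < α
  α1 : α < 1 / 2
  σ0 : -(2 * α) ≤ σ
  σ1 : σ + 2 * α ≤ 1 / 2
  q1 : 1 < q
  q2 : q ≤ 2
  η0 : 0 < η
  x0 : 0 < x
  req : 2 * r = 1 - x - (q * σ + η)
  dis : 2 * α * q + η ≤ r
  ang : 1 - q * x + η ≤ r

/-- `P.K m = Kq N q m ≈ z`, `P.c m = z^(-(qσ + η))`, `P.ε m = exp (-z^p / 64)`, `p = r (1 - 1/q)`, `z = zq N q m`. -/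
def prm2 (ν α σ q r η : ℝ) (N : ℕ) : Prm :=
  ⟨ν, α, Kq N q, fun m => zq N q m ^ (-(q * σ + η)),
    fun m => Real.exp (-(zq N q m ^ (r * (1 - 1 / q)) / 64))⟩

def th2 (q x : ℝ) (N m : ℕ) : ℝ := zq N q m ^ (-x)

def lm2 (m : ℕ) : ℝ := (1 / 2) ^ (28 * m + 1)

def tn2 (q r : ℝ) (N : ℕ) : ℕ → ℝ
  | 0 => 0
  | 1 => 0
  | m + 2 => Real.exp (-(zq N q (m + 1) ^ (r * (1 - 1 / q)) / 128))

def rh2 (ν α σ q r x η : ℝ) (N m : ℕ) : ℝ :=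
  Real.sqrt (3 / 8 * ((prm2 ν α σ q r η N).c m * (prm2 ν α σ q r η N).K m * th2 q x N m))

def tau2 (ν α σ q r x η : ℝ) (N m : ℕ) : ℝ :=
  2 / rh2 ν α σ q r x η N m * Real.log (1 + 11 * rh2 ν α σ q r x η N m * th2 q x N (m + 1) /
    ((prm2 ν α σ q r η N).ε m * th2 q x N m))

def W2 (ν α σ q r x η : ℝ) (N m : ℕ) : ℝ := ∑' i, tau2 ν α σ q r x η N (m + 1 + i)

/-- Parameters, first part.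

Proof. `z = zq N q m`, `zq N q (m+1) = z^q` (`q^(m+1) = q * q^m`), `z ≥ N ≥ 1`, `z ≤ K m ≤ 3 z`. `z^(2r) ≤ c K θ ≤ 3 z^(2r)`
(`1 - (qσ+η) - x = 2r`). `sqrt (lm2 m) = 2^(-14 m - 1/2)`. `mu P m 1 = ν (K_m² + K_{m+1}²)^α ≤ 18 ν z^(2αq)` and
`2αq + η ≤ r`; `rr (m+1) ≤ 2 sqrt 3 z_m^r`, `z_m = z_{m+1}^(1/q)`; `K m θ (m+1) ≤ 3 z^(1 - q x)`, `1 - q x + η ≤ r`: all by `S_Z`. `K_mono`:
`z^q ≥ z + 1` (`z^(q-1) ≥ 2`). `K_big`: `K (m+1) ≥ z^q ≥ 101 * 2^m`. `c_le`: `-(qσ+η) ≤ 2αq ≤ q`. `small`: `mu P (m+1) 0 = ν (K_{m+1}²)^α ≥ ν z^(2αq)` and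
`-(qσ+η) ≤ 2αq - η < 4αq`. -/
def S_PN1 : Prop := S_Z → ∀ ν α σ q r x η : ℝ, 0 < ν → Exps α σ q r x η →
  ∃ N₀ : ℕ, ∀ N, N₀ ≤ N → (prm2 ν α σ q r η N).Ok ∧
    (∀ m, 4 * mu (prm2 ν α σ q r η N) m 1 ≤ Real.sqrt (3 / 20 * (lm2 m *
      ((prm2 ν α σ q r η N).c m * (prm2 ν α σ q r η N).K m * th2 q x N m)))) ∧
    (∀ m, 2 * rr (prm2 ν α σ q r η N) (th2 q x N) m ≤ Real.sqrt (3 / 20 * (lm2 m *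
      ((prm2 ν α σ q r η N).c m * (prm2 ν α σ q r η N).K m * th2 q x N m)))) ∧
    (∀ m, 1600 * ((prm2 ν α σ q r η N).K m * th2 q x N (m + 1)) ≤ Real.sqrt (3 / 20 * (lm2 m *
      ((prm2 ν α σ q r η N).c m * (prm2 ν α σ q r η N).K m * th2 q x N m)))) ∧
    (∃ C : ℝ, ∀ m, (prm2 ν α σ q r η N).c m ≤ C * (prm2 ν α σ q r η N).K (m + 1)) ∧
    ∀ M : ℝ, ∃ m₀ : ℕ, ∀ m, m₀ ≤ m → M * (prm2 ν α σ q r η N).c m ≤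
      mu (prm2 ν α σ q r η N) (m + 1) 0 ^ 2

/-- Parameters, second part (the times).

Proof. Notation as in `S_PN1`, `p = r (1 - 1/q) > 0`. `h2` holds because `exp (ρ̂ τ / 2) = 1 + 11 ρ̂ θ' / (ε θ)` and `33/32 > 1`.
`ρ̂ ≥ sqrt (3/8) z^r ≥ 0.61 z^r`, `ρ̂ ≤ 1.1 z^r`; `log (1 + 11 ρ̂ θ' / (ε θ)) ≤ z^p / 64 + log (1 + 13 z^(r + x)) ≤ z^p / 60` for `N` large, so
`0 ≤ τ m ≤ 0.055 z_m^(p - r) = 0.055 z_m^(-r/q)`; for `m ≥ 1` this is `0.055 z_{m-1}^(-r)`. Summable; `W m ≤ 0.06 z_m^(-r)` for `N` large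
(`z_{m+i}^r ≥ 2^(6 i) z_m^r`), so `sqrt (5/2 * 3) z^r W m ≤ 0.17 ≤ 1/4` (`h3`); `h4`: `mu P (m+1) 0 ≤ 9 ν z^(2αq)`, `2αq + η ≤ r`; `h5`: `ε` is
super-polynomially small (`S_Z`); `τ 0 + W 0 ≤ 0.055 N^(-r/q) + 0.06 N^(-r) ≤ δ`; `h0`: `mu P 0 0 ≤ 9 ν N^(2α)` and `r/q ≥ 2α + η/q`. `W_eq`: shift of
`tsum`. -/
def S_PN2 : Prop := S_Z → ∀ ν α σ q r x η δ : ℝ, 0 < ν → 0 < δ → Exps α σ q r x η →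
  ∃ N₀ : ℕ, ∀ N, N₀ ≤ N →
    (∀ m, 0 ≤ tau2 ν α σ q r x η N m) ∧ (∀ m, 0 ≤ W2 ν α σ q r x η N m) ∧
    (∀ m, W2 ν α σ q r x η N m = tau2 ν α σ q r x η N (m + 1) + W2 ν α σ q r x η N (m + 1)) ∧
    tau2 ν α σ q r x η N 0 + W2 ν α σ q r x η N 0 ≤ δ ∧
    (∀ m, th2 q x N (m + 1) * Real.sqrt (3 / 8 * ((prm2 ν α σ q r η N).c m *
      (prm2 ν α σ q r η N).K m * th2 q x N m)) < 3 / 32 * ((prm2 ν α σ q r η N).ε m * th2 q x N m) *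
      (Real.exp (Real.sqrt (3 / 8 * ((prm2 ν α σ q r η N).c m * (prm2 ν α σ q r η N).K m *
        th2 q x N m)) * tau2 ν α σ q r x η N m / 2) - 1)) ∧
    (∀ m, Real.sqrt (5 / 2 * ((prm2 ν α σ q r η N).c m * (prm2 ν α σ q r η N).K m *
      th2 q x N m)) * W2 ν α σ q r x η N m ≤ 1 / 4) ∧
    (∀ m, mu (prm2 ν α σ q r η N) (m + 1) 0 * W2 ν α σ q r x η N m ≤ 1 / 2) ∧
    (∀ m, 9 / 4 * ((prm2 ν α σ q r η N).ε m * th2 q x N m) * W2 ν α σ q r x η N m ≤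
      th2 q x N (m + 1) / 2) ∧
    mu (prm2 ν α σ q r η N) 0 0 * (tau2 ν α σ q r x η N 0 + W2 ν α σ q r x η N 0) ≤ 1 / 2

/-- Parameters, third part (super-polynomially small quantities).

Proof. Notation as in `S_PN1`, `p = r (1 - 1/q)`; everything except `h8` is immediate from `S_Z` (`tn2 0 = tn2 1 = 0`). The seventh (`h8`), for
`n = m + 1 ≥ 1`: `kp n = sqrt (3/20 * (lm (n-1) (c K θ)_(n-1))) / 2 ≥ 0.19 * 2^(-14 (n-1) - 1/2) z_{n-1}^r`,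
`sqrt (lm n (c K θ)_n) ≤ 2^(-14 n - 1/2) sqrt 3 z_n^r`, and `z_n^r / z_{n-1}^r = z_n^p`, so `5 sqrt (..) / kp n ≤ 46 * 2^(-14) z_n^p ≤ z_n^p / 256`; `c_n K_n tn_n`
is `0` for `n = 1` and `≤ 3 z_n^(1 - qσ - η) exp (-z_n^(p/q) / 128) ≤ 1/2` for `n ≥ 2`; `θ_n ≤ 1`. So the left side is at most
`exp (-z_n^p/64 + 1 + 1 + z_n^p / 256) ≤ exp (-z_n^p / 128)` for `N` large. -/
def S_PN3 : Prop := S_Z → ∀ ν α σ q r x η : ℝ, 0 < ν → Exps α σ q r x η →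
  ∃ N₀ : ℕ, ∀ N, N₀ ≤ N →
    (∀ m, 0 ≤ tn2 q r N m) ∧ (∀ m, tn2 q r N m < lm2 m * th2 q x N m) ∧
    (∀ m, (prm2 ν α σ q r η N).K m * tn2 q r N (m + 1) ≤ 1 / 80) ∧
    (∀ m, 45 * ((prm2 ν α σ q r η N).ε m * th2 q x N m) ≤ Real.sqrt ((prm2 ν α σ q r η N).c m *
      (prm2 ν α σ q r η N).K m * th2 q x N m) * (lm2 (m + 1) * th2 q x N (m + 1))) ∧
    (∀ L : ℕ, ∃ C : ℝ, ∀ m, (prm2 ν α σ q r η N).ε m *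
      ((prm2 ν α σ q r η N).K (m + 2) : ℝ) ^ L ≤ C) ∧
    (∀ R : ℝ, ∃ m₀ : ℕ, ∀ m, m₀ ≤ m → R * (prm2 ν α σ q r η N).ε m < th2 q x N (m + 1)) ∧
    ∀ m, 2 * ((prm2 ν α σ q r η N).ε (m + 1) * th2 q x N (m + 1)) * Real.exp
      (Real.sqrt (5 / 4 * ((prm2 ν α σ q r η N).c (m + 1) * (prm2 ν α σ q r η N).K (m + 1) *
        tn2 q r N (m + 1))) + 5 * Real.sqrt (lm2 (m + 1) * ((prm2 ν α σ q r η N).c (m + 1) *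
        (prm2 ν α σ q r η N).K (m + 1) * th2 q x N (m + 1))) /
          kp (prm2 ν α σ q r η N) (th2 q x N) lm2 (m + 1)) ≤ tn2 q r N (m + 2)

/-- Parameters, fourth part (the operator).

Proof. As `S_PARB` of HD (module `TPARB`): `K m ^ (2(σ+2α-1)) ≤ z^(-1)` (`σ + 2α - 1 ≤ -1/2`, `K ≥ z`), `c² K_{m+1}^(2σ) ≤ 9 z^(-2η)` (`|σ| ≤ 1`, `z^q ≤ K_{m+1} ≤ 3 z^q`),
`ε² K_{m+1}^(4(S+1))` by (2) of `S_Z`. The first statement with (1), (2) of `S_Z` (`L = 8 * 2^n`), the second one (fixed `N`, any `S'`, `C'`,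
`n'`) with (3), (4). -/
def S_PB2 : Prop := S_Z → ∀ ν α σ q r x η S C δ : ℝ, ∀ n : ℕ, 0 < ν → 0 ≤ S → 0 ≤ C →
  0 < δ → Exps α σ q r x η → ∃ N₀ : ℕ, ∀ N, N₀ ≤ N →
    (∀ m, C * 2 ^ (n * m) * (ν ^ 2 * ((prm2 ν α σ q r η N).K m : ℝ) ^ (2 * (σ + 2 * α - 1)) +
      (prm2 ν α σ q r η N).c m ^ 2 * ((prm2 ν α σ q r η N).K (m + 1) : ℝ) ^ (2 * σ) +
      (prm2 ν α σ q r η N).ε m ^ 2 * ((prm2 ν α σ q r η N).K (m + 1) : ℝ) ^ (4 * (S + 1))) ≤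
        δ * (1 / 8) ^ m) ∧
    ∀ (S' C' : ℝ) (n' : ℕ), 0 ≤ S' → 0 ≤ C' → ∃ C'' : ℝ, 0 ≤ C'' ∧ ∀ m,
      C' * 2 ^ (n' * m) * (ν ^ 2 * ((prm2 ν α σ q r η N).K m : ℝ) ^ (2 * (σ + 2 * α - 1)) +
      (prm2 ν α σ q r η N).c m ^ 2 * ((prm2 ν α σ q r η N).K (m + 1) : ℝ) ^ (2 * σ) +
      (prm2 ν α σ q r η N).ε m ^ 2 * ((prm2 ν α σ q r η N).K (m + 1) : ℝ) ^ (4 * (S' + 1))) ≤
        C'' * (1 / 8) ^ m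

end Pool.Agent.H306.HE
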