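import Pool.Agent.H306.HD.Asm7
import Pool.Agent.H306.HE.Stm2

/-! The assembly for general parameters, and the exponents. -/

noncomputable section

namespace Pool.Agent.H306.HE

open Set MeasureTheory

open scoped Real ContDiff ENNReal

open Pool.Agent.H306.CK Pool.Agent.H306.DS Pool.Agent.H306.HD Pool.Agent.H306.HD.Asm

/-- From the chain to the theorem. -/
theorem core (ν α σ δ η θ₀ T : ℝ) (hν : 0 < ν) (hα : 0 < α) (hα1 : α < 1 / 2)
    (hσ : -(2 * α) ≤ σ) (hσ1 : σ + 2 * α ≤ 1 / 2) (hδ : 0 < δ) (P : Prm) (hPν : P.ν = ν)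
    (hPα : P.α = α) (hStd : Std P) (hodd : ∀ m, Odd (P.K (m + 1))) (hO : OpB P σ)
    (hη0 : 0 < η) (hη1 : 3 * η ≤ δ) (hη2 : 12 * η ≤ min δ ν ^ 2)
    (hsm : ∀ s : ℝ, |s| ≤ max (1 / δ) 1 → ∀ m v, SP v →
      hs (s + σ) (PP P m v) ≤ ENNReal.ofReal (η * (1 / 8) ^ m) * hs s v)
    (hθ0 : 0 < θ₀) (hθ : θ₀ ≤ δ) (hT : 0 < T) (hTδ : T ≤ δ) (b : ℕ → ℝ → ℝ)
    (g : ℕ → ℕ → ℝ → ℝ) (hch : ChSol P θ₀ T b g) :
    ∃ K : (V → V) → V → V,
      (∀ v, SF v → SF (K v)) ∧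
      (∀ v w, SF v → SF w → ∀ a b : ℝ,
        K (fun x i => a * v x i + b * w x i) = fun x i => a * K v x i + b * K w x i) ∧
      (∀ s : ℝ, ∃ C : ℝ, ∀ v, SF v → hs (s + σ) (K v) ≤ ENNReal.ofReal C * hs s v) ∧
      (∀ s : ℝ, |s| ≤ 1 / δ → ∀ v, SF v → hs (s + σ) (K v) ≤ ENNReal.ofReal δ * hs s v) ∧
      (∀ v, SF v → |inner3 v (K v)| ≤ δ * inner3 v (MG (lam 1 α) v)) ∧
      (∀ v, SF v → inner3 v (fun x i => -MG (lam ν α) v x i + K v x i) ≤ 0) ∧
      (∀ (T : ℝ) (u : ℝ → V → V) (p : ℝ → V → ℝ),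
        IsSol (fun v x i => -MG (lam ν α) v x i + K v x i) (Ico 0 T) u p →
        (∀ t ∈ Ico 0 T, SF (u t)) → ∀ s ∈ Ico 0 T, ∀ t ∈ Ico 0 T, s ≤ t →
        inner3 (u t) (u t) ≤ inner3 (u s) (u s)) ∧
      ∃ (T : ℝ) (u : ℝ → V → V), 0 < T ∧ T ≤ δ ∧ (∀ x i, |u 0 x i| ≤ δ) ∧
        ContDiffOn ℝ ∞ (fun z : ℝ × V => u z.1 z.2) (Ico 0 T ×ˢ univ) ∧
        IsSol (fun v x i => -MG (lam ν α) v x i + K v x i) (Ico 0 T) u (fun _ _ => 0) ∧
        (∀ t ∈ Ico 0 T, SF (u t)) ∧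
        (∀ s : ℝ, ∀ t ∈ Ico 0 T, ∃ C : ℝ, ∀ τ ∈ Icc 0 t, hs s (u τ) ≤ ENNReal.ofReal C) ∧
        (∀ M : ℝ, ∃ t ∈ Ico 0 T, ∃ x, M < ‖curl (u t) x‖) ∧
        (∀ (T' : ℝ) (v : ℝ → V → V) (q : ℝ → V → ℝ),
          IsSol (fun v x i => -MG (lam ν α) v x i + K v x i) (Ico 0 T') v q →
          (∀ t ∈ Ico 0 T', SF (v t)) → v 0 = u 0 → T' ≤ T ∧ ∀ t ∈ Ico 0 T', v t = u t) ∧
        ∃ w : ℝ → V → V, w 0 = u 0 ∧
          ContDiffOn ℝ ∞ (fun z : ℝ × V => w z.1 z.2) (Ici 0 ×ˢ univ) ∧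
          IsSol (fun v x i => -MG (lam ν α) v x i) (Ici 0) w (fun _ _ => 0) ∧
          (∀ t ∈ Ici (0 : ℝ), SF (w t)) ∧
          ∀ s : ℝ, ∀ t ∈ Ici (0 : ℝ), hs s (w t) ≤ hs s (w 0) := by
  subst hPν
  subst hPα
  have hP := hStd.ok
  set κ : ℝ := min δ P.ν with hκ
  have hκ0 : 0 < κ := lt_min hδ hν
  have hκδ : κ ≤ δ := min_le_left _ _
  have hκν : κ ≤ P.ν := min_le_right _ _
  have hform : ∀ v, SP v → |inner3 v (KK P v)| ≤ inner3 v (MG (lam κ P.α) v) := fun v hv =>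
    form2 TDIS.dis TSUMOP.sumop TLOP1.lop1 TLOP2.lop2 TPROF.prof TFCP.fcp TMODES.modes hP hodd hσ
      hη0.le hκ0 hη2 hO (fun m v hv => by
        have h1 := hsm (-P.α - σ) (le_max_of_le_right (by rw [abs_le]; constructor <;> linarith)) m v hv
        have e : -P.α - σ + σ = -P.α := by ring
        rwa [e] at h1) hv
  have hsc : ∀ (c : ℝ) (v : V → V), inner3 v (MG (lam c P.α) v) =
      c * inner3 v (MG (lam 1 P.α) v) := by
    intro c v
    unfold inner3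
    rw [← integral_const_mul]
    congr 1
    ext x
    rw [Finset.mul_sum]
    exact Finset.sum_congr rfl fun i _ => by rw [lam_smul c]; ring
  have hnn : ∀ v, SP v → 0 ≤ inner3 v (MG (lam 1 P.α) v) := by
    intro v hv
    have h1 := (abs_nonneg _).trans (hform v hv)
    rw [hsc] at h1
    exact nonneg_of_mul_nonneg_right h1 hκ0
  have hdis : ∀ v, SF v → inner3 v (fun x i => -MG (lam P.ν P.α) v x i + KK P v x i) ≤ 0 := by
    intro v hv
    have h1 := le_of_abs_le (hform v hv.sp)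
    have h2 := hnn v hv.sp
    have h5 : (fun x i => -MG (lam P.ν P.α) v x i + KK P v x i) =
        fun x i => (-1) * MG (lam P.ν P.α) v x i + 1 * KK P v x i := by
      ext x i
      ring
    rw [h5, inner_comb' (MG_sp (TDIS.Mb_lam hν hα) hv.sp).cp (KK_sf facts hStd hO hv.sp).cp hv.sp.cp,
      hsc P.ν]
    rw [hsc κ] at h1
    nlinarith [mul_le_mul_of_nonneg_right hκν h2]
  have hL : LinS (Aop P) := by
    refine ⟨fun v w hv hw => ?_, fun v hv => (Aop_sf facts hStd hO hv).cp.1, hdis⟩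
    have h1 := Aop_comb facts hStd hO hv.sp hw.sp 1 (-1)
    have h2 : (fun x i => 1 * v x i + -1 * w x i) = v - w := by
      ext x i
      simp only [Pi.sub_apply]
      ring
    rw [h2] at h1
    rw [h1]
    ext x i
    simp only [Pi.sub_apply]
    ring
  have hsol := UU_sol facts hStd hch hO (by linarith) hT
  have husf : ∀ t ∈ Ico 0 T, SF (UU P b g t) := fun t ht => UU_sf facts hStd hch ht
  have hunb : ∀ M : ℝ, ∃ t ∈ Ico 0 T, ∃ x, M < ‖curl (UU P b g t) x‖ := by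
    intro M
    obtain ⟨t, ht, m, hm⟩ := hch.unb M
    obtain ⟨x, hx⟩ := UU_curl facts hStd hch hT m
    exact ⟨t, ht, x, hm.trans_le (hx t ht)⟩
  have hzero := UU_zero (P := P) hch
  -- the free flow
  have hE : SF (Em P 0 0) := (TMODES.modes TPROF.prof TFCP.fcp P hP).2.1 0 0
  obtain ⟨w, hw0, hw1, hw2, hw3, hw4⟩ := TFREE.free TCINF.cinf TC1.c1reg P.ν P.α hν hα (by linarith)
    (fun x => θ₀ * Em P 0 0 x 2)
    ⟨contDiff_const.mul (hE.sp.comp 2).1, fun i x => by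
      have h1 := (hE.sp.comp 2).2 i x
      simp only at h1 ⊢
      rw [h1]⟩ (fun x => by
      have h1 := pd_ph_2 facts hStd (Sum.inr (0, 0)) 2 x
      change pd 2 (fun z => Em P 0 0 z 2) x = 0 at h1
      have h2 := pd_comb (hE.sp.comp 2).1 (hE.sp.comp 2).1 θ₀ 0 2 x
      simp only [zero_mul, add_zero] at h2
      rw [h2, h1, mul_zero])
  refine ⟨KK P, fun v hv => KK_sf facts hStd hO hv.sp,
    fun v w hv hw c d => KK_comb facts hStd hO hv.sp hw.sp c d, fun s => ?_, fun s hs v hv => ?_,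
    fun v hv => ?_, hdis, fun T' u p hu hus => energy_leS hL hu hus, T, UU P b g, hT,
    hTδ, fun x i => ?_, UU_smooth hStd hch hT, hsol, husf,
    fun s t ht => UU_hs facts hStd hch s ht, hunb,
    fun T' v q hv hvs h0 => maximal hL hsol husf hunb hv hvs h0, w, ?_, hw1, hw2, hw3, hw4⟩
  · obtain ⟨C', hC'0, hC'⟩ := hO s
    exact ⟨3 * C', fun v hv => KK_hs facts hStd hO hC'0 hC' hv.sp⟩
  · refine (KK_hs facts hStd hO hη0.le (hsm s (hs.trans (le_max_left _ _))) hv.sp).trans ?_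
    gcongr
  · refine (hform v hv.sp).trans ?_
    rw [hsc κ]
    exact mul_le_mul_of_nonneg_right hκδ (hnn v hv.sp)
  · rw [hzero]
    rw [abs_mul, abs_of_pos hθ0]
    calc θ₀ * |Em P 0 0 x i| ≤ δ * 1 := by
          have := Em_le hP 0 0 x i
          gcongr
      _ = δ := mul_one δ
  · rw [hw0, hzero]
    ext x i
    fin_cases i
    · change (0 : ℝ) = θ₀ * Em P 0 0 x 0
      rw [Em_zero, mul_zero]
    · change (0 : ℝ) = θ₀ * Em P 0 0 x 1
      rw [Em_one, mul_zero]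
    · rfl

/-- Existence of the exponents. -/
theorem exps {α σ : ℝ} (hα : 0 < α) (hα1 : α < 1 / 2) (hσ : -(2 * α) ≤ σ)
    (hασ : σ < 1 / 4 - 3 * α + α ^ 2) : ∃ q r x η : ℝ, Exps α σ q r x η := by
  have h12 : 0 < 1 + 2 * α := by linarith
  set q : ℝ := 2 / (1 + 2 * α) with hq
  have hqm : q * (1 + 2 * α) = 2 := by rw [hq]; field_simp
  have hq0 : 0 < q := by positivity
  have hq1 : 1 < q := by rw [hq, lt_div_iff₀ h12]; linarith
  have hq2 : q ≤ 2 := by rw [hq, div_le_iff₀ h12]; linarith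
  -- the two gaps
  have hD : 0 < q - 1 - q ^ 2 * σ - 2 * α * q * (2 * q - 1) := by
    have e : q - 1 - q ^ 2 * σ - 2 * α * q * (2 * q - 1) = q ^ 2 * (1 / 4 - 3 * α + α ^ 2 - σ) := by
      have e1 : q ^ 2 * (1 + 2 * α) ^ 2 = 4 := by rw [← mul_pow, hqm]; norm_num
      have e2 : q * (q * (1 + 2 * α)) = 2 * q := by rw [hqm]; ring
      nlinarith
    rw [e]
    exact mul_pos (by positivity) (by linarith)
  have hX : 0 < 1 - 4 * α * q - q * σ := by
    have h1 : q * σ < q * (1 / 4 - 3 * α + α ^ 2) := mul_lt_mul_of_pos_left hασ hq0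
    have e2 : q * (1 / 4 + α + α ^ 2) = (1 + 2 * α) / 2 := by
      have : q * (1 / 4 + α + α ^ 2) = q * (1 + 2 * α) * ((1 + 2 * α) / 4) := by ring
      rw [this, hqm]
      ring
    nlinarith
  set D := q - 1 - q ^ 2 * σ - 2 * α * q * (2 * q - 1) with hDd
  set E := 1 - 4 * α * q - q * σ with hEd
  set η : ℝ := min (D / (3 * q)) (E / 6) with hη
  have hη0 : 0 < η := lt_min (by positivity) (by positivity)
  have hη1 : 3 * q * η ≤ D := by
    have := min_le_left (D / (3 * q)) (E / 6)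
    rw [← hη, le_div_iff₀ (by positivity)] at this
    linarith
  have hη2 : 6 * η ≤ E := by
    have := min_le_right (D / (3 * q)) (E / 6)
    rw [← hη] at this
    linarith
  refine ⟨q, 2 * α * q + η, 1 - 2 * (2 * α * q + η) - (q * σ + η), η, hα, hα1, hσ, ?_, hq1, hq2,
    hη0, ?_, by ring, le_rfl, ?_⟩
  · nlinarith
  · nlinarith
  · nlinarith

end Pool.Agent.H306.HE
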