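import Pool.Agent.H306.HE.Stm
import Pool.Agent.H306.HD.TBANDBD

/-! The a priori bounds of one band of the chain, second version (statement `S_BBD`). -/

noncomputable section

namespace Pool.Agent.H306.HE.TBBD

open Set Pool.Agent.H306.HD Pool.Agent.H306.HD.TBANDBD

theorem toRight {f : ℝ → ℝ} {f' x : ℝ} (h : HasDerivWithinAt f f' (Icc 0 1) x)
    (hx : x ∈ Ico (0 : ℝ) 1) : HasDerivWithinAt f f' (Ici x) x :=
  h.mono_of_mem_nhdsWithin (Icc_mem_nhdsGE_of_mem hx)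

/-- Mean value inequality for `y' = -m y + g` with `y 0 = 0`, with the time `J`. -/
theorem mvJ {m μ₀ M : ℝ} (hm : μ₀ ≤ m) (hM0 : 0 ≤ M) {y g w J : ℝ → ℝ} (y0 : y 0 = 0)
    (hy : ∀ s ∈ Icc (0 : ℝ) 1, HasDerivWithinAt y (-m * y s + g s) (Icc 0 1) s)
    (J0 : J 0 = 0) (hJ : ∀ s ∈ Icc (0 : ℝ) 1, HasDerivWithinAt J (w s) (Icc 0 1) s)
    (hw : ∀ s ∈ Icc (0 : ℝ) 1, 0 ≤ w s) (hJ1 : ∀ s ∈ Icc (0 : ℝ) 1, J s ≤ 1 / 10)
    {t : ℝ} (ht : t ∈ Icc (0 : ℝ) 1)
    (hM : ∀ s ∈ Icc (0 : ℝ) t, Real.exp (μ₀ * s) * |g s| ≤ M * w s) :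
    Real.exp (μ₀ * t) * |y t| ≤ 1 / 10 * M := by
  have key := image_norm_le_of_norm_deriv_right_le_deriv_boundary'
    (f := fun r => Real.exp (m * r) * y r)
    (f' := fun s => Real.exp (m * s) * g s) (a := 0) (b := t)
    (B := fun r => Real.exp ((m - μ₀) * t) * M * J r)
    (B' := fun r => Real.exp ((m - μ₀) * t) * M * w r)
    (fun x hx => ((hasDeriv_exp_mul (hy x ⟨hx.1, hx.2.trans ht.2⟩)).continuousWithinAt).mono
      (Icc_subset_Icc_right ht.2))
    (fun x hx => toRight (hasDeriv_exp_mul (hy x ⟨hx.1, hx.2.le.trans ht.2⟩))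
      ⟨hx.1, lt_of_lt_of_le hx.2 ht.2⟩)
    (by simp [y0, J0])
    (fun x hx => (((hJ x ⟨hx.1, hx.2.trans ht.2⟩).const_mul _).continuousWithinAt).mono
      (Icc_subset_Icc_right ht.2))
    (fun x hx => toRight ((hJ x ⟨hx.1, hx.2.le.trans ht.2⟩).const_mul _)
      ⟨hx.1, lt_of_lt_of_le hx.2 ht.2⟩)
    (fun x hx => by
      have h1 : Real.exp (m * x) = Real.exp ((m - μ₀) * x) * Real.exp (μ₀ * x) := by
        rw [← Real.exp_add]; congr 1; ring
      rw [Real.norm_eq_abs, abs_mul, abs_of_pos (Real.exp_pos _), h1, mul_assoc, mul_assoc]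
      refine mul_le_mul ?_ (hM x ⟨hx.1, hx.2.le⟩) (by positivity) (Real.exp_pos _).le
      exact Real.exp_le_exp.2 (mul_le_mul_of_nonneg_left hx.2.le (by linarith)))
    (⟨ht.1, le_refl _⟩ : t ∈ Icc (0 : ℝ) t)
  rw [Real.norm_eq_abs, abs_mul, abs_of_pos (Real.exp_pos _)] at key
  have h1 : Real.exp (m * t) = Real.exp ((m - μ₀) * t) * Real.exp (μ₀ * t) := by
    rw [← Real.exp_add]; congr 1; ring
  rw [h1, mul_assoc, mul_assoc] at key
  have h2 := le_of_mul_le_mul_left key (Real.exp_pos _)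
  refine h2.trans ?_
  have := mul_le_mul_of_nonneg_left (hJ1 t ht) hM0
  linarith

theorem cut_nonneg (J : ℝ) : 0 ≤ cut J := cl_nonneg _ _

theorem cut_le (J : ℝ) : cut J ≤ 1 := cl_le zero_le_one _

theorem cut_zero {J : ℝ} (h : 1 / 10 ≤ J) : cut J = 0 := by
  unfold cut cl
  refine max_eq_left ?_
  exact (min_le_left _ _).trans (by linarith)

section

variable {k β : ℝ} {b w J : ℝ → ℝ}

theorem w_nonneg (hk : 0 ≤ k) (R : WRel k β b w J) : ∀ t ∈ Icc (0 : ℝ) 1, 0 ≤ w t := by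
  intro t ht
  rw [R.w_eq t ht]
  exact mul_nonneg (mul_nonneg hk (cl_nonneg _ _)) (cut_nonneg _)

theorem J_le (R : WRel k β b w J) : ∀ t ∈ Icc (0 : ℝ) 1, J t ≤ 1 / 10 := by
  have h : ∀ δ : ℝ, 0 < δ → ∀ t ∈ Icc (0 : ℝ) 1, J t ≤ 1 / 10 + δ * t := by
    intro δ hδ
    refine image_le_of_deriv_right_lt_deriv_boundary' (f := J) (f' := w)
      (B := fun t => 1 / 10 + δ * t) (B' := fun _ => δ)
      (fun x hx => (R.dJ x hx).continuousWithinAt)
      (fun x hx => toRight (R.dJ x ⟨hx.1, hx.2.le⟩) hx) ?_ ?_ ?_ ?_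
    · rw [R.J0]
      norm_num
    · fun_prop
    · intro x _
      have h2 : HasDerivAt (fun t : ℝ => 1 / 10 + δ * t) δ x := by
        simpa using ((hasDerivAt_id x).const_mul δ).const_add (1 / 10 : ℝ)
      exact h2.hasDerivWithinAt
    · intro x hx he
      have h3 : 1 / 10 ≤ J x := by
        rw [he]
        have := mul_nonneg hδ.le hx.1
        linarith
      rw [R.w_eq x ⟨hx.1, hx.2.le⟩, cut_zero h3, mul_zero]
      exact hδ
  intro t ht
  refine le_of_forall_pos_le_add fun δ hδ => ?_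
  have h1 := h δ hδ t ht
  have h2 : δ * t ≤ δ * 1 := mul_le_mul_of_nonneg_left ht.2 hδ.le
  linarith

end

/-- One improvement step of the bounds. -/
theorem stepJ {l c ε : ℝ} {μ : ℕ → ℝ} {B b w J : ℝ → ℝ} {α : ℕ → ℝ → ℝ}
    (hμ : ∀ i, μ 0 ≤ μ i)
    (hB : ∀ t ∈ Icc (0 : ℝ) 1, 0 ≤ B t)
    (hmono : MonotoneOn (fun t => Real.exp (μ 0 * t) * B t) (Icc 0 1))
    (S : BSol l c ε μ B b w α) (J0 : J 0 = 0)
    (hJ : ∀ s ∈ Icc (0 : ℝ) 1, HasDerivWithinAt J (w s) (Icc 0 1) s)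
    (hw : ∀ s ∈ Icc (0 : ℝ) 1, 0 ≤ w s) (hJ1 : ∀ s ∈ Icc (0 : ℝ) 1, J s ≤ 1 / 10)
    {t : ℝ} (ht : t ∈ Icc (0 : ℝ) 1) {N : ℝ}
    (hN : ∀ i, 1 ≤ i → ∀ s ∈ Icc (0 : ℝ) t, 4 ^ i * (Real.exp (μ 0 * s) * |α i s|) ≤ N) :
    (∀ s ∈ Icc (0 : ℝ) t, Real.exp (μ 0 * s) * |α 0 s| ≤ 1 / 10 * (N / 8)) ∧
    (∀ s ∈ Icc (0 : ℝ) t, 4 * (Real.exp (μ 0 * s) * |α 1 s|) ≤
      4 / 10 * (Real.exp (μ 0 * t) * B t) + 7 / 400 * N) ∧
    (∀ i, 2 ≤ i → ∀ s ∈ Icc (0 : ℝ) t, 4 ^ i * (Real.exp (μ 0 * s) * |α i s|) ≤ N / 4) := by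
  have hN0 : 0 ≤ N := by
    refine le_trans ?_ (hN 1 (le_refl _) 0 ⟨le_refl _, ht.1⟩)
    positivity
  have hBt : 0 ≤ Real.exp (μ 0 * t) * B t := mul_nonneg (Real.exp_pos _).le (hB t ht)
  have h0 : ∀ s ∈ Icc (0 : ℝ) t, Real.exp (μ 0 * s) * |α 0 s| ≤ 1 / 10 * (N / 8) := by
    intro s hs
    refine mvJ (m := μ 0) (g := fun r => -w r / 2 * α 1 r) (le_refl _) (by positivity) (S.α0 0)
      (fun r hr => (S.dα0 r hr).congr_deriv (by ring)) J0 hJ hw hJ1 ⟨hs.1, hs.2.trans ht.2⟩ ?_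
    intro r hr
    have hr1 : r ∈ Icc (0 : ℝ) 1 := ⟨hr.1, (hr.2.trans hs.2).trans ht.2⟩
    have h1 := hN 1 (le_refl _) r ⟨hr.1, hr.2.trans hs.2⟩
    have hwr := hw r hr1
    have h2 : |(-w r / 2 * α 1 r)| = w r / 2 * |α 1 r| := by
      rw [show (-w r / 2 * α 1 r) = -(w r / 2 * α 1 r) by ring, abs_neg,
        abs_mul, abs_of_nonneg (by linarith)]
    rw [h2]
    have h3 : Real.exp (μ 0 * r) * (w r / 2 * |α 1 r|) =
      (4 ^ 1 * (Real.exp (μ 0 * r) * |α 1 r|)) / 8 * w r := by ring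
    rw [h3]
    exact mul_le_mul_of_nonneg_right (by linarith) hwr
  refine ⟨h0, ?_, ?_⟩
  · intro s hs
    have h5 : Real.exp (μ 0 * s) * |α 1 s| ≤
        1 / 10 * (Real.exp (μ 0 * t) * B t + 1 / 10 * (N / 8) + N / 32) := by
      refine mvJ (m := μ 1) (g := fun r => w r * (B r + α 0 r + α 2 r / 2)) (hμ 1)
        (by positivity)
        (S.α0 1) (fun r hr => S.dα1 r hr) J0 hJ hw hJ1 ⟨hs.1, hs.2.trans ht.2⟩ ?_
      intro r hr
      have hrt : r ∈ Icc (0 : ℝ) t := ⟨hr.1, hr.2.trans hs.2⟩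
      have hr1 : r ∈ Icc (0 : ℝ) 1 := ⟨hr.1, hrt.2.trans ht.2⟩
      have hwr := hw r hr1
      have e0 := h0 r hrt
      have e2 := hN 2 (by norm_num) r hrt
      have eB : Real.exp (μ 0 * r) * B r ≤ Real.exp (μ 0 * t) * B t := hmono hr1 ht hrt.2
      rw [abs_mul, abs_of_nonneg hwr]
      have h6 : |B r + α 0 r + α 2 r / 2| ≤ B r + |α 0 r| + |α 2 r| / 2 := by
        calc |B r + α 0 r + α 2 r / 2| ≤ |B r + α 0 r| + |α 2 r / 2| := abs_add_le _ _
          _ ≤ |B r| + |α 0 r| + |α 2 r / 2| := by gcongr; exact abs_add_le _ _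
          _ = B r + |α 0 r| + |α 2 r| / 2 := by
            rw [abs_of_nonneg (hB r hr1), abs_div, abs_of_pos (by norm_num : (0 : ℝ) < 2)]
      have hE := Real.exp_pos (μ 0 * r)
      calc Real.exp (μ 0 * r) * (w r * |B r + α 0 r + α 2 r / 2|)
          = (Real.exp (μ 0 * r) * |B r + α 0 r + α 2 r / 2|) * w r := by ring
        _ ≤ (Real.exp (μ 0 * r) * (B r + |α 0 r| + |α 2 r| / 2)) * w r :=
            mul_le_mul_of_nonneg_right (mul_le_mul_of_nonneg_left h6 hE.le) hwr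
        _ ≤ (Real.exp (μ 0 * t) * B t + 1 / 10 * (N / 8) + N / 32) * w r := by
            refine mul_le_mul_of_nonneg_right ?_ hwr
            have h7 : Real.exp (μ 0 * r) * (B r + |α 0 r| + |α 2 r| / 2) =
              Real.exp (μ 0 * r) * B r + Real.exp (μ 0 * r) * |α 0 r| +
                (4 ^ 2 * (Real.exp (μ 0 * r) * |α 2 r|)) / 32 := by ring
            rw [h7]; linarith
    linarith
  · intro i hi s hs
    obtain ⟨j, rfl⟩ : ∃ j, i = j + 2 := ⟨i - 2, by omega⟩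
    have h5 : Real.exp (μ 0 * s) * |α (j + 2) s| ≤
        1 / 10 * ((N / (4 ^ (j + 1)) + N / (4 ^ (j + 3))) / 2) := by
      refine mvJ (m := μ (j + 2)) (g := fun r => (-1) ^ (j + 2 + 1) * (w r / 2) *
        (α (j + 2 - 1) r + α (j + 2 + 1) r)) (hμ _) (by positivity)
        (S.α0 _) (fun r hr => S.dα (j + 2) (by omega) r hr) J0 hJ hw hJ1
        ⟨hs.1, hs.2.trans ht.2⟩ ?_
      intro r hr
      have hrt : r ∈ Icc (0 : ℝ) t := ⟨hr.1, hr.2.trans hs.2⟩
      have hr1 : r ∈ Icc (0 : ℝ) 1 := ⟨hr.1, hrt.2.trans ht.2⟩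
      have hwr := hw r hr1
      have e1 := hN (j + 1) (by omega) r hrt
      have e3 := hN (j + 3) (by omega) r hrt
      have h41 : (0 : ℝ) < 4 ^ (j + 1) := by positivity
      have h43 : (0 : ℝ) < 4 ^ (j + 3) := by positivity
      have e1' : Real.exp (μ 0 * r) * |α (j + 1) r| ≤ N / 4 ^ (j + 1) := by
        rw [le_div_iff₀ h41]; linarith
      have e3' : Real.exp (μ 0 * r) * |α (j + 3) r| ≤ N / 4 ^ (j + 3) := by
        rw [le_div_iff₀ h43]; linarith
      have h6 : |(-1) ^ (j + 2 + 1) * (w r / 2) *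
          (α (j + 2 - 1) r + α (j + 2 + 1) r)| ≤
          (w r / 2) * (|α (j + 1) r| + |α (j + 3) r|) := by
        rw [abs_mul, abs_mul, abs_pow, abs_neg, abs_one, one_pow, one_mul,
          abs_of_nonneg (by linarith : (0 : ℝ) ≤ w r / 2)]
        exact mul_le_mul_of_nonneg_left (abs_add_le _ _) (by linarith)
      have hE := Real.exp_pos (μ 0 * r)
      calc Real.exp (μ 0 * r) * |(-1) ^ (j + 2 + 1) * (w r / 2) *
          (α (j + 2 - 1) r + α (j + 2 + 1) r)|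
          ≤ Real.exp (μ 0 * r) * ((w r / 2) * (|α (j + 1) r| + |α (j + 3) r|)) :=
            mul_le_mul_of_nonneg_left h6 hE.le
        _ = ((Real.exp (μ 0 * r) * |α (j + 1) r| +
              Real.exp (μ 0 * r) * |α (j + 3) r|) / 2) * w r := by ring
        _ ≤ ((N / (4 ^ (j + 1)) + N / (4 ^ (j + 3))) / 2) * w r :=
            mul_le_mul_of_nonneg_right (by linarith) hwr
    have h4 : (0 : ℝ) < 4 ^ (j + 2) := by positivity
    have h6 : 4 ^ (j + 2) * (1 / 10 * ((N / (4 ^ (j + 1)) + N / (4 ^ (j + 3))) / 2)) =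
        1 / 10 * N * (17 / 8) := by
      have h1 : (4 : ℝ) ^ (j + 1) ≠ 0 := by positivity
      have h3 : (4 : ℝ) ^ (j + 3) ≠ 0 := by positivity
      field_simp
      ring
    have h8 := mul_le_mul_of_nonneg_left h5 h4.le
    rw [h6] at h8
    linarith

theorem bbd : S_BBD := by
  intro k β l c ε μ B b w J α hk hβ hc hε hμ hB hmono S R
  have hμ0 : ∀ i, μ 0 ≤ μ i := fun i => monotone_nat_of_le_succ hμ (Nat.zero_le i)
  have hw := w_nonneg hk R
  have hJ1 := J_le R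
  obtain ⟨C, hC⟩ := S.fin
  -- the bounds
  have main : ∀ t ∈ Icc (0 : ℝ) 1, ∀ i, 1 ≤ i → ∀ s ∈ Icc (0 : ℝ) t,
      4 ^ i * (Real.exp (μ 0 * s) * |α i s|) ≤ 1 / 2 * (Real.exp (μ 0 * t) * B t) := by
    intro t ht
    set D : ℝ := 1 / 2 * (Real.exp (μ 0 * t) * B t) with hD
    have hD0 : 0 ≤ D := by
      have := hB t ht
      positivity
    have hC0 : 0 ≤ C := by
      refine le_trans ?_ (hC 0 0 ⟨le_refl _, zero_le_one⟩)
      positivity
    set E : ℝ := Real.exp |μ 0| * C with hE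
    have hE0 : 0 ≤ E := by positivity
    have ind : ∀ n : ℕ, ∀ i, 1 ≤ i → ∀ s ∈ Icc (0 : ℝ) t,
        4 ^ i * (Real.exp (μ 0 * s) * |α i s|) ≤ D + E / 4 ^ n := by
      intro n
      induction n with
      | zero =>
        intro i _ s hs
        have hs1 : s ∈ Icc (0 : ℝ) 1 := ⟨hs.1, hs.2.trans ht.2⟩
        have h1 := hC i s hs1
        have h2 : Real.exp (μ 0 * s) ≤ Real.exp |μ 0| := by
          refine Real.exp_le_exp.2 ?_
          calc μ 0 * s ≤ |μ 0 * s| := le_abs_self _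
            _ = |μ 0| * s := by rw [abs_mul, abs_of_nonneg hs1.1]
            _ ≤ |μ 0| * 1 := mul_le_mul_of_nonneg_left hs1.2 (abs_nonneg _)
            _ = |μ 0| := mul_one _
        have h3 : 4 ^ i * (Real.exp (μ 0 * s) * |α i s|) =
          Real.exp (μ 0 * s) * (4 ^ i * |α i s|) := by ring
        rw [h3, pow_zero, div_one]
        have h4 : Real.exp (μ 0 * s) * (4 ^ i * |α i s|) ≤ Real.exp |μ 0| * C :=
          mul_le_mul h2 h1 (by positivity) (Real.exp_pos _).le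
        linarith
      | succ n ih =>
        obtain ⟨-, p1, p2⟩ := stepJ hμ0 hB hmono S R.J0 R.dJ hw hJ1 ht ih
        have hEn : 0 ≤ E / 4 ^ n := by positivity
        have hEn' : E / 4 ^ (n + 1) = E / 4 ^ n / 4 := by
          rw [pow_succ, div_div]
        intro i hi s hs
        rcases Nat.lt_or_ge i 2 with h | h
        · have hi1 : i = 1 := by omega
          subst hi1
          have := p1 s hs
          have hD' : 4 / 10 * (Real.exp (μ 0 * t) * B t) = 4 / 5 * D := by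
            rw [hD]; ring
          rw [hD'] at this
          rw [hEn', pow_one]
          linarith
        · have := p2 i h s hs
          rw [hEn']
          linarith
    intro i hi s hs
    have hlim : Filter.Tendsto (fun n : ℕ => D + E / 4 ^ n) Filter.atTop (nhds (D + 0)) := by
      refine tendsto_const_nhds.add ?_
      have := (tendsto_pow_atTop_nhds_zero_of_lt_one (r := (1 / 4 : ℝ)) (by norm_num)
        (by norm_num)).const_mul E
      rw [mul_zero] at this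
      refine this.congr (fun n => ?_)
      rw [one_div, inv_pow]; rfl
    rw [add_zero] at hlim
    exact ge_of_tendsto' hlim (fun n => ind n i hi s hs)
  have hb1 : ∀ t ∈ Icc (0 : ℝ) 1, ∀ i, 1 ≤ i → |α i t| ≤ 1 / 2 * (1 / 4) ^ i * B t := by
    intro t ht i hi
    have h1 := main t ht i hi t ⟨ht.1, le_refl _⟩
    have hE := Real.exp_pos (μ 0 * t)
    have h4 : (0 : ℝ) < 4 ^ i := by positivity
    have h2 : Real.exp (μ 0 * t) * (4 ^ i * |α i t|) ≤
        Real.exp (μ 0 * t) * (1 / 2 * B t) := by linarith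
    have h3 := le_of_mul_le_mul_left h2 hE
    have h5 : 1 / 2 * (1 / 4) ^ i * B t = (1 / 2 * B t) / 4 ^ i := by
      rw [one_div, one_div, inv_pow]; field_simp
    rw [h5, le_div_iff₀ h4]
    linarith
  have hb0 : ∀ t ∈ Icc (0 : ℝ) 1, |α 0 t| ≤ 1 / 10 * B t := by
    intro t ht
    have h1 := (stepJ hμ0 hB hmono S R.J0 R.dJ hw hJ1 ht (main t ht)).1 t ⟨ht.1, le_refl _⟩
    have hE := Real.exp_pos (μ 0 * t)
    have hBt := hB t ht
    have h2 : Real.exp (μ 0 * t) * |α 0 t| ≤ Real.exp (μ 0 * t) * (1 / 160 * B t) := by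
      linarith
    have h3 := le_of_mul_le_mul_left h2 hE
    linarith
  have hforce : ∀ t ∈ Icc (0 : ℝ) 1, 0 ≤ B t + α 0 t + α 2 t / 2 := by
    intro t ht
    have h0 := hb0 t ht
    have h2 := hb1 t ht 2 (by norm_num)
    have hBt := hB t ht
    have h4 := neg_abs_le (α 0 t)
    have h5 := neg_abs_le (α 2 t)
    have h6 : 1 / 2 * (1 / 4) ^ 2 * B t = 1 / 32 * B t := by ring
    rw [h6] at h2
    linarith
  have hα1 : ∀ t ∈ Icc (0 : ℝ) 1, 0 ≤ α 1 t := fun t ht =>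
    nonneg (S.α0 1) (fun r hr => S.dα1 r hr) (fun s hs => mul_nonneg (hw s hs) (hforce s hs)) ht
  intro t ht
  have hbt : 0 ≤ b t := by
    refine nonneg (m := l) (g := fun s => c * α 1 s + ε * (B s + α 0 s)) S.b0
      (fun r hr => (S.db r hr).congr_deriv (by ring)) (fun s hs => ?_) ht
    have h0 := hb0 s hs
    have hBs := hB s hs
    have h4 := neg_abs_le (α 0 s)
    exact add_nonneg (mul_nonneg hc (hα1 s hs)) (mul_nonneg hε (by linarith))
  refine ⟨hbt, hα1 t ht, hw t ht, ?_, hb0 t ht, hb1 t ht⟩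
  rw [R.w_eq t ht]
  have h1 : cl β (b t) ≤ b t := max_le hbt (min_le_left _ _)
  calc k * cl β (b t) * cut (J t) ≤ k * cl β (b t) * 1 :=
        mul_le_mul_of_nonneg_left (cut_le _) (mul_nonneg hk (cl_nonneg _ _))
    _ = k * cl β (b t) := mul_one _
    _ ≤ k * b t := mul_le_mul_of_nonneg_left h1 hk

end Pool.Agent.H306.HE.TBBD
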