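import Pool.Agent.H306.HE.Stm
import Pool.Agent.H306.HD.TODE

/-!
Project HE (helper306), statement S_BEX: existence of the solution of one band (helper571, adapted
from the module HD.TBANDEX of helper358).
-/

set_option autoImplicit false

open Set

namespace Pool.Agent.H306.HE.TBEX

open Pool.Agent.H306.HD Pool.Agent.H306.HE

/-! ### Bounded Lipschitz functions on `[0, 1]` -/

/-- bounded by `K` and Lipschitz with constant `K` on `[0, 1]` -/
structure BL (K : ℝ) (f : ℝ → ℝ) : Prop where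
  bd : ∀ t ∈ Icc (0 : ℝ) 1, |f t| ≤ K
  lip : ∀ s ∈ Icc (0 : ℝ) 1, ∀ t ∈ Icc (0 : ℝ) 1, |f s - f t| ≤ K * |s - t|

theorem BL.nonneg {K : ℝ} {f : ℝ → ℝ} (h : BL K f) : 0 ≤ K :=
  (abs_nonneg _).trans (h.bd 0 ⟨le_rfl, zero_le_one⟩)

theorem BL.mono {K K' : ℝ} {f : ℝ → ℝ} (h : BL K f) (hK : K ≤ K') : BL K' f :=
  ⟨fun t ht => (h.bd t ht).trans hK, fun s hs t ht => (h.lip s hs t ht).trans
    (mul_le_mul_of_nonneg_right hK (abs_nonneg _))⟩

theorem BL.const_mul {K : ℝ} {f : ℝ → ℝ} (h : BL K f) (a : ℝ) : BL (|a| * K) fun t => a * f t := by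
  refine ⟨fun t ht => ?_, fun s hs t ht => ?_⟩
  · rw [abs_mul]
    exact mul_le_mul_of_nonneg_left (h.bd t ht) (abs_nonneg _)
  · rw [← mul_sub, abs_mul, mul_assoc]
    exact mul_le_mul_of_nonneg_left (h.lip s hs t ht) (abs_nonneg _)

theorem BL.mul {K K' : ℝ} {f g : ℝ → ℝ} (h : BL K f) (h' : BL K' g) :
    BL (2 * (K * K')) fun t => f t * g t := by
  have hK := h.nonneg
  have hK' := h'.nonneg
  refine ⟨fun t ht => ?_, fun s hs t ht => ?_⟩
  · rw [abs_mul]
    have h1 := mul_le_mul (h.bd t ht) (h'.bd t ht) (abs_nonneg _) hK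
    have h2 := mul_nonneg hK hK'
    linarith
  · have h1 : f s * g s - f t * g t = (f s - f t) * g s + f t * (g s - g t) := by ring
    rw [h1]
    refine (abs_add_le _ _).trans ?_
    rw [abs_mul, abs_mul]
    have h2 := mul_le_mul (h.lip s hs t ht) (h'.bd s hs) (abs_nonneg _)
      (mul_nonneg hK (abs_nonneg _))
    have h3 := mul_le_mul (h.bd t ht) (h'.lip s hs t ht) (abs_nonneg _) hK
    linarith

theorem BL.zero {K : ℝ} (hK : 0 ≤ K) : BL K fun _ => 0 :=
  ⟨fun t _ => by rw [abs_zero]; exact hK, fun s _ t _ => by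
    rw [sub_zero, abs_zero]; exact mul_nonneg hK (abs_nonneg _)⟩

theorem exp_sub_le {x y M : ℝ} (hx : x ≤ M) (hxy : y ≤ x) :
    Real.exp x - Real.exp y ≤ Real.exp M * (x - y) := by
  have h1 := Real.add_one_le_exp (y - x)
  have h2 : Real.exp y = Real.exp x * Real.exp (y - x) := by
    rw [← Real.exp_add]
    congr 1
    ring
  have h3 : Real.exp x ≤ Real.exp M := Real.exp_le_exp.2 hx
  have h4 := Real.exp_pos x
  have h5 : Real.exp x * (y - x + 1) ≤ Real.exp x * Real.exp (y - x) :=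
    mul_le_mul_of_nonneg_left h1 h4.le
  have h6 : Real.exp x * (x - y) ≤ Real.exp M * (x - y) :=
    mul_le_mul_of_nonneg_right h3 (by linarith)
  rw [h2]
  linarith

theorem BL.exp {a M : ℝ} (ha : |a| ≤ M) : BL ((1 + M) * Real.exp M) fun t => Real.exp (a * t) := by
  have hM : 0 ≤ M := (abs_nonneg _).trans ha
  have he := Real.exp_pos M
  have hat : ∀ t ∈ Icc (0 : ℝ) 1, a * t ≤ M := by
    intro t ht
    have h1 : a * t ≤ |a| * t := mul_le_mul_of_nonneg_right (le_abs_self a) ht.1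
    have h2 : |a| * t ≤ M * 1 := mul_le_mul ha ht.2 ht.1 hM
    linarith
  refine ⟨fun t ht => ?_, ?_⟩
  · rw [abs_of_pos (Real.exp_pos _)]
    have h1 := Real.exp_le_exp.2 (hat t ht)
    nlinarith
  · have key : ∀ s ∈ Icc (0 : ℝ) 1, ∀ t ∈ Icc (0 : ℝ) 1, a * t ≤ a * s →
        |Real.exp (a * s) - Real.exp (a * t)| ≤ (1 + M) * Real.exp M * |s - t| := by
      intro s hs t _ hst
      rw [abs_of_nonneg (sub_nonneg.2 (Real.exp_le_exp.2 hst))]
      refine (exp_sub_le (hat s hs) hst).trans ?_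
      have h1 : a * s - a * t ≤ M * |s - t| := by
        rw [← mul_sub]
        refine (le_abs_self _).trans ?_
        rw [abs_mul]
        exact mul_le_mul_of_nonneg_right ha (abs_nonneg _)
      have h2 := mul_le_mul_of_nonneg_left h1 he.le
      have h3 := mul_nonneg he.le (abs_nonneg (s - t))
      linarith
    intro s hs t ht
    rcases le_total (a * t) (a * s) with h | h
    · exact key s hs t ht h
    · rw [abs_sub_comm, abs_sub_comm s]
      exact key t ht s hs h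

/-! ### The Banach space -/

/-- the space -/
abbrev EE := (ℝ × ℝ) × BoundedContinuousFunction ℕ ℝ

open Classical in
/-- a bounded sequence as a bounded continuous function (`0` if it is not bounded) -/
noncomputable def mkB (f : ℕ → ℝ) : BoundedContinuousFunction ℕ ℝ :=
  if h : ∃ C, ∀ i, ‖f i‖ ≤ C then
    BoundedContinuousFunction.ofNormedAddCommGroupDiscrete f h.choose h.choose_spec else 0

theorem mkB_apply {f : ℕ → ℝ} {C : ℝ} (h : ∀ i, |f i| ≤ C) (i : ℕ) : mkB f i = f i := by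
  have h1 : ∃ C, ∀ i, ‖f i‖ ≤ C := ⟨C, h⟩
  unfold mkB
  rw [dif_pos h1]
  rfl

/-- the abstract tridiagonal system -/
theorem system (hODE : S_ODE) {K : ℝ} (l : ℝ) (c₀ c₁ e : ℝ → ℝ) (P Q R : ℕ → ℝ → ℝ) (w : ℝ × ℝ → ℝ)
    (hc₀ : BL K c₀) (hc₁ : BL K c₁) (he : BL K e) (hP : ∀ i, BL K (P i)) (hQ : ∀ i, BL K (Q i))
    (hR : ∀ i, BL K (R i)) (hw : ∀ x, |w x| ≤ K) (hw' : ∀ x y, |w x - w y| ≤ K * ‖x - y‖) :
    ∃ (b J : ℝ → ℝ) (γ : ℕ → ℝ → ℝ), b 0 = 0 ∧ J 0 = 0 ∧ (∀ i, γ i 0 = 0) ∧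
      (∀ t ∈ Icc (0 : ℝ) 1, HasDerivWithinAt b (-l * b t + c₁ t * γ 1 t + c₀ t * γ 0 t + e t)
        (Icc 0 1) t) ∧
      (∀ t ∈ Icc (0 : ℝ) 1, HasDerivWithinAt J (w (b t, J t)) (Icc 0 1) t) ∧
      (∀ i, ∀ t ∈ Icc (0 : ℝ) 1, HasDerivWithinAt (γ i)
        (w (b t, J t) * (P i t * γ (i - 1) t + Q i t * γ (i + 1) t + R i t)) (Icc 0 1) t) ∧
      ∃ C : ℝ, ∀ i, ∀ t ∈ Icc (0 : ℝ) 1, |γ i t| ≤ C := by
  have hK : 0 ≤ K := hc₀.nonneg
  set g : ℝ → EE → ℕ → ℝ := fun t x i =>
    w x.1 * (P i t * x.2 (i - 1) + Q i t * x.2 (i + 1) + R i t) with hg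
  set F : ℝ → EE → EE := fun t x =>
    ((-l * x.1.1 + c₁ t * x.2 1 + c₀ t * x.2 0 + e t, w x.1), mkB (g t x)) with hF
  have hco : ∀ (x : EE) (i : ℕ), |x.2 i| ≤ ‖x‖ := fun x i =>
    (x.2.norm_coe_le_norm i).trans (norm_snd_le x)
  have hco2 : ∀ x : EE, ‖x.1‖ ≤ ‖x‖ := fun x => norm_fst_le x
  have hco1 : ∀ x : EE, |x.1.1| ≤ ‖x‖ := fun x => (norm_fst_le x.1).trans (hco2 x)
  -- the inner part
  have hin : ∀ t ∈ Icc (0 : ℝ) 1, ∀ (x : EE) (i : ℕ),
      |P i t * x.2 (i - 1) + Q i t * x.2 (i + 1) + R i t| ≤ 2 * K * ‖x‖ + K := by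
    intro t ht x i
    have h1 : |P i t * x.2 (i - 1)| ≤ K * ‖x‖ := by
      rw [abs_mul]
      exact mul_le_mul ((hP i).bd t ht) (hco x _) (abs_nonneg _) hK
    have h2 : |Q i t * x.2 (i + 1)| ≤ K * ‖x‖ := by
      rw [abs_mul]
      exact mul_le_mul ((hQ i).bd t ht) (hco x _) (abs_nonneg _) hK
    have h3 := (hR i).bd t ht
    have h4 := abs_add_le (P i t * x.2 (i - 1) + Q i t * x.2 (i + 1)) (R i t)
    have h5 := abs_add_le (P i t * x.2 (i - 1)) (Q i t * x.2 (i + 1))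
    linarith
  have hgb : ∀ t ∈ Icc (0 : ℝ) 1, ∀ (x : EE) (i : ℕ), |g t x i| ≤ K * (2 * K * ‖x‖ + K) := by
    intro t ht x i
    rw [hg]
    simp only
    rw [abs_mul]
    exact mul_le_mul (hw _) (hin t ht x i) (abs_nonneg _) hK
  have hFi : ∀ t ∈ Icc (0 : ℝ) 1, ∀ (x : EE) (i : ℕ), (F t x).2 i = g t x i := fun t ht x i =>
    mkB_apply (hgb t ht x) i
  -- products
  have hprod : ∀ (c : ℝ → ℝ), BL K c → ∀ s ∈ Icc (0 : ℝ) 1, ∀ t ∈ Icc (0 : ℝ) 1, ∀ (x y : EE)
      (r : ℝ) (i : ℕ), 0 ≤ r → ‖x‖ ≤ r → |c s * x.2 i - c t * y.2 i| ≤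
        (K * r + K) * (|s - t| + ‖x - y‖) := by
    intro c hc s hs t ht x y r i hr hx
    have h1 : c s * x.2 i - c t * y.2 i = (c s - c t) * x.2 i + c t * ((x - y).2 i) := by
      have : (x - y).2 i = x.2 i - y.2 i := rfl
      rw [this]
      ring
    rw [h1]
    refine (abs_add_le _ _).trans ?_
    rw [abs_mul, abs_mul]
    have h2 := mul_le_mul (hc.lip s hs t ht) ((hco x i).trans hx) (abs_nonneg _)
      (mul_nonneg hK (abs_nonneg _))
    have h3 := mul_le_mul (hc.bd t ht) (hco (x - y) i) (abs_nonneg _) hK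
    have h4 := abs_nonneg (s - t)
    have h5 := norm_nonneg (x - y)
    have h6 := mul_nonneg (mul_nonneg hK hr) h5
    have h7 := mul_nonneg hK h4
    nlinarith
  obtain ⟨x, hx0, hx⟩ := hODE EE F
    (by
      intro r'
      set r : ℝ := |r'| with hr
      have hr0 : 0 ≤ r := abs_nonneg _
      refine ⟨(|l| + 2 * (K * r + K) + K) + (K * (2 * K * r + K) + K * (2 * (K * r + K) + K)), ?_⟩
      intro s hs t ht x y hx hy
      have hxr : ‖x‖ ≤ r := hx.trans (le_abs_self _)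
      set D : ℝ := |s - t| + ‖x - y‖ with hD
      have hst : |s - t| ≤ D := le_add_of_nonneg_right (norm_nonneg _)
      have hxy : ‖x - y‖ ≤ D := le_add_of_nonneg_left (abs_nonneg _)
      have hD0 : 0 ≤ D := (abs_nonneg _).trans hst
      have hKr : 0 ≤ K * r := mul_nonneg hK hr0
      have a1 : 0 ≤ (|l| + 2 * (K * r + K) + K) := by
        have := abs_nonneg l
        positivity
      have a2 : 0 ≤ (K * (2 * K * r + K) + K * (2 * (K * r + K) + K)) := by
        have h1 : 0 ≤ 2 * K * r + K := by nlinarith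
        positivity
      have p0 := hprod c₀ hc₀ s hs t ht x y r 0 hr0 hxr
      have p1 := hprod c₁ hc₁ s hs t ht x y r 1 hr0 hxr
      have hes : |e s - e t| ≤ K * D :=
        (he.lip s hs t ht).trans (mul_le_mul_of_nonneg_left hst hK)
      have hx1 : |x.1.1 - y.1.1| ≤ D := (hco1 (x - y)).trans hxy
      have hx2 : ‖x.1 - y.1‖ ≤ D := (hco2 (x - y)).trans hxy
      have k0 : ‖(F s x - F t y).1.2‖ ≤ K * D :=
        (hw' x.1 y.1).trans (mul_le_mul_of_nonneg_left hx2 hK)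
      have k1 : ‖(F s x - F t y).1.1‖ ≤ (|l| + 2 * (K * r + K) + K) * D := by
        have h1 : (F s x - F t y).1.1 = -l * (x.1.1 - y.1.1) + (c₁ s * x.2 1 - c₁ t * y.2 1) +
            (c₀ s * x.2 0 - c₀ t * y.2 0) + (e s - e t) := by
          rw [Prod.fst_sub, Prod.fst_sub, hF]
          ring
        rw [h1, Real.norm_eq_abs]
        have h2 : |-l * (x.1.1 - y.1.1)| ≤ |l| * D := by
          rw [abs_mul, abs_neg]
          exact mul_le_mul_of_nonneg_left hx1 (abs_nonneg _)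
        have h3 := abs_add_le (-l * (x.1.1 - y.1.1) + (c₁ s * x.2 1 - c₁ t * y.2 1) +
            (c₀ s * x.2 0 - c₀ t * y.2 0)) (e s - e t)
        have h4 := abs_add_le (-l * (x.1.1 - y.1.1) + (c₁ s * x.2 1 - c₁ t * y.2 1))
          (c₀ s * x.2 0 - c₀ t * y.2 0)
        have h5 := abs_add_le (-l * (x.1.1 - y.1.1)) (c₁ s * x.2 1 - c₁ t * y.2 1)
        linarith
      have k2 : ‖(F s x - F t y).2‖ ≤
          (K * (2 * K * r + K) + K * (2 * (K * r + K) + K)) * D := by
        rw [BoundedContinuousFunction.norm_le (mul_nonneg a2 hD0)]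
        intro i
        have h1 : (F s x - F t y).2 i = g s x i - g t y i := by
          rw [← hFi s hs, ← hFi t ht]
          rfl
        have pP := hprod (P i) (hP i) s hs t ht x y r (i - 1) hr0 hxr
        have pQ := hprod (Q i) (hQ i) s hs t ht x y r (i + 1) hr0 hxr
        have pR : |R i s - R i t| ≤ K * D :=
          ((hR i).lip s hs t ht).trans (mul_le_mul_of_nonneg_left hst hK)
        have h2 : g s x i - g t y i =
            (w x.1 - w y.1) * (P i s * x.2 (i - 1) + Q i s * x.2 (i + 1) + R i s) +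
            w y.1 * ((P i s * x.2 (i - 1) - P i t * y.2 (i - 1)) +
              (Q i s * x.2 (i + 1) - Q i t * y.2 (i + 1)) + (R i s - R i t)) := by
          rw [hg]
          ring
        have h3 : |P i s * x.2 (i - 1) + Q i s * x.2 (i + 1) + R i s| ≤ 2 * K * r + K := by
          refine (hin s hs x i).trans ?_
          nlinarith
        have h4 : |(P i s * x.2 (i - 1) - P i t * y.2 (i - 1)) +
              (Q i s * x.2 (i + 1) - Q i t * y.2 (i + 1)) + (R i s - R i t)| ≤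
              (2 * (K * r + K) + K) * D := by
          have h5 := abs_add_le ((P i s * x.2 (i - 1) - P i t * y.2 (i - 1)) +
              (Q i s * x.2 (i + 1) - Q i t * y.2 (i + 1))) (R i s - R i t)
          have h6 := abs_add_le (P i s * x.2 (i - 1) - P i t * y.2 (i - 1))
              (Q i s * x.2 (i + 1) - Q i t * y.2 (i + 1))
          linarith
        have h5 : |w x.1 - w y.1| ≤ K * D :=
          (hw' _ _).trans (mul_le_mul_of_nonneg_left hx2 hK)
        rw [h1, h2, Real.norm_eq_abs]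
        refine (abs_add_le _ _).trans ?_
        rw [abs_mul, abs_mul]
        have h6 := mul_le_mul h5 h3 (abs_nonneg _) (mul_nonneg hK hD0)
        have h7 := mul_le_mul (hw y.1) h4 (abs_nonneg _) hK
        linarith
      rw [norm_prod_le_iff, norm_prod_le_iff]
      have k3 := mul_nonneg a1 hD0
      have k4 := mul_nonneg a2 hD0
      have k5 : K * D ≤ (|l| + 2 * (K * r + K) + K) * D := by
        refine mul_le_mul_of_nonneg_right ?_ hD0
        have := abs_nonneg l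
        linarith
      refine ⟨⟨?_, ?_⟩, ?_⟩
      · linarith
      · linarith
      · linarith)
    (by
      refine ⟨(|l| + 3 * K) + K * (2 * K + K), fun t ht x => ?_⟩
      have hl := abs_nonneg l
      have hn := norm_nonneg x
      have a1 : 0 ≤ (|l| + 3 * K) := by positivity
      have a2 : 0 ≤ K * (2 * K + K) := by positivity
      have hn1 : 0 ≤ 1 + ‖x‖ := by positivity
      have k0 : ‖(F t x).1.2‖ ≤ K := hw x.1
      have k1 : ‖(F t x).1.1‖ ≤ (|l| + 3 * K) * (1 + ‖x‖) := by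
        have h1 : (F t x).1.1 = -l * x.1.1 + c₁ t * x.2 1 + c₀ t * x.2 0 + e t := rfl
        rw [h1, Real.norm_eq_abs]
        have h2 : |-l * x.1.1| ≤ |l| * ‖x‖ := by
          rw [abs_mul, abs_neg]
          exact mul_le_mul_of_nonneg_left (hco1 x) (abs_nonneg _)
        have h3 : |c₁ t * x.2 1| ≤ K * ‖x‖ := by
          rw [abs_mul]
          exact mul_le_mul (hc₁.bd t ht) (hco x _) (abs_nonneg _) hK
        have h4 : |c₀ t * x.2 0| ≤ K * ‖x‖ := by
          rw [abs_mul]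
          exact mul_le_mul (hc₀.bd t ht) (hco x _) (abs_nonneg _) hK
        have h5 := he.bd t ht
        have h6 := abs_add_le (-l * x.1.1 + c₁ t * x.2 1 + c₀ t * x.2 0) (e t)
        have h7 := abs_add_le (-l * x.1.1 + c₁ t * x.2 1) (c₀ t * x.2 0)
        have h8 := abs_add_le (-l * x.1.1) (c₁ t * x.2 1)
        have h9 := mul_nonneg hK hn
        nlinarith
      have k2 : ‖(F t x).2‖ ≤ K * (2 * K + K) * (1 + ‖x‖) := by
        rw [BoundedContinuousFunction.norm_le (mul_nonneg a2 hn1)]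
        intro i
        rw [hFi t ht, Real.norm_eq_abs]
        refine (hgb t ht x i).trans ?_
        have h9 := mul_nonneg (mul_nonneg hK hK) hn
        have h10 := mul_nonneg hK hK
        nlinarith
      rw [norm_prod_le_iff, norm_prod_le_iff]
      have k3 := mul_nonneg a1 hn1
      have k4 := mul_nonneg a2 hn1
      have k5 : K ≤ (|l| + 3 * K) * (1 + ‖x‖) := by
        have h1 := mul_nonneg a1 hn
        nlinarith
      refine ⟨⟨?_, ?_⟩, ?_⟩
      · linarith
      · linarith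
      · linarith) 0
  refine ⟨fun t => (x t).1.1, fun t => (x t).1.2, fun i t => (x t).2 i, ?_, ?_, ?_, ?_, ?_, ?_, ?_⟩
  · show (x 0).1.1 = 0
    rw [hx0]
    rfl
  · show (x 0).1.2 = 0
    rw [hx0]
    rfl
  · intro i
    show (x 0).2 i = 0
    rw [hx0]
    rfl
  · intro t ht
    exact ((ContinuousLinearMap.fst ℝ ℝ ℝ).comp (ContinuousLinearMap.fst ℝ (ℝ × ℝ)
      (BoundedContinuousFunction ℕ ℝ))).hasFDerivAt.comp_hasDerivWithinAt t (hx t ht)
  · intro t ht
    exact ((ContinuousLinearMap.snd ℝ ℝ ℝ).comp (ContinuousLinearMap.fst ℝ (ℝ × ℝ)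
      (BoundedContinuousFunction ℕ ℝ))).hasFDerivAt.comp_hasDerivWithinAt t (hx t ht)
  · intro i t ht
    have h1 := ((BoundedContinuousFunction.evalCLM ℝ i).comp
      (ContinuousLinearMap.snd ℝ (ℝ × ℝ) (BoundedContinuousFunction ℕ ℝ))).hasFDerivAt.comp_hasDerivWithinAt
      t (hx t ht)
    have h2 : ((BoundedContinuousFunction.evalCLM ℝ i).comp
      (ContinuousLinearMap.snd ℝ (ℝ × ℝ) (BoundedContinuousFunction ℕ ℝ))) (F t (x t)) =
        g t (x t) i := hFi t ht (x t) i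
    rw [h2] at h1
    exact h1
  · have hcont : ContinuousOn x (Icc (0 : ℝ) 1) := fun t ht => (hx t ht).continuousWithinAt
    obtain ⟨C, hC⟩ := isCompact_Icc.exists_bound_of_continuousOn hcont
    exact ⟨C, fun i t ht => (hco (x t) i).trans (hC t ht)⟩

/-! ### The truncation -/

theorem cl_nonneg (β x : ℝ) : 0 ≤ cl β x := le_max_left _ _

theorem cl_le {β : ℝ} (hβ : 0 ≤ β) (x : ℝ) : cl β x ≤ β := max_le hβ (min_le_right _ _)

theorem cl_lip (β x y : ℝ) : |cl β x - cl β y| ≤ |x - y| := by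
  unfold cl
  refine (abs_max_sub_max_le_max 0 (min x β) 0 (min y β)).trans (max_le (by simp) ?_)
  exact (abs_min_sub_min_le_max x β y β).trans (max_le le_rfl (by simp))

theorem cut_nonneg (J : ℝ) : 0 ≤ cut J := cl_nonneg _ _

theorem cut_le (J : ℝ) : cut J ≤ 1 := cl_le zero_le_one _

theorem cl_lip' (β x y : ℝ) : |cl β x - cl β y| ≤ |x - y| := cl_lip β x y

theorem cut_lip (x y : ℝ) : |cut x - cut y| ≤ 20 * |x - y| := by
  unfold cut
  refine (cl_lip 1 (2 - 20 * x) (2 - 20 * y)).trans ?_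
  have h1 : 2 - 20 * x - (2 - 20 * y) = -20 * (x - y) := by ring
  rw [h1, abs_mul]
  norm_num

/-- the angular velocity -/
noncomputable def ww (k β : ℝ) (p : ℝ × ℝ) : ℝ := k * cl β p.1 * cut p.2

theorem ww_nonneg {k β : ℝ} (hk : 0 ≤ k) (p : ℝ × ℝ) : 0 ≤ ww k β p :=
  mul_nonneg (mul_nonneg hk (cl_nonneg _ _)) (cut_nonneg _)

theorem ww_le {k β : ℝ} (hk : 0 ≤ k) (hβ : 0 ≤ β) (p : ℝ × ℝ) : ww k β p ≤ k * β := by
  have h1 : k * cl β p.1 ≤ k * β := mul_le_mul_of_nonneg_left (cl_le hβ _) hk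
  have h2 : k * cl β p.1 * cut p.2 ≤ k * β * 1 :=
    mul_le_mul h1 (cut_le _) (cut_nonneg _) (mul_nonneg hk hβ)
  unfold ww
  linarith

theorem ww_lip {k β : ℝ} (hk : 0 ≤ k) (hβ : 0 ≤ β) (p q : ℝ × ℝ) :
    |ww k β p - ww k β q| ≤ (k + 20 * (k * β)) * ‖p - q‖ := by
  have e1 : |p.1 - q.1| ≤ ‖p - q‖ := norm_fst_le (p - q)
  have e2 : |p.2 - q.2| ≤ ‖p - q‖ := norm_snd_le (p - q)
  have h1 : ww k β p - ww k β q = k * (cl β p.1 - cl β q.1) * cut p.2 +
      k * cl β q.1 * (cut p.2 - cut q.2) := by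
    unfold ww
    ring
  have h2 : |k * (cl β p.1 - cl β q.1) * cut p.2| ≤ k * ‖p - q‖ := by
    rw [abs_mul, abs_mul, abs_of_nonneg hk, abs_of_nonneg (cut_nonneg _)]
    have h3 := mul_le_mul_of_nonneg_left ((cl_lip β p.1 q.1).trans e1) hk
    have h4 := mul_le_mul h3 (cut_le p.2) (cut_nonneg _) (mul_nonneg hk (norm_nonneg _))
    linarith
  have h3 : |k * cl β q.1 * (cut p.2 - cut q.2)| ≤ 20 * (k * β) * ‖p - q‖ := by
    rw [abs_mul, abs_mul, abs_of_nonneg hk, abs_of_nonneg (cl_nonneg _ _)]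
    have h4 : k * cl β q.1 ≤ k * β := mul_le_mul_of_nonneg_left (cl_le hβ _) hk
    have h5 : |cut p.2 - cut q.2| ≤ 20 * ‖p - q‖ :=
      (cut_lip _ _).trans (mul_le_mul_of_nonneg_left e2 (by norm_num))
    have h6 := mul_le_mul h4 h5 (abs_nonneg _) (mul_nonneg hk hβ)
    linarith
  rw [h1]
  refine (abs_add_le _ _).trans ?_
  linarith

/-- the coefficients -/
noncomputable def pp (i : ℕ) : ℝ := if i = 0 then 0 else if i = 1 then 4 else 2 * (-1) ^ (i + 1)

theorem pp_le (i : ℕ) : |pp i| ≤ 4 := by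
  unfold pp
  split_ifs
  · simp
  · simp
  · rw [abs_mul, abs_pow, abs_neg, abs_one, one_pow]
    norm_num

/-- **S_BEX** -/
theorem bex' (hODE : S_ODE) : S_BEX := by
  intro k β l c ε M LB μ B hk hβ hμ hM hB
  have hM0 : 0 ≤ M := by linarith [hμ 0, hM 0]
  have ha : ∀ i : ℕ, |μ i - μ (i - 1)| ≤ M := by
    intro i
    rcases i with _ | i
    · simpa using hM0
    · rw [Nat.add_sub_cancel, abs_of_nonneg (by linarith [hμ i])]
      exact hM i
  have hb : ∀ i : ℕ, |μ i - μ (i + 1)| ≤ M := by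
    intro i
    rw [abs_sub_comm, abs_of_nonneg (by linarith [hμ i])]
    exact hM i
  -- the constants
  set KM : ℝ := (1 + M) * Real.exp M with hKM
  set K0 : ℝ := (1 + |μ 0|) * Real.exp |μ 0| with hK0
  set K1 : ℝ := (1 + |μ 1|) * Real.exp |μ 1| with hK1
  set KB : ℝ := |B 0| + |LB| with hKB
  have nKM : 0 ≤ KM := by positivity
  have nK0 : 0 ≤ K0 := by positivity
  have nK1 : 0 ≤ K1 := by positivity
  have nKB : 0 ≤ KB := by positivity
  have hBB : BL KB B := by
    refine ⟨fun t ht => ?_, fun s hs t ht => ?_⟩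
    · have h1 := hB t ht 0 ⟨le_rfl, zero_le_one⟩
      rw [sub_zero, abs_of_nonneg ht.1] at h1
      have h2 : LB * t ≤ |LB| * 1 :=
        mul_le_mul (le_abs_self _) ht.2 ht.1 (abs_nonneg _)
      have h3 := abs_add_le (B t - B 0) (B 0)
      rw [sub_add_cancel] at h3
      linarith
    · refine (hB s hs t ht).trans (mul_le_mul_of_nonneg_right ?_ (abs_nonneg _))
      have := le_abs_self LB
      have := abs_nonneg (B 0)
      linarith
  set K : ℝ := 4 * KM + |(4 : ℝ)| * (2 * (K1 * KB)) + |c / 4| * K1 + |ε| * K0 + |ε| * KB +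
    20 * (k * β) + k with hK
  have n1 : 0 ≤ |(4 : ℝ)| * (2 * (K1 * KB)) := by positivity
  have n2 : 0 ≤ |c / 4| * K1 := by positivity
  have n3 : 0 ≤ |ε| * K0 := by positivity
  have n4 : 0 ≤ |ε| * KB := by positivity
  have n5 : 0 ≤ k * β := mul_nonneg hk hβ
  have nK : 0 ≤ K := by positivity
  obtain ⟨b, J, γ, hb0, hJ0, hγ0, hdb, hdJ, hdγ, C, hC⟩ := system hODE (K := K) l
    (fun t => ε * Real.exp (-μ 0 * t)) (fun t => c / 4 * Real.exp (-μ 1 * t)) (fun t => ε * B t)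
    (fun i t => pp i * Real.exp ((μ i - μ (i - 1)) * t))
    (fun i t => (-1) ^ (i + 1) / 8 * Real.exp ((μ i - μ (i + 1)) * t))
    (fun i t => (if i = 1 then 4 else 0) * (Real.exp (μ 1 * t) * B t)) (ww k β)
    (((BL.exp (M := |μ 0|) (by rw [abs_neg])).const_mul ε).mono (by linarith))
    (((BL.exp (M := |μ 1|) (by rw [abs_neg])).const_mul (c / 4)).mono (by linarith))
    ((hBB.const_mul ε).mono (by linarith))
    (fun i => ((BL.exp (ha i)).const_mul (pp i)).mono (by
      have h1 := mul_le_mul_of_nonneg_right (pp_le i) nKM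
      linarith))
    (fun i => ((BL.exp (hb i)).const_mul ((-1) ^ (i + 1) / 8)).mono (by
      have h0 : |(-1 : ℝ) ^ (i + 1) / 8| ≤ 4 := by
        rw [abs_div, abs_pow, abs_neg, abs_one, one_pow]
        norm_num
      have h1 := mul_le_mul_of_nonneg_right h0 nKM
      linarith))
    (fun i => (((BL.exp (M := |μ 1|) le_rfl).mul hBB).const_mul _).mono (by
      have h0 : |(if i = 1 then 4 else 0 : ℝ)| ≤ |(4 : ℝ)| := by
        split_ifs
        · exact le_rfl
        · simp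
      have h1 := mul_le_mul_of_nonneg_right h0 (by positivity : 0 ≤ 2 * (K1 * KB))
      linarith))
    (fun x => by
      rw [abs_of_nonneg (ww_nonneg hk x)]
      have h1 := ww_le hk hβ x
      linarith)
    (fun x y => (ww_lip hk hβ x y).trans
      (mul_le_mul_of_nonneg_right (by linarith) (norm_nonneg _)))
  set w : ℝ → ℝ := fun t => ww k β (b t, J t) with hwdef
  -- the derivatives
  have hexp : ∀ (i j : ℕ) (t : ℝ), Real.exp (-μ i * t) * Real.exp ((μ i - μ j) * t) =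
      Real.exp (-μ j * t) := by
    intro i j t
    rw [← Real.exp_add]
    congr 1
    ring
  have hder : ∀ i, ∀ t ∈ Icc (0 : ℝ) 1, HasDerivWithinAt
      (fun t => Real.exp (-μ i * t) * (1 / 4) ^ i * γ i t)
      (-μ i * (Real.exp (-μ i * t) * (1 / 4) ^ i * γ i t) + Real.exp (-μ i * t) * (1 / 4) ^ i *
        (w t * (pp i * Real.exp ((μ i - μ (i - 1)) * t) * γ (i - 1) t +
          (-1) ^ (i + 1) / 8 * Real.exp ((μ i - μ (i + 1)) * t) * γ (i + 1) t +
          (if i = 1 then 4 else 0) * (Real.exp (μ 1 * t) * B t)))) (Icc 0 1) t := by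
    intro i t ht
    have h1 : HasDerivWithinAt (fun t : ℝ => Real.exp (-μ i * t)) (Real.exp (-μ i * t) * (-μ i))
        (Icc 0 1) t := by
      have h2 : HasDerivAt (fun t : ℝ => -μ i * t) (-μ i) t := by
        simpa using (hasDerivAt_id t).const_mul (-μ i)
      exact (h2.exp).hasDerivWithinAt
    have h3 := (h1.mul_const ((1 / 4 : ℝ) ^ i)).mul (hdγ i t ht)
    refine h3.congr_deriv ?_
    ring
  refine ⟨b, w, J, fun i t => Real.exp (-μ i * t) * (1 / 4) ^ i * γ i t,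
    ⟨hb0, ?_, ?_, ?_, ?_, ?_, ?_⟩, ⟨hJ0, hdJ, fun t _ => rfl⟩⟩
  · intro i
    show Real.exp (-μ i * 0) * (1 / 4) ^ i * γ i 0 = 0
    rw [hγ0, mul_zero]
  · intro t ht
    refine (hdb t ht).congr_deriv ?_
    ring
  · intro t ht
    refine (hder 0 t ht).congr_deriv ?_
    have e1 := hexp 0 1 t
    simp only [pp, if_true, if_false, zero_ne_one, pow_zero, zero_add, pow_one, mul_one, zero_mul,
      add_zero]
    linear_combination (-(w t) / 8 * γ 1 t) * e1
  · intro t ht
    refine (hder 1 t ht).congr_deriv ?_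
    have e0 := hexp 1 0 t
    have e2 := hexp 1 2 t
    have e3 : Real.exp (-μ 1 * t) * Real.exp (μ 1 * t) = 1 := by
      rw [← Real.exp_add]
      simp
    simp only [pp, one_ne_zero, if_true, if_false, Nat.sub_self, pow_zero, pow_one, mul_one,
      Nat.reduceAdd]
    linear_combination (w t * γ 0 t) * e0 + (w t / 32 * γ 2 t) * e2 +
      (w t * B t) * e3
  · intro i hi t ht
    obtain ⟨j, rfl⟩ := Nat.exists_eq_add_of_le' hi
    refine (hder (j + 2) t ht).congr_deriv ?_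
    have e0 := hexp (j + 2) (j + 1) t
    have e2 := hexp (j + 2) (j + 3) t
    have f0 : j + 2 - 1 = j + 1 := by omega
    have f1 : ¬ (j + 2 = 0) := by omega
    have f2 : ¬ (j + 2 = 1) := by omega
    simp only [pp, f0, f1, f2, if_false]
    rw [show j + 2 + 1 = j + 3 by omega]
    rw [zero_mul, add_zero]
    linear_combination (w t * (1 / 4) ^ (j + 2) * 2 * (-1) ^ (j + 3) * γ (j + 1) t) * e0 +
      (w t * (1 / 4) ^ (j + 2) * (-1) ^ (j + 3) / 8 * γ (j + 3) t) * e2
  · refine ⟨Real.exp |μ 0| * C, fun i t ht => ?_⟩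
    have hmono : μ 0 ≤ μ i := monotone_nat_of_le_succ hμ (Nat.zero_le i)
    have h1 : Real.exp (-μ i * t) ≤ Real.exp |μ 0| := by
      apply Real.exp_le_exp.2
      have h2 : -μ i * t ≤ -μ 0 * t := mul_le_mul_of_nonneg_right (by linarith) ht.1
      have h3 : -μ 0 * t ≤ |μ 0| * 1 :=
        mul_le_mul (neg_le_abs _) ht.2 ht.1 (abs_nonneg _)
      linarith
    have h2 : (4 : ℝ) ^ i * |Real.exp (-μ i * t) * (1 / 4) ^ i * γ i t| =
        Real.exp (-μ i * t) * |γ i t| := by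
      rw [abs_mul, abs_mul, abs_of_pos (Real.exp_pos _), abs_of_pos (by positivity)]
      have h3 : (4 : ℝ) ^ i * (1 / 4) ^ i = 1 := by
        rw [← mul_pow]
        norm_num
      linear_combination (Real.exp (-μ i * t) * |γ i t|) * h3
    rw [h2]
    exact mul_le_mul h1 (hC i t ht) (abs_nonneg _) (Real.exp_pos _).le

/-- **S_BEX** -/
theorem bex : S_BEX := bex' Pool.Agent.H306.HD.TODE.ode

end Pool.Agent.H306.HE.TBEX
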