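import Pool.Agent.H306.HE.Stm
import Pool.Agent.H306.HD.TCHAIN

/-! The maximal time of the chain (HE, `S_CH`; adapted from HD `TCHAIN`, helper289). -/

noncomputable section

namespace Pool.Agent.H306.HE.TCH

open Set MeasureTheory

open scoped Real ContDiff ENNReal

open Pool.Agent.H306.CK Pool.Agent.H306.DS Pool.Agent.H306.HD Pool.Agent.H306.HE
open Pool.Agent.H306.HD.TCHAIN (cl_eq mu_nonneg eb_nonneg AA gg gg_zero gg_succ pre_succ)

theorem w_eq {P : Prm} {θ : ℕ → ℝ} {b w J : ℕ → ℝ → ℝ} {a : ℕ → ℕ → ℝ → ℝ}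
    (hB : BSeq P θ b w J a) (m : ℕ) (t : ℝ) (ht : t ∈ Icc (0 : ℝ) 1) (hb : b m t ≤ 2 * θ (m + 1))
    (hJ : J m t ≤ 1 / 20) : w m t = P.K m * b m t := by
  rw [(hB.rel m).w_eq t ht, cl_eq ((hB.bds m t ht).2.1) hb]
  have h1 : cut (J m t) = 1 := by
    unfold cut cl
    rw [min_eq_right (by linarith), max_eq_right zero_le_one]
  rw [h1, mul_one]

theorem dBB (P : Prm) (θ : ℕ → ℝ) (b w J : ℕ → ℝ → ℝ) (a : ℕ → ℕ → ℝ → ℝ)
    (hB : BSeq P θ b w J a)
    (m : ℕ) (t : ℝ) (ht : t ∈ Icc (0 : ℝ) 1) : HasDerivWithinAt (BB P (θ 0) b m)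
      (-mu P m 0 * BB P (θ 0) b m t + pre P (fun m j => gg P (θ 0) b a m j t) m 0) (Icc 0 1) t := by
  cases m with
  | zero =>
    have h1 : HasDerivAt (fun t : ℝ => θ 0 * Real.exp (-mu P 0 0 * t))
        (θ 0 * (Real.exp (-mu P 0 0 * t) * (-mu P 0 0 * 1))) t :=
      (((hasDerivAt_id t).const_mul (-mu P 0 0)).exp).const_mul (θ 0)
    have h2 : pre P (fun m j => gg P (θ 0) b a m j t) 0 0 = 0 := rfl
    rw [h2]
    have h3 : BB P (θ 0) b 0 = fun t : ℝ => θ 0 * Real.exp (-mu P 0 0 * t) := rfl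
    rw [h3]
    have h4 : θ 0 * (Real.exp (-mu P 0 0 * t) * (-mu P 0 0 * 1)) =
        -mu P 0 0 * (fun t : ℝ => θ 0 * Real.exp (-mu P 0 0 * t)) t + 0 := by ring
    rw [← h4]
    exact h1.hasDerivWithinAt
  | succ m =>
    have h1 := (hB.sol m).db t ht
    have h2 : pre P (fun m j => gg P (θ 0) b a m j t) (m + 1) 0 =
        P.c m * gg P (θ 0) b a m 1 t + P.ε m * gg P (θ 0) b a m 0 t := rfl
    have h3 : BB P (θ 0) b (m + 1) = b m := rfl
    rw [h2, h3, gg_succ, gg_zero]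
    have h4 : -mu P (m + 1) 0 * b m t + (P.c m * a m (0 + 1) t + P.ε m * (BB P (θ 0) b m t + a m 0 t)) =
        -mu P (m + 1) 0 * b m t + P.c m * a m 1 t + P.ε m * (BB P (θ 0) b m t + a m 0 t) := by
      ring
    rw [h4]
    exact h1

theorem dgg (P : Prm) (θ : ℕ → ℝ) (b w J : ℕ → ℝ → ℝ) (a : ℕ → ℕ → ℝ → ℝ)
    (hB : BSeq P θ b w J a)
    (m i : ℕ) (t : ℝ) (ht : t ∈ Icc (0 : ℝ) 1) (hb : b m t ≤ 2 * θ (m + 1))
    (hJ : J m t ≤ 1 / 20) :
    HasDerivWithinAt (gg P (θ 0) b a m i)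
      (-mu P m i * gg P (θ 0) b a m i t -
        nl P (fun m => b m t) (fun m j => gg P (θ 0) b a m j t) m i +
        pre P (fun m j => gg P (θ 0) b a m j t) m i) (Icc 0 1) t := by
  have hcl : w m t = P.K m * b m t := w_eq hB m t ht hb hJ
  match i with
  | 0 =>
    have h1 := (dBB P θ b w J a hB m t ht).add ((hB.sol m).dα0 t ht)
    have h2 : gg P (θ 0) b a m 0 = BB P (θ 0) b m + a m 0 := by
      funext s
      exact gg_zero P (θ 0) b a m s
    have h3 : nl P (fun m => b m t) (fun m j => gg P (θ 0) b a m j t) m 0 =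
        P.K m * b m t / 2 * gg P (θ 0) b a m 1 t := rfl
    rw [h3, h2, gg_succ]
    rw [hcl] at h1
    refine h1.congr_deriv ?_
    simp only [Pi.add_apply]
    ring
  | 1 =>
    have h1 := (hB.sol m).dα1 t ht
    have h2 : gg P (θ 0) b a m 1 = a m 1 := by
      funext s
      exact gg_succ P (θ 0) b a m 0 s
    have h3 : nl P (fun m => b m t) (fun m j => gg P (θ 0) b a m j t) m 1 =
        -(P.K m * b m t * (gg P (θ 0) b a m 0 t + gg P (θ 0) b a m 2 t / 2)) := rfl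
    rw [h3, h2, gg_zero, gg_succ, pre_succ]
    rw [hcl] at h1
    refine h1.congr_deriv ?_
    ring
  | j + 2 =>
    have h1 := (hB.sol m).dα (j + 2) (by omega) t ht
    have h2 : gg P (θ 0) b a m (j + 2) = a m (j + 2) := by
      funext s
      exact gg_succ P (θ 0) b a m (j + 1) s
    have h3 : nl P (fun m => b m t) (fun m j => gg P (θ 0) b a m j t) m (j + 2) =
        (-1) ^ j * (P.K m * b m t / 2) *
          (gg P (θ 0) b a m (j + 1) t + gg P (θ 0) b a m (j + 3) t) := rfl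
    have h4 : j + 2 - 1 = j + 1 := by omega
    rw [h3, h2, gg_succ, gg_succ, pre_succ]
    rw [hcl, h4] at h1
    refine h1.congr_deriv ?_
    have h5 : (-1 : ℝ) ^ (j + 2 + 1) = -(-1) ^ j := by
      rw [pow_succ, pow_add]; norm_num
    rw [h5]
    ring

theorem ch : S_CH := by
  intro hOpen hGrow hWin hStage hE1 hE2 P θ τ W lm tn b w J a hP hC hB
  obtain ⟨hO1, hO2⟩ := hOpen hGrow P θ τ W lm tn b w J a hP hC hB
  obtain ⟨s, hs0, hs1, hs2, hs3, hs4⟩ := hWin hStage hE1 hE2 P θ τ W lm tn b w J a hP hC hB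
  have hmono : ∀ m k, s (m + k) + W (m + k) ≤ s m + W m := by
    intro m k
    induction k with
    | zero => exact le_refl _
    | succ k ih => exact (hs2 (m + k)).trans ih
  -- good times are before the end of each window
  have hA : ∀ t ∈ AA P b, ∀ m, t < s m + W m := by
    rintro t ⟨ht0, ht1, R, hR⟩ m
    by_contra hc
    have hc' : s m + W m ≤ t := not_lt.mp hc
    obtain ⟨m₀, hm₀⟩ := hC.seed R
    have h1 := hmono m m₀
    have h2 := hm₀ (m + m₀) (Nat.le_add_left _ _)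
    have h3 := hs3 (m + m₀)
    have h4 : s (m + m₀) ≤ t := by
      have := hC.W_nonneg (m + m₀)
      linarith
    have h5 := hR (m + m₀) (s (m + m₀)) ⟨hs0 _, h4⟩
    linarith
  have hbd : BddAbove (AA P b) := ⟨1, fun t ht => ht.2.1⟩
  have h0A : (0 : ℝ) ∈ AA P b := by
    refine ⟨le_refl _, zero_le_one, 0, ?_⟩
    intro m u hu
    have hu0 : u = 0 := le_antisymm hu.2 hu.1
    rw [hu0, (hB.sol m).b0, zero_mul]
  have hne : (AA P b).Nonempty := ⟨0, h0A⟩
  obtain ⟨T, hT⟩ : ∃ T, T = sSup (AA P b) := ⟨_, rfl⟩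
  have hTpos : 0 < T := by
    obtain ⟨δ, hδ0, hδ1, R, hR⟩ := hO1 0 (le_refl _) one_pos h0A.2.2
    have h1 : (0 : ℝ) + δ ∈ AA P b := ⟨by linarith, hδ1, R, hR⟩
    have h2 := le_csSup hbd h1
    rw [← hT] at h2
    linarith
  have hTle : T ≤ τ 0 + W 0 := by
    rw [hT]
    refine csSup_le hne ?_
    intro t ht
    exact (hA t ht 0).le.trans (hs1 0)
  have hThalf : T ≤ 1 / 2 := hTle.trans hC.total
  have hlow : ∀ t, 0 ≤ t → t < T → t ∈ AA P b := by
    intro t ht0 ht1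
    rw [hT] at ht1
    obtain ⟨t', ht', htt⟩ := exists_lt_of_lt_csSup hne ht1
    obtain ⟨h1, h2, R, hR⟩ := ht'
    exact ⟨ht0, htt.le.trans h2, R, fun m u hu => hR m u ⟨hu.1, hu.2.trans htt.le⟩⟩
  have hsub : Ico 0 T ⊆ Icc (0 : ℝ) 1 := fun t ht => ⟨ht.1, by have := ht.2; linarith⟩
  have hb2 : ∀ t ∈ Ico 0 T, ∀ m, b m t ≤ 2 * θ (m + 1) ∧ J m t ≤ 1 / 20 := by
    intro t ht m
    exact hs4 m t ⟨ht.1, (hA t (hlow t ht.1 ht.2) m).le⟩
  refine ⟨T, hTpos, hTle, ?_⟩
  change ChSol P (θ 0) T b (gg P (θ 0) b a)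
  refine ⟨fun m => (hB.sol m).b0, ?_, ?_, ?_, ?_, ?_, ?_⟩
  · intro m j
    cases j with
    | zero =>
      rw [gg_zero, (hB.sol m).α0 0, add_zero]
      cases m with
      | zero =>
        have h1 : BB P (θ 0) b 0 0 = θ 0 * Real.exp (-mu P 0 0 * 0) := rfl
        rw [h1, mul_zero, Real.exp_zero, mul_one, if_pos ⟨rfl, rfl⟩]
      | succ m =>
        have h1 : BB P (θ 0) b (m + 1) 0 = b m 0 := rfl
        rw [h1, (hB.sol m).b0, if_neg (fun h => Nat.succ_ne_zero m h.1)]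
    | succ j =>
      rw [gg_succ, (hB.sol m).α0 (j + 1), if_neg (fun h => Nat.succ_ne_zero j h.2)]
  · intro m t ht
    have h1 := ((hB.sol m).db t (hsub ht)).mono hsub
    rw [gg_succ, gg_zero]
    exact h1
  · intro m i t ht
    exact (dgg P θ b w J a hB m i t (hsub ht) (hb2 t ht m).1 (hb2 t ht m).2).mono hsub
  · intro m t ht
    exact (hB.bds m t (hsub ht)).2.1
  · intro t ht
    obtain ⟨-, -, R, hR⟩ := hlow t ht.1 ht.2
    have hθ0 := (hC.θ_pos 0).le
    have hR0 := abs_nonneg R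
    have hRle := le_abs_self R
    refine ⟨2 * (|R| + θ 0), by positivity, ?_⟩
    intro u hu m
    have hu1 : u ∈ Icc (0 : ℝ) 1 := hsub ⟨hu.1, lt_of_le_of_lt hu.2 ht.2⟩
    have hbu : ∀ m, b m u ≤ |R| * P.ε m := fun m =>
      (hR m u hu).trans (mul_le_mul_of_nonneg_right hRle (hC.ε_pos m).le)
    have heb := eb_nonneg P hC.ε_pos m
    have hBB : BB P (θ 0) b m u ≤ (|R| + θ 0) * eb P m := by
      cases m with
      | zero =>
        have h1 : BB P (θ 0) b 0 u = θ 0 * Real.exp (-mu P 0 0 * u) := rfl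
        have h2 : eb P 0 = 1 := rfl
        rw [h1, h2, mul_one]
        have h3 : Real.exp (-mu P 0 0 * u) ≤ 1 := by
          rw [Real.exp_le_one_iff]
          have := mul_nonneg (mu_nonneg P hP 0 0) hu.1
          linarith
        have h4 : θ 0 * Real.exp (-mu P 0 0 * u) ≤ θ 0 * 1 := mul_le_mul_of_nonneg_left h3 hθ0
        linarith
      | succ m =>
        have h1 : BB P (θ 0) b (m + 1) u = b m u := rfl
        have h2 : eb P (m + 1) = P.ε m := rfl
        rw [h1, h2]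
        have h3 := hbu m
        have h4 := mul_nonneg hθ0 (hC.ε_pos m).le
        linarith
    obtain ⟨hc1, hc2, hc3, hc4, -, -, hc5, hc6⟩ := hB.bds m u hu1
    refine ⟨?_, ?_⟩
    · rw [abs_of_nonneg hc2]
      have h1 := hbu m
      have h2 := mul_nonneg hR0 (hC.ε_pos m).le
      have h3 := mul_nonneg hθ0 (hC.ε_pos m).le
      linarith
    · intro i
      cases i with
      | zero =>
        rw [gg_zero, pow_zero, one_mul]
        have h1 := abs_add_le (BB P (θ 0) b m u) (a m 0 u)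
        rw [abs_of_nonneg hc1] at h1
        linarith
      | succ i =>
        rw [gg_succ]
        have h1 := hc6 (i + 1) (by omega)
        have h2 : (0 : ℝ) ≤ (1 / 4) ^ (i + 1) := by positivity
        have h3 := mul_le_mul_of_nonneg_left hBB h2
        have h4 : 0 ≤ (1 / 4 : ℝ) ^ (i + 1) * ((|R| + θ 0) * eb P m) := by positivity
        linarith
  · intro M
    by_contra hc
    push Not at hc
    obtain ⟨R, hR⟩ := hO2 T hTpos (by linarith) ⟨M, fun m u hu => hc u hu m⟩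
    obtain ⟨δ, hδ0, hδ1, R', hR'⟩ := hO1 T hTpos.le (by linarith) ⟨R, hR⟩
    have h1 : T + δ ∈ AA P b := ⟨by linarith, hδ1, R', hR'⟩
    have h2 := le_csSup hbd h1
    rw [← hT] at h2
    linarith

end Pool.Agent.H306.HE.TCH
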