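import Pool.Agent.H306.HE.Stm
import Pool.Agent.H306.HD.TGROW

set_option autoImplicit false

/-! Growth of one band (helper75, for helper306). -/

namespace Pool.Agent.H306.HE.TE1

open Set Pool.Agent.H306.HD
open Pool.Agent.H306.HD.TGROW (mono_le hasDeriv_exp_mul hasDeriv_lin)

theorem mono_le' {f f' : ℝ → ℝ} {T : ℝ}
    (hf : ∀ t ∈ Icc (0 : ℝ) T, HasDerivWithinAt f (f' t) (Icc 0 T) t) {q : ℝ}
    (h0q : 0 ≤ q) (hq : q ≤ T) (h : ∀ t ∈ Icc 0 q, 0 ≤ f' t) : f 0 ≤ f q := by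
  have hsub : Icc 0 q ⊆ Icc (0 : ℝ) T := Icc_subset_Icc le_rfl hq
  have hm : MonotoneOn f (Icc 0 q) := by
    refine monotoneOn_of_hasDerivWithinAt_nonneg (convex_Icc 0 q) (f' := f') ?_ ?_ ?_
    · intro t ht
      exact (hf t (hsub ht)).continuousWithinAt.mono hsub
    · intro t ht
      have h1 := interior_subset ht
      exact (hf t (hsub h1)).mono (interior_subset.trans hsub)
    · intro t ht
      exact h t (interior_subset ht)
  exact hm (left_mem_Icc.mpr h0q) (right_mem_Icc.mpr h0q) h0q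

theorem e1 : S_E1 := by
  intro k l c ε Bm t₁ μ B b w r r' E α hk hc hε hl hlμ hBm S hbd ht₁ hup hr hE0 hE
  obtain ⟨hb0, hα0, hdb, hdα0, hdα1, hdα, -⟩ := S
  have hμ1 : 0 ≤ μ 1 := hl.trans hlμ
  have hsub : Icc (0 : ℝ) t₁ ⊆ Icc 0 1 := Icc_subset_Icc le_rfl ht₁.2
  -- step 1
  have h1 : ∀ t ∈ Icc (0 : ℝ) t₁, c * α 1 t ≤ r t * b t := by
    intro t ht
    have hm := mono_le' (f := fun t => Real.exp (E t + μ 1 * t) * (r t * b t - c * α 1 t))
      (f' := fun t => Real.exp (E t + μ 1 * t) * (r t + μ 1) * (r t * b t - c * α 1 t) +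
        Real.exp (E t + μ 1 * t) * ((r' t * b t + r t * (-l * b t + c * α 1 t + ε * (B t + α 0 t))) -
          c * (-μ 1 * α 1 t + w t * (B t + α 0 t + α 2 t / 2))))
      (fun u hu => (((hE u hu).add (hasDeriv_lin (μ 1) u _)).exp).mul
        ((((hr u hu).2.2.1).mul ((hdb u (hsub hu)).mono hsub)).sub
          (((hdα1 u (hsub hu)).mono hsub).const_mul c))) ht.1 ht.2 ?_
    · simp only [mul_zero, hb0, hα0, sub_zero] at hm
      have hEx := Real.exp_pos (E t + μ 1 * t)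
      have := nonneg_of_mul_nonneg_right hm hEx
      linarith
    · intro u hu
      have huW : u ∈ Icc (0 : ℝ) t₁ := ⟨hu.1, hu.2.trans ht.2⟩
      have hu1 : u ∈ Icc (0 : ℝ) 1 := hsub huW
      obtain ⟨g1, g2, g3, g4, gw1, gw2⟩ := hbd u hu1
      obtain ⟨r1, r2, -, r3⟩ := hr u huW
      have a1 := abs_le.mp (le_refl |α 0 u|)
      have a2 := abs_le.mp (le_refl |α 2 u|)
      have g6 : 0 ≤ B u + α 0 u := by linarith [a1.1, abs_nonneg (α 2 u)]
      have g7 : 0 ≤ B u + α 0 u + α 2 u / 2 := by linarith [a1.1, a2.1]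
      have g8 : B u + α 0 u + α 2 u / 2 ≤ 9 / 8 * B u := by linarith [a1.2, a2.2]
      have g9 : w u * (B u + α 0 u + α 2 u / 2) ≤ k * b u * (9 / 8 * B u) :=
        mul_le_mul gw2 g8 g7 (mul_nonneg hk g2)
      have g10 : c * (w u * (B u + α 0 u + α 2 u / 2)) ≤ c * (k * b u * (9 / 8 * B u)) :=
        mul_le_mul_of_nonneg_left g9 hc
      have g11 : 0 ≤ r u * ε * (B u + α 0 u) := mul_nonneg (mul_nonneg r1 hε) g6
      have g12 : 0 ≤ r u * (μ 1 - l) * b u :=
        mul_nonneg (mul_nonneg r1 (by linarith)) g2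
      have g13 : 5 / 4 * (c * k * B u) * b u ≤ r u ^ 2 * b u := mul_le_mul_of_nonneg_right r3 g2
      have g14 : 0 ≤ c * k * B u * b u := mul_nonneg (mul_nonneg (mul_nonneg hc hk) g1) g2
      have g15 : 0 ≤ r' u * b u := mul_nonneg r2 g2
      have hEx := Real.exp_pos (E u + μ 1 * u)
      have key : 0 ≤ (r u + μ 1) * (r u * b u - c * α 1 u) +
          ((r' u * b u + r u * (-l * b u + c * α 1 u + ε * (B u + α 0 u))) -
          c * (-μ 1 * α 1 u + w u * (B u + α 0 u + α 2 u / 2))) := by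
        have e : (r u + μ 1) * (r u * b u - c * α 1 u) +
          ((r' u * b u + r u * (-l * b u + c * α 1 u + ε * (B u + α 0 u))) -
          c * (-μ 1 * α 1 u + w u * (B u + α 0 u + α 2 u / 2))) =
          r u ^ 2 * b u + r' u * b u + r u * (μ 1 - l) * b u + r u * ε * (B u + α 0 u) -
            c * (w u * (B u + α 0 u + α 2 u / 2)) := by ring
        rw [e]
        linarith
      have := mul_nonneg hEx.le key
      linarith
  -- derivative bounds
  have hbder : ∀ t ∈ Icc (0 : ℝ) t₁,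
      -l * b t + c * α 1 t + ε * (B t + α 0 t) ≤ (r t - l) * b t + 9 / 8 * (ε * Bm) := by
    intro t ht
    obtain ⟨g1, g2, g3, g4, gw1, gw2⟩ := hbd t (hsub ht)
    have g5 := hup t ht
    have a1 := abs_le.mp (le_refl |α 0 t|)
    have g6 : B t + α 0 t ≤ 9 / 8 * Bm := by linarith [a1.2, abs_nonneg (α 2 t)]
    have g7 : ε * (B t + α 0 t) ≤ ε * (9 / 8 * Bm) := mul_le_mul_of_nonneg_left g6 hε
    have g9 := h1 t ht
    linarith
  have hεB : 0 ≤ 9 / 8 * (ε * Bm) := by positivity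
  have hEnn : ∀ t ∈ Icc (0 : ℝ) t₁, 0 ≤ E t := by
    intro t ht
    have := mono_le' hE ht.1 ht.2 (fun u hu => (hr u ⟨hu.1, hu.2.trans ht.2⟩).1)
    rwa [hE0] at this
  intro t ht
  refine ⟨h1 t ht, ?_⟩
  have ht1 : t ≤ 1 := ht.2.trans ht₁.2
  have hm := mono_le' (f := fun t => 9 / 8 * (ε * Bm) * t - Real.exp (-E t) * b t)
    (f' := fun t => 9 / 8 * (ε * Bm) - (Real.exp (-E t) * (-r t) * b t +
      Real.exp (-E t) * (-l * b t + c * α 1 t + ε * (B t + α 0 t))))
    (fun u hu => (hasDeriv_lin _ _ _).sub (((hE u hu).neg.exp).mul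
      ((hdb u (hsub hu)).mono hsub))) ht.1 ht.2 ?_
  · simp only [mul_zero, hb0, sub_zero] at hm
    have h2 : Real.exp (-E t) * b t ≤ 9 / 8 * (ε * Bm) := by
      have : 9 / 8 * (ε * Bm) * t ≤ 9 / 8 * (ε * Bm) * 1 := mul_le_mul_of_nonneg_left ht1 hεB
      linarith
    have h3 : b t = Real.exp (E t) * (Real.exp (-E t) * b t) := by
      rw [← mul_assoc, ← Real.exp_add]
      have : E t + -E t = 0 := by ring
      rw [this, Real.exp_zero, one_mul]
    calc b t = Real.exp (E t) * (Real.exp (-E t) * b t) := h3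
      _ ≤ Real.exp (E t) * (9 / 8 * (ε * Bm)) :=
          mul_le_mul_of_nonneg_left h2 (Real.exp_pos _).le
      _ = _ := by ring
  · intro u hu
    have huW : u ∈ Icc (0 : ℝ) t₁ := ⟨hu.1, hu.2.trans ht.2⟩
    have g1 := hbder u huW
    have g2 := (hbd u (hsub huW)).2.1
    have hEx0 := Real.exp_pos (-E u)
    have hE1 : Real.exp (-E u) ≤ 1 := by
      rw [Real.exp_le_one_iff]
      have := hEnn u huW
      linarith
    have g3 : Real.exp (-E u) * (-l * b u + c * α 1 u + ε * (B u + α 0 u)) ≤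
        Real.exp (-E u) * ((r u - l) * b u + 9 / 8 * (ε * Bm)) :=
      mul_le_mul_of_nonneg_left g1 hEx0.le
    have g4 : Real.exp (-E u) * (9 / 8 * (ε * Bm)) ≤ 1 * (9 / 8 * (ε * Bm)) :=
      mul_le_mul_of_nonneg_right hE1 hεB
    have g5 : 0 ≤ Real.exp (-E u) * (l * b u) := mul_nonneg hEx0.le (mul_nonneg hl g2)
    have e : Real.exp (-E u) * ((r u - l) * b u + 9 / 8 * (ε * Bm)) =
        Real.exp (-E u) * r u * b u - Real.exp (-E u) * (l * b u) +
          Real.exp (-E u) * (9 / 8 * (ε * Bm)) := by ring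
    have e2 : Real.exp (-E u) * (-r u) * b u = -(Real.exp (-E u) * r u * b u) := by ring
    show 0 ≤ 9 / 8 * (ε * Bm) - (Real.exp (-E u) * (-r u) * b u +
      Real.exp (-E u) * (-l * b u + c * α 1 u + ε * (B u + α 0 u)))
    rw [e2]
    linarith

theorem g : S_G := by
  intro k l c ε r Bm t₁ μ B b w α hk hc hε hl hlμ hr hBm hcond S hbd ht₁ hup
  obtain ⟨hb0, hα0, hdb, hdα0, hdα1, hdα, -⟩ := S
  have hμ1 : 0 ≤ μ 1 := hl.trans hlμ
  have hckB : 0 ≤ c * k * Bm := by positivity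
  -- step 1
  have h1 : ∀ t ∈ Icc (0 : ℝ) t₁, c * α 1 t ≤ r * b t := by
    intro t ht
    have ht1 : t ≤ 1 := ht.2.trans ht₁.2
    have hm := mono_le (f := fun t => Real.exp ((r + μ 1) * t) * (r * b t - c * α 1 t))
      (f' := fun t => Real.exp ((r + μ 1) * t) * (r + μ 1) * (r * b t - c * α 1 t) +
        Real.exp ((r + μ 1) * t) * (r * (-l * b t + c * α 1 t + ε * (B t + α 0 t)) -
          c * (-μ 1 * α 1 t + w t * (B t + α 0 t + α 2 t / 2))))
      (fun u hu => (hasDeriv_exp_mul _ _ _).mul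
        (((hdb u hu).const_mul r).sub ((hdα1 u hu).const_mul c))) le_rfl ht.1 ht1 ?_
    · simp only [mul_zero, Real.exp_zero, hb0, hα0, sub_zero] at hm
      have hE := Real.exp_pos ((r + μ 1) * t)
      have := nonneg_of_mul_nonneg_right hm hE
      linarith
    · intro u hu
      have hu1 : u ∈ Icc (0 : ℝ) 1 := ⟨hu.1, hu.2.trans ht1⟩
      have huW : u ∈ Icc (0 : ℝ) t₁ := ⟨hu.1, hu.2.trans ht.2⟩
      obtain ⟨g1, g2, g3, g4, gw1, gw2⟩ := hbd u hu1
      have g5 := hup u huW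
      have a1 := abs_le.mp (le_refl |α 0 u|)
      have a2 := abs_le.mp (le_refl |α 2 u|)
      have g6 : 0 ≤ B u + α 0 u := by linarith [a1.1, abs_nonneg (α 2 u)]
      have g7 : 0 ≤ B u + α 0 u + α 2 u / 2 := by linarith [a1.1, a2.1]
      have g8 : B u + α 0 u + α 2 u / 2 ≤ 9 / 8 * Bm := by linarith [a1.2, a2.2]
      have g9 : w u * (B u + α 0 u + α 2 u / 2) ≤ k * b u * (9 / 8 * Bm) :=
        mul_le_mul gw2 g8 g7 (mul_nonneg hk g2)
      have g10 : c * (w u * (B u + α 0 u + α 2 u / 2)) ≤ c * (k * b u * (9 / 8 * Bm)) :=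
        mul_le_mul_of_nonneg_left g9 hc
      have g11 : 0 ≤ r * ε * (B u + α 0 u) := by positivity
      have g12 : 0 ≤ r * (μ 1 - l) * b u :=
        mul_nonneg (mul_nonneg hr (by linarith)) g2
      have g13 : 5 / 4 * (c * k * Bm) * b u ≤ r ^ 2 * b u := mul_le_mul_of_nonneg_right hcond g2
      have g14 : 0 ≤ c * k * Bm * b u := mul_nonneg hckB g2
      have hE := Real.exp_pos ((r + μ 1) * u)
      have key : 0 ≤ (r + μ 1) * (r * b u - c * α 1 u) +
          (r * (-l * b u + c * α 1 u + ε * (B u + α 0 u)) -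
          c * (-μ 1 * α 1 u + w u * (B u + α 0 u + α 2 u / 2))) := by
        have e : (r + μ 1) * (r * b u - c * α 1 u) +
          (r * (-l * b u + c * α 1 u + ε * (B u + α 0 u)) -
          c * (-μ 1 * α 1 u + w u * (B u + α 0 u + α 2 u / 2))) =
          r ^ 2 * b u + r * (μ 1 - l) * b u + r * ε * (B u + α 0 u) -
            c * (w u * (B u + α 0 u + α 2 u / 2)) := by ring
        rw [e]
        linarith
      have := mul_nonneg hE.le key
      linarith
  -- derivative bounds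
  have hbder : ∀ t ∈ Icc (0 : ℝ) t₁,
      -l * b t + c * α 1 t + ε * (B t + α 0 t) ≤ (r - l) * b t + 9 / 8 * (ε * Bm) := by
    intro t ht
    have ht1 : t ∈ Icc (0 : ℝ) 1 := ⟨ht.1, ht.2.trans ht₁.2⟩
    obtain ⟨g1, g2, g3, g4, gw1, gw2⟩ := hbd t ht1
    have g5 := hup t ht
    have a1 := abs_le.mp (le_refl |α 0 t|)
    have g6 : B t + α 0 t ≤ 9 / 8 * Bm := by linarith [a1.2, abs_nonneg (α 2 t)]
    have g7 : ε * (B t + α 0 t) ≤ ε * (9 / 8 * Bm) := mul_le_mul_of_nonneg_left g6 hε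
    have g9 := h1 t ht
    linarith
  have hεB : 0 ≤ 9 / 8 * (ε * Bm) := by positivity
  intro t ht
  have ht1 : t ≤ 1 := ht.2.trans ht₁.2
  constructor
  · have hm := mono_le (f := fun t => 9 / 8 * (ε * Bm) * t - Real.exp (-r * t) * b t)
      (f' := fun t => 9 / 8 * (ε * Bm) - (Real.exp (-r * t) * (-r) * b t +
        Real.exp (-r * t) * (-l * b t + c * α 1 t + ε * (B t + α 0 t))))
      (fun u hu => (hasDeriv_lin _ _ _).sub ((hasDeriv_exp_mul _ _ _).mul (hdb u hu)))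
      le_rfl ht.1 ht1 ?_
    · simp only [mul_zero, Real.exp_zero, hb0, sub_zero] at hm
      have h2 : Real.exp (-r * t) * b t ≤ 9 / 8 * (ε * Bm) := by
        have : 9 / 8 * (ε * Bm) * t ≤ 9 / 8 * (ε * Bm) * 1 := mul_le_mul_of_nonneg_left ht1 hεB
        linarith
      have hb0' := (hbd t ⟨ht.1, ht1⟩).2.1
      have h3 : b t = Real.exp (r * t) * (Real.exp (-r * t) * b t) := by
        rw [← mul_assoc, ← Real.exp_add]
        have : r * t + -r * t = 0 := by ring
        rw [this, Real.exp_zero, one_mul]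
      have h4 : Real.exp (r * t) ≤ Real.exp r := by
        apply Real.exp_le_exp.2
        have : r * t ≤ r * 1 := mul_le_mul_of_nonneg_left ht1 hr
        linarith
      calc b t = Real.exp (r * t) * (Real.exp (-r * t) * b t) := h3
        _ ≤ Real.exp (r * t) * (9 / 8 * (ε * Bm)) :=
            mul_le_mul_of_nonneg_left h2 (Real.exp_pos _).le
        _ ≤ Real.exp r * (9 / 8 * (ε * Bm)) := mul_le_mul_of_nonneg_right h4 hεB
        _ = _ := by ring
    · intro u hu
      have huW : u ∈ Icc (0 : ℝ) t₁ := ⟨hu.1, hu.2.trans ht.2⟩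
      have hu1 : u ∈ Icc (0 : ℝ) 1 := ⟨hu.1, hu.2.trans ht1⟩
      have g1 := hbder u huW
      have g2 := (hbd u hu1).2.1
      have hE0 := Real.exp_pos (-r * u)
      have hE1 : Real.exp (-r * u) ≤ 1 := by
        rw [Real.exp_le_one_iff]
        have : 0 ≤ r * u := mul_nonneg hr hu.1
        linarith
      have g3 : Real.exp (-r * u) * (-l * b u + c * α 1 u + ε * (B u + α 0 u)) ≤
          Real.exp (-r * u) * ((r - l) * b u + 9 / 8 * (ε * Bm)) :=
        mul_le_mul_of_nonneg_left g1 hE0.le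
      have g4 : Real.exp (-r * u) * (9 / 8 * (ε * Bm)) ≤ 1 * (9 / 8 * (ε * Bm)) :=
        mul_le_mul_of_nonneg_right hE1 hεB
      have g5 : 0 ≤ Real.exp (-r * u) * (l * b u) := mul_nonneg hE0.le (mul_nonneg hl g2)
      have e : Real.exp (-r * u) * ((r - l) * b u + 9 / 8 * (ε * Bm)) =
          Real.exp (-r * u) * r * b u - Real.exp (-r * u) * (l * b u) +
            Real.exp (-r * u) * (9 / 8 * (ε * Bm)) := by ring
      have e2 : Real.exp (-r * u) * (-r) * b u = -(Real.exp (-r * u) * r * b u) := by ring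
      show 0 ≤ 9 / 8 * (ε * Bm) - (Real.exp (-r * u) * (-r) * b u +
        Real.exp (-r * u) * (-l * b u + c * α 1 u + ε * (B u + α 0 u)))
      rw [e2]
      linarith
  · intro hrl
    have hm := mono_le (f := fun t => 9 / 8 * (ε * Bm) * t - b t)
      (f' := fun t => 9 / 8 * (ε * Bm) - (-l * b t + c * α 1 t + ε * (B t + α 0 t)))
      (fun u hu => (hasDeriv_lin _ _ _).sub (hdb u hu))
      le_rfl ht.1 ht1 ?_
    · simp only [mul_zero, hb0, sub_zero] at hm
      have : 9 / 8 * (ε * Bm) * t ≤ 9 / 8 * (ε * Bm) * 1 := mul_le_mul_of_nonneg_left ht1 hεB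
      linarith
    · intro u hu
      have huW : u ∈ Icc (0 : ℝ) t₁ := ⟨hu.1, hu.2.trans ht.2⟩
      have hu1 : u ∈ Icc (0 : ℝ) 1 := ⟨hu.1, hu.2.trans ht1⟩
      have g1 := hbder u huW
      have g2 := (hbd u hu1).2.1
      have g3 : (r - l) * b u ≤ 0 := mul_nonpos_of_nonpos_of_nonneg (by linarith) g2
      show 0 ≤ 9 / 8 * (ε * Bm) - (-l * b u + c * α 1 u + ε * (B u + α 0 u))
      linarith

end Pool.Agent.H306.HE.TE1
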