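import Pool.Agent.H306.HE.Stm

set_option autoImplicit false

/-! Lower growth of one band. -/

namespace Pool.Agent.H306.HE.TE2

open Set Pool.Agent.H306.HE

theorem mono_le {f f' : ℝ → ℝ} {p q : ℝ} (hp : 0 ≤ p) (hpq : p ≤ q) (hq : q ≤ 1)
    (hf : ∀ t ∈ Icc p q, HasDerivWithinAt f (f' t) (Icc 0 1) t)
    (h : ∀ t ∈ Icc p q, 0 ≤ f' t) : f p ≤ f q := by
  have hsub : Icc p q ⊆ Icc (0 : ℝ) 1 := Icc_subset_Icc hp hq
  have hm : MonotoneOn f (Icc p q) := by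
    refine monotoneOn_of_hasDerivWithinAt_nonneg (convex_Icc p q) (f' := f') ?_ ?_ ?_
    · intro t ht
      exact (hf t ht).continuousWithinAt.mono hsub
    · intro t ht
      have h1 := interior_subset ht
      exact (hf t h1).mono (interior_subset.trans hsub)
    · intro t ht
      exact h t (interior_subset ht)
  exact hm (left_mem_Icc.mpr hpq) (right_mem_Icc.mpr hpq) hpq

theorem hasDeriv_exp_mul (a t : ℝ) (S : Set ℝ) :
    HasDerivWithinAt (fun t => Real.exp (a * t)) (Real.exp (a * t) * a) S t := by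
  have h1 : HasDerivAt (fun t : ℝ => a * t) a t := by
    have := (hasDerivAt_id t).const_mul a
    rw [mul_one] at this
    exact this
  exact h1.exp.hasDerivWithinAt

/-- The differential inequality in algebraic form. -/
theorem alg {k l c ε R ρ ρ₀ μ₁ B B' b x a0 a2 w : ℝ} (hk : 0 < k) (hc : 0 < c) (hε : 0 < ε)
    (hlμ : l ≤ μ₁) (hρ₀ : 0 < ρ₀) (hρ : ρ₀ ≤ ρ)
    (hsq : ρ * ρ = 3 / 4 * (c * k * B)) (hB : 0 < B) (hB' : B' ≤ R * B) (hb : 0 ≤ b) (hx : 0 ≤ x)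
    (ha : |a0| + |a2| / 2 ≤ B / 8) (hw : w = k * b) (h1 : 4 * μ₁ ≤ ρ₀) (h2 : 2 * R ≤ ρ₀) :
    0 ≤ -(ρ₀ / 2) * (b + c * ρ⁻¹ * x) + ((-l * b + c * x + ε * (B + a0)) +
      (c * (-(3 / 4 * (c * k * B') / (2 * ρ)) / ρ ^ 2) * x +
        c * ρ⁻¹ * (-μ₁ * x + w * (B + a0 + a2 / 2)))) := by
  have hρp : 0 < ρ := hρ₀.trans_le hρ
  set g := c * ρ⁻¹ with hg
  have hg0 : 0 ≤ g := by positivity
  have hgρ : g * ρ = c := by rw [hg, mul_assoc, inv_mul_cancel₀ hρp.ne', mul_one]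
  have a1 := neg_abs_le a0
  have a3 := neg_abs_le a2
  have a4 := abs_nonneg a2
  have s1 : 0 ≤ (μ₁ - l) * b := mul_nonneg (by linarith) hb
  have s2 : 0 ≤ ε * (B + a0) := mul_nonneg hε.le (by linarith)
  have s3 : c * x = ρ * (g * x) := by rw [← hgρ]; ring
  have s4 : ρ * b ≤ g * (w * (B + a0 + a2 / 2)) := by
    have e1 : ρ * b = g * (k * b * (3 / 4 * B)) := by
      have : g * (k * b * (3 / 4 * B)) = ρ⁻¹ * (3 / 4 * (c * k * B)) * b := by rw [hg]; ring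
      rw [this, ← hsq, ← mul_assoc, inv_mul_cancel₀ hρp.ne', one_mul]
    rw [e1, hw]
    refine mul_le_mul_of_nonneg_left (mul_le_mul_of_nonneg_left ?_ (mul_nonneg hk.le hb)) hg0
    linarith
  have s5 : -(R / 2) * (g * x) ≤ c * (-(3 / 4 * (c * k * B') / (2 * ρ)) / ρ ^ 2) * x := by
    have e1 : c * (-(3 / 4 * (c * k * B') / (2 * ρ)) / ρ ^ 2) =
        -(g * (3 / 4 * (c * k * B') / (2 * (ρ * ρ)))) := by
      rw [hg]
      field_simp
    have e2 : 3 / 4 * (c * k * B') / (2 * (ρ * ρ)) ≤ R / 2 := by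
      rw [div_le_iff₀ (by positivity), hsq]
      have := mul_le_mul_of_nonneg_left hB' (by positivity : 0 ≤ 3 / 4 * (c * k))
      linarith
    have e3 : g * (3 / 4 * (c * k * B') / (2 * (ρ * ρ))) ≤ g * (R / 2) :=
      mul_le_mul_of_nonneg_left e2 hg0
    have e4 := mul_le_mul_of_nonneg_right e3 hx
    rw [e1]
    linarith
  have hgx : 0 ≤ g * x := mul_nonneg hg0 hx
  have s6 : 0 ≤ (ρ - μ₁ - ρ₀ / 2) * b := mul_nonneg (by linarith) hb
  have s7 : 0 ≤ (ρ - μ₁ - R / 2 - ρ₀ / 2) * (g * x) := mul_nonneg (by linarith) hgx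
  have e : c * ρ⁻¹ * (-μ₁ * x + w * (B + a0 + a2 / 2)) =
      -μ₁ * (g * x) + g * (w * (B + a0 + a2 / 2)) := by rw [hg]; ring
  rw [e]
  linarith

theorem e2 : S_E2 := by
  intro hE1 k l c ε B₀ R t₀ t₁ μ B b w α hk hc hε hl hlμ hB₀ hR S hbd ht₀ ht₀₁ ht₁ hw hB hB' hfive
    hμ hR2 t t' htt₀ htt' ht't₁
  set ρ₀ := Real.sqrt (3 / 4 * (c * k * B₀)) with hρ₀
  have hρ₀pos : 0 < ρ₀ := Real.sqrt_pos.2 (by positivity)
  set ρ : ℝ → ℝ := fun u => Real.sqrt (3 / 4 * (c * k * B u)) with hρ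
  choose! B' hB1 using hB'
  have hBpos : ∀ u ∈ Icc t₀ t₁, 0 < B u := fun u hu => hB₀.trans_le (hB u hu)
  have hρle : ∀ u ∈ Icc t₀ t₁, ρ₀ ≤ ρ u := by
    intro u hu
    apply Real.sqrt_le_sqrt
    have := mul_le_mul_of_nonneg_left (hB u hu) (by positivity : 0 ≤ c * k)
    linarith
  have hρpos : ∀ u ∈ Icc t₀ t₁, 0 < ρ u := fun u hu => hρ₀pos.trans_le (hρle u hu)
  have hρsq : ∀ u ∈ Icc t₀ t₁, ρ u * ρ u = 3 / 4 * (c * k * B u) := by
    intro u hu
    have := hBpos u hu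
    exact Real.mul_self_sqrt (by positivity)
  have hsub : Icc t t' ⊆ Icc t₀ t₁ := Icc_subset_Icc htt₀ ht't₁
  have hsub1 : Icc t₀ t₁ ⊆ Icc (0 : ℝ) 1 := Icc_subset_Icc ht₀ ht₁
  -- the monotone quantity
  have hmain := mono_le (p := t) (q := t')
    (f := fun u => Real.exp (-(ρ₀ / 2) * u) * (b u + c * (ρ u)⁻¹ * α 1 u))
    (f' := fun u => Real.exp (-(ρ₀ / 2) * u) * (-(ρ₀ / 2)) * (b u + c * (ρ u)⁻¹ * α 1 u) +
      Real.exp (-(ρ₀ / 2) * u) * ((-l * b u + c * α 1 u + ε * (B u + α 0 u)) +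
        (c * (-(3 / 4 * (c * k * B' u) / (2 * ρ u)) / ρ u ^ 2) * α 1 u +
          c * (ρ u)⁻¹ * (-μ 1 * α 1 u + w u * (B u + α 0 u + α 2 u / 2)))))
    (ht₀.trans htt₀) htt' (ht't₁.trans ht₁) ?_ ?_
  · have hxt := (hbd t (hsub1 (hsub (left_mem_Icc.mpr htt')))).2.2.1
    have hρt := hρpos t (hsub (left_mem_Icc.mpr htt'))
    have ht'm : t' ∈ Icc t₀ t₁ := hsub (right_mem_Icc.mpr htt')
    have hbt' := (hbd t' (hsub1 ht'm)).2.1
    have hρt' := hρpos t' ht'm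
    have hBt' := hBpos t' ht'm
    -- the upper bound at `t'`
    have hup : b t' + c * (ρ t')⁻¹ * α 1 t' ≤ 5 * b t' := by
      set r := Real.sqrt (25 / 4 * (c * k * B t')) with hr
      have hr0 : 0 ≤ r := Real.sqrt_nonneg _
      have hrsq : r ^ 2 = 25 / 4 * (c * k * B t') := Real.sq_sqrt (by positivity)
      have h1 := (hE1 k l c ε (5 * B t') t' μ B b w (fun _ => r) (fun _ => 0) (fun u => r * u) α
        hk.le hc.le hε.le hl hlμ (by positivity) S hbd ⟨ht₀.trans ht'm.1, ht'm.2.trans ht₁⟩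
        (fun u hu => hfive t' ht'm u hu) (fun u hu => ⟨hr0, le_rfl, hasDerivWithinAt_const _ _ _, by
          rw [hrsq]
          have := mul_le_mul_of_nonneg_left (hfive t' ht'm u hu) (by positivity : 0 ≤ c * k)
          linarith⟩) (by simp) (fun u _ => by
          have := ((hasDerivAt_id u).const_mul r).hasDerivWithinAt (s := Icc 0 t')
          rw [mul_one] at this
          exact this) t' ⟨ht₀.trans ht'm.1, le_rfl⟩).1
      have h2 : r ≤ 4 * ρ t' := by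
        apply Real.sqrt_le_iff.2
        refine ⟨by positivity, ?_⟩
        have := hρsq t' ht'm
        have e : (4 * ρ t') ^ 2 = 16 * (ρ t' * ρ t') := by ring
        rw [e, this]
        have : 0 ≤ c * k * B t' := by positivity
        linarith
      have h3 : c * α 1 t' ≤ 4 * ρ t' * b t' := h1.trans (mul_le_mul_of_nonneg_right h2 hbt')
      have h4 : c * (ρ t')⁻¹ * α 1 t' = (ρ t')⁻¹ * (c * α 1 t') := by ring
      have h5 : (ρ t')⁻¹ * (c * α 1 t') ≤ (ρ t')⁻¹ * (4 * ρ t' * b t') :=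
        mul_le_mul_of_nonneg_left h3 (by positivity)
      have h6 : (ρ t')⁻¹ * (4 * ρ t' * b t') = 4 * b t' := by
        field_simp
      rw [h4]
      linarith
    have hlow : b t ≤ b t + c * (ρ t)⁻¹ * α 1 t := by
      have : 0 ≤ c * (ρ t)⁻¹ * α 1 t := by positivity
      linarith
    have hexp : Real.exp (-(ρ₀ / 2) * (t' - t)) =
        Real.exp (ρ₀ / 2 * t) * Real.exp (-(ρ₀ / 2) * t') := by
      rw [← Real.exp_add]
      congr 1
      ring
    have hinv : Real.exp (ρ₀ / 2 * t) * Real.exp (-(ρ₀ / 2) * t) = 1 := by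
      rw [← Real.exp_add]
      have : ρ₀ / 2 * t + -(ρ₀ / 2) * t = 0 := by ring
      rw [this, Real.exp_zero]
    calc b t ≤ b t + c * (ρ t)⁻¹ * α 1 t := hlow
      _ = Real.exp (ρ₀ / 2 * t) * (Real.exp (-(ρ₀ / 2) * t) * (b t + c * (ρ t)⁻¹ * α 1 t)) := by
          rw [← mul_assoc, hinv, one_mul]
      _ ≤ Real.exp (ρ₀ / 2 * t) * (Real.exp (-(ρ₀ / 2) * t') * (b t' + c * (ρ t')⁻¹ * α 1 t')) :=
          mul_le_mul_of_nonneg_left hmain (Real.exp_pos _).le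
      _ ≤ Real.exp (ρ₀ / 2 * t) * (Real.exp (-(ρ₀ / 2) * t') * (5 * b t')) :=
          mul_le_mul_of_nonneg_left (mul_le_mul_of_nonneg_left hup (Real.exp_pos _).le)
            (Real.exp_pos _).le
      _ = 5 * b t' * Real.exp (-(ρ₀ / 2) * (t' - t)) := by
          rw [hexp]
          ring
  · intro u hu
    have hu0 := hsub hu
    have hu1 := hsub1 hu0
    have d1 : HasDerivWithinAt (fun u => 3 / 4 * (c * k * B u)) (3 / 4 * (c * k * B' u))
        (Icc 0 1) u := ((hB1 u hu0).1.const_mul (c * k)).const_mul (3 / 4)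
    have hBu := hBpos u hu0
    have d2 : HasDerivWithinAt ρ (3 / 4 * (c * k * B' u) / (2 * ρ u)) (Icc 0 1) u :=
      d1.sqrt (by positivity)
    have d3 : HasDerivWithinAt (fun u => (ρ u)⁻¹)
        (-(3 / 4 * (c * k * B' u) / (2 * ρ u)) / ρ u ^ 2) (Icc 0 1) u :=
      d2.fun_inv (hρpos u hu0).ne'
    exact (hasDeriv_exp_mul _ _ _).mul ((S.db u hu1).add ((d3.const_mul c).mul (S.dα1 u hu1)))
  · intro u hu
    have hu0 := hsub hu
    have hu1 := hsub1 hu0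
    obtain ⟨g1, g2, g3, g4, g5, g6⟩ := hbd u hu1
    have h := alg (l := l) hk hc hε hlμ hρ₀pos (hρle u hu0) (hρsq u hu0) (hBpos u hu0)
      (hB1 u hu0).2 g2 g3 g4 (hw u hu0) hμ hR2
    have hE := Real.exp_pos (-(ρ₀ / 2) * u)
    have := mul_nonneg hE.le h
    linarith

end Pool.Agent.H306.HE.TE2
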