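import Pool.Agent.H306.HE.Stm

/-! Persistence of rapid decay along the chain (`S_OP`), adapted from HD/TOPEN (helper790) by helper279. -/

set_option autoImplicit false

noncomputable section

namespace Pool.Agent.H306.HE.TOP

open Set MeasureTheory

open scoped Real ContDiff ENNReal

open Pool.Agent.H306.CK Pool.Agent.H306.DS Pool.Agent.H306.HD

section

variable {P : Prm} {θ τ W lm tn : ℕ → ℝ} {b w J : ℕ → ℝ → ℝ} {a : ℕ → ℕ → ℝ → ℝ}

theorem cont (hb : BSeq P θ b w J a) (m : ℕ) : ContinuousOn (b m) (Icc 0 1) :=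
  fun t ht => ((hb.sol m).db t ht).continuousWithinAt

/-- finitely many bands are bounded -/
theorem fin_bd (hC : ChP P θ τ W lm tn) (hb : BSeq P θ b w J a) (m₀ : ℕ) :
    ∃ R : ℝ, 0 ≤ R ∧ ∀ m < m₀, ∀ s ∈ Icc (0 : ℝ) 1, b m s ≤ R * P.ε m := by
  have h1 : ∀ m, ∃ M : ℝ, ∀ s ∈ Icc (0 : ℝ) 1, ‖b m s‖ ≤ M := fun m =>
    isCompact_Icc.exists_bound_of_continuousOn (cont hb m)
  choose M hM using h1
  refine ⟨∑ m ∈ Finset.range m₀, |M m| / P.ε m,
    Finset.sum_nonneg fun m _ => div_nonneg (abs_nonneg _) (hC.ε_pos m).le, fun m hm s hs => ?_⟩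
  have h2 : |M m| / P.ε m ≤ ∑ m ∈ Finset.range m₀, |M m| / P.ε m :=
    Finset.single_le_sum (f := fun m => |M m| / P.ε m)
      (fun m _ => div_nonneg (abs_nonneg _) (hC.ε_pos m).le) (Finset.mem_range.2 hm)
  have h3 := mul_le_mul_of_nonneg_right h2 (hC.ε_pos m).le
  rw [div_mul_cancel₀ _ (hC.ε_pos m).ne'] at h3
  have h4 := hM m s hs
  rw [Real.norm_eq_abs] at h4
  exact (le_abs_self _).trans (h4.trans ((le_abs_self _).trans h3))

theorem mu_nonneg (hP : P.Ok) (m j : ℕ) : 0 ≤ mu P m j := by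
  unfold mu
  exact mul_nonneg hP.ν_pos.le (Real.rpow_nonneg (by positivity) _)

theorem mu_le (hP : P.Ok) (m : ℕ) : mu P (m + 1) 0 ≤ mu P m 1 := by
  unfold mu
  refine mul_le_mul_of_nonneg_left ?_ hP.ν_pos.le
  refine Real.rpow_le_rpow (by positivity) ?_ hP.α_pos.le
  push_cast
  have : 0 ≤ (P.K m : ℝ) ^ 2 := by positivity
  linarith

/-- the growth statement for the bands -/
theorem grow (hG : S_G) (hP : P.Ok) (hC : ChP P θ τ W lm tn) (hb : BSeq P θ b w J a) (m : ℕ)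
    {r Bm t₁ : ℝ} (hr : 0 ≤ r) (hB : 0 ≤ Bm) (hrB : 5 / 4 * (P.c m * P.K m * Bm) ≤ r ^ 2)
    (ht : t₁ ∈ Icc (0 : ℝ) 1) (hBm : ∀ t ∈ Icc 0 t₁, BB P (θ 0) b m t ≤ Bm) :
    ∀ t ∈ Icc 0 t₁, b m t ≤ 9 / 8 * (P.ε m * Bm) * Real.exp r ∧
      (r ≤ mu P (m + 1) 0 → b m t ≤ 9 / 8 * (P.ε m * Bm)) :=
  hG (P.K m) (mu P (m + 1) 0) (P.c m) (P.ε m) r Bm t₁ (mu P m) (BB P (θ 0) b m) (b m) (w m)
    (a m) (Nat.cast_nonneg _) (hC.c_pos m).le (hC.ε_pos m).le (mu_nonneg hP _ _) (mu_le hP m) hr hB hrB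
    (hb.sol m) (fun t ht => ⟨(hb.bds m t ht).1, (hb.bds m t ht).2.1, (hb.bds m t ht).2.2.1,
      (hb.bds m t ht).2.2.2.1, (hb.bds m t ht).2.2.2.2.1, (hb.bds m t ht).2.2.2.2.2.1⟩) ht hBm

/-- the choice of `m₀` -/
theorem exists_m (hP : P.Ok) (hC : ChP P θ τ W lm tn) {R : ℝ} (hR : 0 ≤ R) :
    ∃ m₀ : ℕ, ∀ m, m₀ ≤ m → P.ε m ≤ 1 / 16 ∧
      5 / 4 * (P.c (m + 1) * P.K (m + 1) * (2 * R * P.ε m)) ≤ 1 := by
  obtain ⟨C₁, h₁⟩ := hC.rapid 1
  obtain ⟨C₃, h₃⟩ := hC.rapid 3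
  obtain ⟨C, hc⟩ := hC.c_le
  obtain ⟨n, hn⟩ := exists_nat_ge (max (16 * C₁) (5 / 2 * R * |C| * C₃))
  refine ⟨n, fun m hm => ?_⟩
  have hK : (n : ℝ) ≤ P.K (m + 2) := by
    have e1 : m + 2 ≤ P.K (m + 2) := hP.K_mono.le_apply
    have e2 : n ≤ P.K (m + 2) := by omega
    exact_mod_cast e2
  have hK0 : (0 : ℝ) < P.K (m + 2) := by
    have := hP.K_one (m + 2)
    exact_mod_cast this
  have hε := hC.ε_pos m
  constructor
  · have e1 := h₁ m
    rw [pow_one] at e1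
    have e2 : 16 * C₁ ≤ P.K (m + 2) := (le_max_left _ _).trans (hn.trans hK)
    have e3 : 16 * (P.ε m * P.K (m + 2)) ≤ P.K (m + 2) := by linarith
    have e4 : 16 * P.ε m * P.K (m + 2) ≤ 1 * P.K (m + 2) := by linarith
    have e5 := le_of_mul_le_mul_right e4 hK0
    linarith
  · have e2 : 5 / 2 * R * |C| * C₃ ≤ P.K (m + 2) := (le_max_right _ _).trans (hn.trans hK)
    have e3 := h₃ m
    have e4 : P.c (m + 1) ≤ |C| * P.K (m + 2) := by
      refine (hc (m + 1)).trans ?_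
      exact mul_le_mul_of_nonneg_right (le_abs_self C) hK0.le
    have e5 : (P.K (m + 1) : ℝ) ≤ P.K (m + 2) := by
      have : P.K (m + 1) ≤ P.K (m + 2) := hP.K_mono.monotone (by omega)
      exact_mod_cast this
    have e6 : P.c (m + 1) * P.K (m + 1) ≤ |C| * P.K (m + 2) * P.K (m + 2) :=
      mul_le_mul e4 e5 (Nat.cast_nonneg _) (mul_nonneg (abs_nonneg _) hK0.le)
    have e7 : P.c (m + 1) * P.K (m + 1) * (2 * R * P.ε m) ≤
        |C| * P.K (m + 2) * P.K (m + 2) * (2 * R * P.ε m) :=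
      mul_le_mul_of_nonneg_right e6 (by positivity)
    have e8 : 5 / 4 * (|C| * P.K (m + 2) * P.K (m + 2) * (2 * R * P.ε m)) * P.K (m + 2) ≤
        1 * P.K (m + 2) := by
      calc 5 / 4 * (|C| * P.K (m + 2) * P.K (m + 2) * (2 * R * P.ε m)) * P.K (m + 2) =
            5 / 2 * R * |C| * (P.ε m * (P.K (m + 2) : ℝ) ^ 3) := by ring
        _ ≤ 5 / 2 * R * |C| * C₃ := mul_le_mul_of_nonneg_left e3 (by positivity)
        _ ≤ 1 * P.K (m + 2) := by linarith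
    have e9 := le_of_mul_le_mul_right e8 hK0
    linarith

/-- part (a) -/
theorem part_a (hG : S_G) (hP : P.Ok) (hC : ChP P θ τ W lm tn) (hb : BSeq P θ b w J a) {t : ℝ}
    (ht0 : 0 ≤ t) (ht1 : t < 1) (h : ∃ R : ℝ, ∀ m, ∀ s ∈ Icc 0 t, b m s ≤ R * P.ε m) :
    ∃ δ : ℝ, 0 < δ ∧ t + δ ≤ 1 ∧ ∃ R : ℝ, ∀ m, ∀ s ∈ Icc 0 (t + δ), b m s ≤ R * P.ε m := by
  obtain ⟨R₀, hR₀⟩ := h
  obtain ⟨R, hR⟩ : ∃ R : ℝ, R = max R₀ 1 := ⟨_, rfl⟩
  have hR1 : 1 ≤ R := by rw [hR]; exact le_max_right _ _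
  have hRb : ∀ m, ∀ s ∈ Icc 0 t, b m s ≤ R * P.ε m := fun m s hs =>
    (hR₀ m s hs).trans (mul_le_mul_of_nonneg_right (by rw [hR]; exact le_max_left _ _) (hC.ε_pos m).le)
  obtain ⟨n, hn⟩ := exists_m (R := R) hP hC (by linarith)
  -- continuity
  have hc := Metric.continuousWithinAt_iff.1 (cont hb n t ⟨ht0, ht1.le⟩) (R * P.ε n)
    (mul_pos (by linarith) (hC.ε_pos n))
  obtain ⟨δ', hδ', hδ⟩ := hc
  obtain ⟨δ, hδd⟩ : ∃ δ : ℝ, δ = min (δ' / 2) (1 - t) := ⟨_, rfl⟩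
  have hδ0 : 0 < δ := by rw [hδd]; exact lt_min (by linarith) (by linarith)
  have hδ1 : δ ≤ δ' / 2 := by rw [hδd]; exact min_le_left _ _
  have hδ2 : δ ≤ 1 - t := by rw [hδd]; exact min_le_right _ _
  have htδ : t + δ ∈ Icc (0 : ℝ) 1 := ⟨by linarith, by linarith⟩
  have hbase : ∀ s ∈ Icc 0 (t + δ), b n s ≤ 2 * R * P.ε n := by
    intro s hs
    have hRε : 0 < R * P.ε n := mul_pos (by linarith) (hC.ε_pos n)
    rcases le_total s t with hst | hst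
    · have := hRb n s ⟨hs.1, hst⟩
      linarith
    · have e1 := hδ (x := s) ⟨hs.1, hs.2.trans htδ.2⟩ (by
        rw [Real.dist_eq, abs_of_nonneg (by linarith)]
        linarith [hs.2])
      rw [Real.dist_eq] at e1
      have e2 := (abs_lt.1 e1).2
      have e3 := hRb n t ⟨ht0, le_rfl⟩
      linarith
  have hstep : ∀ m, n ≤ m → ∀ s ∈ Icc 0 (t + δ), b m s ≤ 2 * R * P.ε m := by
    intro m hm
    induction m, hm using Nat.le_induction with
    | base => exact hbase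
    | succ m hm ih =>
      intro s hs
      obtain ⟨q1, q2⟩ := hn m hm
      have hε := hC.ε_pos m
      have hε' := hC.ε_pos (m + 1)
      have e1 := (grow hG hP hC hb (m + 1) (r := 1) (Bm := 2 * R * P.ε m) zero_le_one (by positivity)
        (by rw [one_pow]; exact q2) htδ (fun u hu => ih u hu) s hs).1
      refine e1.trans ?_
      have e2 : Real.exp 1 < 2.7182818286 := Real.exp_one_lt_d9
      have e3 : 2 * R * P.ε m ≤ R / 8 := by nlinarith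
      calc 9 / 8 * (P.ε (m + 1) * (2 * R * P.ε m)) * Real.exp 1 ≤
            9 / 8 * (P.ε (m + 1) * (R / 8)) * 3 := by
            gcongr
            linarith
        _ ≤ 2 * R * P.ε (m + 1) := by
            have : 0 < R * P.ε (m + 1) := by positivity
            linarith
  obtain ⟨R₁, hR₁, hf⟩ := fin_bd hC hb n
  refine ⟨δ, hδ0, htδ.2, max R₁ (2 * R), fun m s hs => ?_⟩
  rcases lt_or_ge m n with hm | hm
  · exact (hf m hm s ⟨hs.1, hs.2.trans htδ.2⟩).trans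
      (mul_le_mul_of_nonneg_right (le_max_left _ _) (hC.ε_pos m).le)
  · exact (hstep m hm s hs).trans
      (mul_le_mul_of_nonneg_right (le_max_right _ _) (hC.ε_pos m).le)

/-- part (b) -/
theorem part_b (hG : S_G) (hP : P.Ok) (hC : ChP P θ τ W lm tn) (hb : BSeq P θ b w J a) {t : ℝ}
    (ht0 : 0 < t) (ht1 : t ≤ 1) (h : ∃ M : ℝ, ∀ m, ∀ s ∈ Ico 0 t, P.K (m + 1) * b m s ≤ M) :
    ∃ R : ℝ, ∀ m, ∀ s ∈ Icc 0 t, b m s ≤ R * P.ε m := by
  obtain ⟨M, hM⟩ := h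
  have hM0 : 0 ≤ M := by
    have := hM 0 0 ⟨le_rfl, ht0⟩
    rw [(hb.sol 0).b0, mul_zero] at this
    exact this
  have hcl : ∀ m, ∀ s ∈ Icc 0 t, P.K (m + 1) * b m s ≤ M := by
    intro m
    have h1 : MapsTo (fun s => P.K (m + 1) * b m s) (Ico 0 t) (Iic M) := fun s hs => hM m s hs
    have h2 : ContinuousOn (fun s => P.K (m + 1) * b m s) (closure (Ico 0 t)) := by
      rw [closure_Ico ht0.ne]
      exact (continuousOn_const.mul (cont hb m)).mono (Icc_subset_Icc le_rfl ht1)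
    have h3 := h1.closure_of_continuousOn h2
    rw [closure_Ico ht0.ne, isClosed_Iic.closure_eq] at h3
    exact fun s hs => h3 hs
  obtain ⟨n, hn⟩ := hC.small (5 / 4 * M)
  obtain ⟨R₁, hR₁, hf⟩ := fin_bd hC hb (n + 1)
  refine ⟨max R₁ (9 / 8 * M), fun m s hs => ?_⟩
  have ht : t ∈ Icc (0 : ℝ) 1 := ⟨ht0.le, ht1⟩
  rcases lt_or_ge m (n + 1) with hm | hm
  · exact (hf m hm s ⟨hs.1, hs.2.trans ht1⟩).trans
      (mul_le_mul_of_nonneg_right (le_max_left _ _) (hC.ε_pos m).le)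
  · refine le_trans ?_ (mul_le_mul_of_nonneg_right (le_max_right _ _) (hC.ε_pos m).le)
    obtain ⟨m', rfl⟩ : ∃ m', m = m' + 1 := ⟨m - 1, by omega⟩
    have hK0 : (1 : ℝ) ≤ P.K (m' + 1) := by
      have := hP.K_one (m' + 1)
      exact_mod_cast this
    have hε := hC.ε_pos (m' + 1)
    have e1 : 5 / 4 * (P.c (m' + 1) * P.K (m' + 1) * (M / P.K (m' + 1))) ≤
        mu P (m' + 1 + 1) 0 ^ 2 := by
      have e2 : P.c (m' + 1) * P.K (m' + 1) * (M / P.K (m' + 1)) = P.c (m' + 1) * M := by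
        field_simp
      rw [e2]
      have e3 := hn (m' + 1) (by omega)
      linarith
    have e4 := (grow hG hP hC hb (m' + 1) (r := mu P (m' + 1 + 1) 0) (Bm := M / P.K (m' + 1))
      (mu_nonneg hP _ _) (by positivity) e1 ht (fun u hu => by
        have e5 := hcl m' u hu
        change b m' u ≤ _
        rw [le_div_iff₀ (by linarith)]
        linarith) s hs).2 le_rfl
    refine e4.trans ?_
    have e6 : M / P.K (m' + 1) ≤ M := div_le_self hM0 hK0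
    calc 9 / 8 * (P.ε (m' + 1) * (M / P.K (m' + 1))) ≤ 9 / 8 * (P.ε (m' + 1) * M) := by gcongr
      _ = _ := by ring

end

/-- **OP** -/
theorem op : S_OP := fun hG _ _ _ _ _ _ _ _ _ _ hP hC hb =>
  ⟨fun _ ht0 ht1 h => part_a hG hP hC hb ht0 ht1 h, fun _ ht0 ht1 h => part_b hG hP hC hb ht0 ht1 h⟩

end Pool.Agent.H306.HE.TOP
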