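import Pool.Agent.H306.HE.Stm2

/-! Parameters for all `α < 1/2`, fourth part: decay of the operator bound. -/

set_option autoImplicit false

noncomputable section

namespace Pool.Agent.H306.HE.TPB2

open Set MeasureTheory Filter Pool.Agent.H306.HD Pool.Agent.H306.HE

open scoped Real

theorem zq_one {N : ℕ} {q : ℝ} (hN : 1 ≤ N) (hq : 0 ≤ q) (m : ℕ) : 1 ≤ zq N q m :=
  Real.one_le_rpow (by exact_mod_cast hN) (pow_nonneg hq m)

theorem zq_succ (N : ℕ) (q : ℝ) (m : ℕ) : zq N q (m + 1) = zq N q m ^ q := by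
  unfold zq
  rw [← Real.rpow_mul (Nat.cast_nonneg N), pow_succ]

theorem Kq_ge {N : ℕ} {q : ℝ} {m : ℕ} (h : 1 ≤ zq N q m) : zq N q m ≤ (Kq N q m : ℝ) := by
  unfold Kq
  push_cast
  have := Nat.lt_floor_add_one (zq N q m)
  linarith

theorem Kq_le {N : ℕ} {q : ℝ} {m : ℕ} (h : 1 ≤ zq N q m) : (Kq N q m : ℝ) ≤ 3 * zq N q m := by
  unfold Kq
  push_cast
  have := Nat.floor_le (le_trans zero_le_one h)
  linarith

/-- The bracket. -/
theorem br_le {ν α σ q r x η S : ℝ} (hE : Exps α σ q r x η) (hS : 0 ≤ S) {N : ℕ} (hN : 1 ≤ N)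
    (m : ℕ) :
    ν ^ 2 * ((prm2 ν α σ q r η N).K m : ℝ) ^ (2 * (σ + 2 * α - 1)) +
      (prm2 ν α σ q r η N).c m ^ 2 * ((prm2 ν α σ q r η N).K (m + 1) : ℝ) ^ (2 * σ) +
      (prm2 ν α σ q r η N).ε m ^ 2 * ((prm2 ν α σ q r η N).K (m + 1) : ℝ) ^ (4 * (S + 1)) ≤
    ν ^ 2 * zq N q m ^ (-1 : ℝ) + 9 * zq N q m ^ (-(2 * η)) +
      (3 : ℝ) ^ (4 * (S + 1)) * (zq N q m ^ (q * (4 * (S + 1))) *
        Real.exp (-(1 / 32 * zq N q m ^ (r * (1 - 1 / q))))) := by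
  have hq0 : 0 ≤ q := by linarith [hE.q1]
  have hz1 := zq_one hN hq0 m
  have hz1' := zq_one hN hq0 (m + 1)
  have hz : 0 < zq N q m := by linarith
  have hK : ((prm2 ν α σ q r η N).K m : ℝ) = (Kq N q m : ℝ) := rfl
  have hK' : ((prm2 ν α σ q r η N).K (m + 1) : ℝ) = (Kq N q (m + 1) : ℝ) := rfl
  have hc : (prm2 ν α σ q r η N).c m = zq N q m ^ (-(q * σ + η)) := rfl
  have he : (prm2 ν α σ q r η N).ε m = Real.exp (-(zq N q m ^ (r * (1 - 1 / q)) / 64)) := rfl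
  rw [hK, hK', hc, he]
  have k1 := Kq_ge hz1
  have k2 := Kq_ge hz1'
  have k3 := Kq_le hz1'
  rw [zq_succ] at k2 k3 hz1'
  set z := zq N q m with hzdef
  set K := (Kq N q m : ℝ)
  set K' := (Kq N q (m + 1) : ℝ)
  have hzq : 0 < z ^ q := by linarith
  have hK'0 : 0 < K' := by linarith
  refine add_le_add (add_le_add ?_ ?_) ?_
  · refine mul_le_mul_of_nonneg_left ?_ (sq_nonneg ν)
    have h1 : 2 * (σ + 2 * α - 1) ≤ -1 := by linarith [hE.σ1]
    exact (Real.rpow_le_rpow_of_nonpos hz k1 (by linarith)).trans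
      (Real.rpow_le_rpow_of_exponent_le hz1 h1)
  · have h1 : K' ^ (2 * σ) ≤ 9 * z ^ (q * (2 * σ)) := by
      rw [Real.rpow_mul hz.le]
      rcases le_or_gt 0 σ with h | h
      · have h2 : K' ^ (2 * σ) ≤ (3 * z ^ q) ^ (2 * σ) :=
          Real.rpow_le_rpow hK'0.le k3 (by linarith)
        have h3 : (3 : ℝ) ^ (2 * σ) ≤ 9 := by
          have h4 : (3 : ℝ) ^ (2 * σ) ≤ (3 : ℝ) ^ (2 : ℝ) :=
            Real.rpow_le_rpow_of_exponent_le (by norm_num) (by linarith [hE.σ1, hE.α0])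
          have h5 : (3 : ℝ) ^ (2 : ℝ) = 9 := by norm_num
          rwa [h5] at h4
        rw [Real.mul_rpow (by norm_num) hzq.le] at h2
        exact h2.trans (mul_le_mul_of_nonneg_right h3 (Real.rpow_nonneg hzq.le _))
      · have h2 : K' ^ (2 * σ) ≤ (z ^ q) ^ (2 * σ) :=
          Real.rpow_le_rpow_of_nonpos hzq k2 (by linarith)
        have h3 : 0 ≤ (z ^ q) ^ (2 * σ) := Real.rpow_nonneg hzq.le _
        linarith
    have h2 : (z ^ (-(q * σ + η))) ^ 2 * (9 * z ^ (q * (2 * σ))) = 9 * z ^ (-(2 * η)) := by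
      rw [← Real.rpow_natCast, ← Real.rpow_mul hz.le]
      have h3 : z ^ (-(q * σ + η) * ((2 : ℕ) : ℝ)) * z ^ (q * (2 * σ)) = z ^ (-(2 * η)) := by
        rw [← Real.rpow_add hz]
        congr 1
        push_cast
        ring
      rw [← h3]
      ring
    rw [← h2]
    exact mul_le_mul_of_nonneg_left h1 (sq_nonneg _)
  · have h1 : K' ^ (4 * (S + 1)) ≤ (3 : ℝ) ^ (4 * (S + 1)) * z ^ (q * (4 * (S + 1))) := by
      rw [Real.rpow_mul hz.le, ← Real.mul_rpow (by norm_num) hzq.le]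
      exact Real.rpow_le_rpow hK'0.le k3 (by linarith)
    have h2 : Real.exp (-(z ^ (r * (1 - 1 / q)) / 64)) ^ 2 =
        Real.exp (-(1 / 32 * z ^ (r * (1 - 1 / q)))) := by
      rw [sq, ← Real.exp_add]
      congr 1
      ring
    rw [h2]
    refine (mul_le_mul_of_nonneg_left h1 (Real.exp_pos _).le).trans (le_of_eq ?_)
    ring

theorem two_eight (n m : ℕ) : (2 : ℝ) ^ (n * m) * 8 ^ m = (2 ^ n * 8) ^ m := by
  rw [mul_pow, pow_mul]

theorem pb2 : S_PB2 := by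
  intro hZ ν α σ q r x η S C δ n hν hS hC hδ hE
  obtain ⟨Z1, Z2, Z3, Z4⟩ := hZ
  have hq1 := hE.q1
  have hη0 := hE.η0
  have hr : 0 < r := by
    have h1 : 0 < 2 * α * q := mul_pos (mul_pos (by norm_num) hE.α0) (by linarith)
    linarith [hE.dis]
  have hp : 0 < r * (1 - 1 / q) := by
    refine mul_pos hr ?_
    have : 1 / q < 1 := by
      rw [div_lt_one (by linarith)]
      exact hq1
    linarith
  have h2η : 0 < 2 * η := by linarith
  have hL0 : ∀ k : ℕ, (0 : ℝ) ≤ 2 ^ k * 8 := fun k => by positivity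
  obtain ⟨N1, hN1⟩ := Z1 q 1 (3 * (C * ν ^ 2) / δ) (2 ^ n * 8) hq1 one_pos (hL0 n)
  obtain ⟨N2, hN2⟩ := Z1 q (2 * η) (3 * (C * 9) / δ) (2 ^ n * 8) hq1 h2η (hL0 n)
  obtain ⟨N3, hN3⟩ := Z2 q (r * (1 - 1 / q)) (1 / 32) (q * (4 * (S + 1)))
    (3 * (C * (3 : ℝ) ^ (4 * (S + 1))) / δ) (2 ^ n * 8) hq1 hp (by norm_num)
    (by positivity) (hL0 n)
  refine ⟨N1 + N2 + N3 + 2, fun N hN => ⟨fun m => ?_, fun S' C' n' hS' hC' => ?_⟩⟩
  · have hNN : 1 ≤ N := by omega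
    have hz1 := zq_one hNN (by linarith : (0 : ℝ) ≤ q) m
    have hz : 0 < zq N q m := by linarith
    have e1 := hN1 N (by omega) m
    have e2 := hN2 N (by omega) m
    have e3 := hN3 N (by omega) m
    have h8 : (0 : ℝ) < 8 ^ m := by positivity
    have e9 : (1 / 8 : ℝ) ^ m = 1 / 8 ^ m := by rw [one_div_pow]
    rw [e9, mul_one_div, le_div_iff₀ h8]
    have hCn : 0 ≤ C * 2 ^ (n * m) := by positivity
    refine (mul_le_mul_of_nonneg_right (mul_le_mul_of_nonneg_left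
      (br_le hE hS hNN m) hCn) h8.le).trans ?_
    have e10 : C * 2 ^ (n * m) * (ν ^ 2 * zq N q m ^ (-1 : ℝ) + 9 * zq N q m ^ (-(2 * η)) +
      (3 : ℝ) ^ (4 * (S + 1)) * (zq N q m ^ (q * (4 * (S + 1))) *
        Real.exp (-(1 / 32 * zq N q m ^ (r * (1 - 1 / q)))))) * 8 ^ m =
        C * ν ^ 2 * (2 ^ n * 8) ^ m * zq N q m ^ (-1 : ℝ) +
        C * 9 * (2 ^ n * 8) ^ m * zq N q m ^ (-(2 * η)) +
        C * (3 : ℝ) ^ (4 * (S + 1)) * (2 ^ n * 8) ^ m * zq N q m ^ (q * (4 * (S + 1))) *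
        Real.exp (-(1 / 32 * zq N q m ^ (r * (1 - 1 / q)))) := by
      rw [← two_eight]
      ring
    rw [e10]
    have f1 : C * ν ^ 2 * (2 ^ n * 8) ^ m * zq N q m ^ (-1 : ℝ) ≤ δ / 3 := by
      have h1 : C * ν ^ 2 * (2 ^ n * 8) ^ m ≤ δ / 3 * zq N q m ^ (1 : ℝ) := by
        have h2 : 3 * (C * ν ^ 2) / δ * (2 ^ n * 8) ^ m =
          C * ν ^ 2 * (2 ^ n * 8) ^ m / (δ / 3) := by
          field_simp
        rw [h2, div_le_iff₀ (by positivity)] at e1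
        linarith
      refine (mul_le_mul_of_nonneg_right h1 (Real.rpow_nonneg hz.le _)).trans (le_of_eq ?_)
      rw [mul_assoc, ← Real.rpow_add hz]
      norm_num
    have f2 : C * 9 * (2 ^ n * 8) ^ m * zq N q m ^ (-(2 * η)) ≤ δ / 3 := by
      have h1 : C * 9 * (2 ^ n * 8) ^ m ≤ δ / 3 * zq N q m ^ (2 * η) := by
        have h2 : 3 * (C * 9) / δ * (2 ^ n * 8) ^ m =
          C * 9 * (2 ^ n * 8) ^ m / (δ / 3) := by
          field_simp
        rw [h2, div_le_iff₀ (by positivity)] at e2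
        linarith
      refine (mul_le_mul_of_nonneg_right h1 (Real.rpow_nonneg hz.le _)).trans (le_of_eq ?_)
      rw [mul_assoc, ← Real.rpow_add hz, add_neg_cancel, Real.rpow_zero, mul_one]
    have f3 : C * (3 : ℝ) ^ (4 * (S + 1)) * (2 ^ n * 8) ^ m * zq N q m ^ (q * (4 * (S + 1))) *
        Real.exp (-(1 / 32 * zq N q m ^ (r * (1 - 1 / q)))) ≤ δ / 3 := by
      have h2 : 3 * (C * (3 : ℝ) ^ (4 * (S + 1))) / δ * (2 ^ n * 8) ^ m *
          zq N q m ^ (q * (4 * (S + 1))) *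
          Real.exp (-(1 / 32 * zq N q m ^ (r * (1 - 1 / q)))) =
          C * (3 : ℝ) ^ (4 * (S + 1)) * (2 ^ n * 8) ^ m * zq N q m ^ (q * (4 * (S + 1))) *
          Real.exp (-(1 / 32 * zq N q m ^ (r * (1 - 1 / q)))) / (δ / 3) := by
        field_simp
      rw [h2, div_le_iff₀ (by positivity), one_mul] at e3
      exact e3
    linarith
  · have hNN : 1 ≤ N := by omega
    have hN2' : 2 ≤ N := by omega
    obtain ⟨m1, hm1⟩ := Z3 q 1 1 (2 ^ n' * 8) N hq1 one_pos (hL0 n') hN2'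
    obtain ⟨m2, hm2⟩ := Z3 q (2 * η) 1 (2 ^ n' * 8) N hq1 h2η (hL0 n') hN2'
    obtain ⟨D, hD0, hD⟩ := Z4 q (r * (1 - 1 / q)) (1 / 32) (q * (4 * (S' + 1))) (2 ^ n' * 8) N
      hq1 hp (by norm_num) (hL0 n') hN2'
    obtain ⟨f, hf⟩ : ∃ f : ℕ → ℝ, ∀ m, f m = C' * 2 ^ (n' * m) *
      (ν ^ 2 * ((prm2 ν α σ q r η N).K m : ℝ) ^ (2 * (σ + 2 * α - 1)) +
      (prm2 ν α σ q r η N).c m ^ 2 * ((prm2 ν α σ q r η N).K (m + 1) : ℝ) ^ (2 * σ) +
      (prm2 ν α σ q r η N).ε m ^ 2 * ((prm2 ν α σ q r η N).K (m + 1) : ℝ) ^ (4 * (S' + 1))) *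
        8 ^ m := ⟨_, fun _ => rfl⟩
    have hb : IsBoundedUnder (· ≤ ·) atTop f := by
      refine ⟨C' * ν ^ 2 + C' * 9 + C' * (3 : ℝ) ^ (4 * (S' + 1)) * D, ?_⟩
      rw [eventually_map]
      filter_upwards [eventually_ge_atTop (m1 + m2)] with m hm
      have hz1 := zq_one hNN (by linarith : (0 : ℝ) ≤ q) m
      have hz : 0 < zq N q m := by linarith
      have e1 := hm1 m (by omega)
      have e2 := hm2 m (by omega)
      have e3 := hD m
      rw [one_mul] at e1 e2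
      have h8 : (0 : ℝ) < 8 ^ m := by positivity
      rw [hf]
      have hCn : 0 ≤ C' * 2 ^ (n' * m) := by positivity
      refine (mul_le_mul_of_nonneg_right (mul_le_mul_of_nonneg_left
        (br_le hE hS' hNN m) hCn) h8.le).trans ?_
      have e10 : C' * 2 ^ (n' * m) * (ν ^ 2 * zq N q m ^ (-1 : ℝ) + 9 * zq N q m ^ (-(2 * η)) +
        (3 : ℝ) ^ (4 * (S' + 1)) * (zq N q m ^ (q * (4 * (S' + 1))) *
          Real.exp (-(1 / 32 * zq N q m ^ (r * (1 - 1 / q)))))) * 8 ^ m =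
          C' * ν ^ 2 * ((2 ^ n' * 8) ^ m * zq N q m ^ (-1 : ℝ)) +
          C' * 9 * ((2 ^ n' * 8) ^ m * zq N q m ^ (-(2 * η))) +
          C' * (3 : ℝ) ^ (4 * (S' + 1)) * ((2 ^ n' * 8) ^ m * zq N q m ^ (q * (4 * (S' + 1))) *
          Real.exp (-(1 / 32 * zq N q m ^ (r * (1 - 1 / q))))) := by
        rw [← two_eight]
        ring
      rw [e10]
      have f1 : (2 ^ n' * 8) ^ m * zq N q m ^ (-1 : ℝ) ≤ 1 := by
        refine (mul_le_mul_of_nonneg_right e1 (Real.rpow_nonneg hz.le _)).trans (le_of_eq ?_)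
        rw [← Real.rpow_add hz]
        norm_num
      have f2 : (2 ^ n' * 8) ^ m * zq N q m ^ (-(2 * η)) ≤ 1 := by
        refine (mul_le_mul_of_nonneg_right e2 (Real.rpow_nonneg hz.le _)).trans (le_of_eq ?_)
        rw [← Real.rpow_add hz, add_neg_cancel, Real.rpow_zero]
      have g1 := mul_le_mul_of_nonneg_left f1 (mul_nonneg hC' (sq_nonneg ν))
      have g2 := mul_le_mul_of_nonneg_left f2 (mul_nonneg hC' (by norm_num : (0 : ℝ) ≤ 9))
      have g3 := mul_le_mul_of_nonneg_left e3 (mul_nonneg hC'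
        (Real.rpow_nonneg (by norm_num : (0 : ℝ) ≤ 3) (4 * (S' + 1))))
      linarith
    obtain ⟨M, hM⟩ := hb.bddAbove_range
    refine ⟨max M 0, le_max_right _ _, fun m => ?_⟩
    have h1 : f m ≤ max M 0 := (hM ⟨m, rfl⟩).trans (le_max_left _ _)
    have h8 : (0 : ℝ) < 8 ^ m := by positivity
    rw [one_div_pow, mul_one_div, le_div_iff₀ h8]
    rw [hf] at h1
    exact h1

end Pool.Agent.H306.HE.TPB2
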