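import Pool.Agent.H306.HE.Stm2

/-! Parameters, first part (helper627). -/

noncomputable section

namespace Pool.Agent.H306.HE.TPN1

open Set MeasureTheory

open scoped Real

open Pool.Agent.H306.HD Pool.Agent.H306.HE

section

variable {q : ℝ} {N : ℕ}

theorem zq_ge (hq : 1 < q) (hN : 1 ≤ N) (m : ℕ) : (N : ℝ) ≤ zq N q m := by
  unfold zq
  have h1 : (1 : ℝ) ≤ N := by exact_mod_cast hN
  calc (N : ℝ) = (N : ℝ) ^ (1 : ℝ) := (Real.rpow_one _).symm
    _ ≤ _ := Real.rpow_le_rpow_of_exponent_le h1 (one_le_pow₀ hq.le)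

theorem zq_one (hq : 1 < q) (hN : 1 ≤ N) (m : ℕ) : 1 ≤ zq N q m := by
  have h1 : (1 : ℝ) ≤ N := by exact_mod_cast hN
  exact h1.trans (zq_ge hq hN m)

theorem zq_pos (hq : 1 < q) (hN : 1 ≤ N) (m : ℕ) : 0 < zq N q m :=
  lt_of_lt_of_le one_pos (zq_one hq hN m)

theorem zq_succ (m : ℕ) : zq N q (m + 1) = zq N q m ^ q := by
  unfold zq
  rw [← Real.rpow_mul (Nat.cast_nonneg N), pow_succ]

theorem zq_succ_rpow (hq : 1 < q) (hN : 1 ≤ N) (m : ℕ) (e : ℝ) :
    zq N q (m + 1) ^ e = zq N q m ^ (q * e) := by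
  rw [zq_succ, ← Real.rpow_mul (zq_pos hq hN m).le]

theorem K_ge (hq : 1 < q) (hN : 1 ≤ N) (m : ℕ) : zq N q m ≤ (Kq N q m : ℝ) := by
  have h1 := Nat.lt_floor_add_one (zq N q m)
  have h2 := zq_one hq hN m
  unfold Kq
  push_cast
  linarith

theorem K_le (hq : 1 < q) (hN : 1 ≤ N) (m : ℕ) : (Kq N q m : ℝ) ≤ 3 * zq N q m := by
  have h1 := Nat.floor_le (zq_pos hq hN m).le
  have h2 := zq_one hq hN m
  unfold Kq
  push_cast
  linarith

end

section

variable {ν α σ q r x η : ℝ} {N : ℕ}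

/-- `c K θ` from below -/
theorem ckt_ge (H : Exps α σ q r x η) (hN : 1 ≤ N) (m : ℕ) :
    (zq N q m ^ r) ^ 2 ≤ (prm2 ν α σ q r η N).c m * (prm2 ν α σ q r η N).K m * th2 q x N m := by
  have h0 := zq_pos H.q1 hN m
  have e : (zq N q m ^ r) ^ 2 = zq N q m ^ (-(q * σ + η)) * zq N q m * zq N q m ^ (-x) := by
    rw [← Real.rpow_natCast, ← Real.rpow_mul h0.le]
    nth_rewrite 3 [← Real.rpow_one (zq N q m)]
    rw [← Real.rpow_add h0, ← Real.rpow_add h0]
    congr 1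
    push_cast
    have := H.req
    linarith
  rw [e]
  simp only [prm2, th2]
  refine mul_le_mul_of_nonneg_right ?_ (Real.rpow_nonneg h0.le _)
  exact mul_le_mul_of_nonneg_left (K_ge H.q1 hN m) (Real.rpow_nonneg h0.le _)

/-- `c K θ` from above -/
theorem ckt_le (H : Exps α σ q r x η) (hN : 1 ≤ N) (m : ℕ) :
    (prm2 ν α σ q r η N).c m * (prm2 ν α σ q r η N).K m * th2 q x N m ≤
      3 * (zq N q m ^ r) ^ 2 := by
  have h0 := zq_pos H.q1 hN m
  have e : 3 * (zq N q m ^ r) ^ 2 = zq N q m ^ (-(q * σ + η)) * (3 * zq N q m) * zq N q m ^ (-x) := by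
    have e1 : (zq N q m ^ r) ^ 2 = zq N q m ^ (-(q * σ + η)) * zq N q m * zq N q m ^ (-x) := by
      rw [← Real.rpow_natCast, ← Real.rpow_mul h0.le]
      nth_rewrite 3 [← Real.rpow_one (zq N q m)]
      rw [← Real.rpow_add h0, ← Real.rpow_add h0]
      congr 1
      push_cast
      have := H.req
      linarith
    rw [e1]
    ring
  rw [e]
  simp only [prm2, th2]
  refine mul_le_mul_of_nonneg_right ?_ (Real.rpow_nonneg h0.le _)
  exact mul_le_mul_of_nonneg_left (K_le H.q1 hN m) (Real.rpow_nonneg h0.le _)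

/-- the right side of the three inequalities -/
theorem rhs_ge (H : Exps α σ q r x η) (hN : 1 ≤ N) (m : ℕ) :
    1 / 4 * (1 / 2) ^ (14 * m) * zq N q m ^ r ≤ Real.sqrt (3 / 20 * (lm2 m *
      ((prm2 ν α σ q r η N).c m * (prm2 ν α σ q r η N).K m * th2 q x N m))) := by
  have h0 := zq_pos H.q1 hN m
  refine Real.le_sqrt_of_sq_le ?_
  have h1 := ckt_ge (ν := ν) H hN m
  have h2 : 0 ≤ lm2 m := by unfold lm2; positivity
  have h3 := mul_le_mul_of_nonneg_left h1 h2
  have e : lm2 m = 1 / 2 * ((1 / 2 : ℝ) ^ (14 * m)) ^ 2 := by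
    unfold lm2
    rw [← pow_mul, pow_succ]
    ring
  have h4 : (1 / 4 * (1 / 2) ^ (14 * m) * zq N q m ^ r) ^ 2 =
      1 / 16 * ((((1 / 2 : ℝ) ^ (14 * m)) ^ 2) * (zq N q m ^ r) ^ 2) := by ring
  rw [h4]
  have h5 : lm2 m * (zq N q m ^ r) ^ 2 =
      1 / 2 * ((((1 / 2 : ℝ) ^ (14 * m)) ^ 2) * (zq N q m ^ r) ^ 2) := by
    rw [e]; ring
  have h6 : 0 ≤ ((((1 / 2 : ℝ) ^ (14 * m)) ^ 2) * (zq N q m ^ r) ^ 2) := by positivity
  linarith

theorem mu_one_le (hν : 0 < ν) (H : Exps α σ q r x η) (hN : 1 ≤ N) (m : ℕ) :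
    mu (prm2 ν α σ q r η N) m 1 ≤ 18 * ν * zq N q m ^ (2 * α * q) := by
  have h0 := zq_pos H.q1 hN m
  have h1 := zq_one H.q1 hN m
  have hα := H.α0
  have e1 : ((Kq N q m : ℕ) : ℝ) ^ 2 ≤ 9 * zq N q m ^ (2 * q) := by
    have h2 := K_le H.q1 hN m
    have h3 : (0 : ℝ) ≤ (Kq N q m : ℕ) := Nat.cast_nonneg _
    calc ((Kq N q m : ℕ) : ℝ) ^ 2 ≤ (3 * zq N q m) ^ 2 := pow_le_pow_left₀ h3 h2 2
      _ = 9 * zq N q m ^ (2 : ℝ) := by
          rw [mul_pow, Real.rpow_two]; norm_num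
      _ ≤ 9 * zq N q m ^ (2 * q) := by
          refine mul_le_mul_of_nonneg_left ?_ (by norm_num)
          refine Real.rpow_le_rpow_of_exponent_le h1 ?_
          have := H.q1
          linarith
  have e2 : (((1 : ℕ) : ℝ) * ((Kq N q (m + 1) : ℕ) : ℝ)) ^ 2 ≤ 9 * zq N q m ^ (2 * q) := by
    have h2 := K_le H.q1 hN (m + 1)
    have h3 : (0 : ℝ) ≤ (Kq N q (m + 1) : ℕ) := Nat.cast_nonneg _
    rw [Nat.cast_one, one_mul]
    calc ((Kq N q (m + 1) : ℕ) : ℝ) ^ 2 ≤ (3 * zq N q (m + 1)) ^ 2 := pow_le_pow_left₀ h3 h2 2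
      _ = 9 * zq N q m ^ (2 * q) := by
          rw [mul_pow, ← Real.rpow_two (zq N q (m + 1)), zq_succ_rpow H.q1 hN]
          congr 1
          · norm_num
          · congr 1; ring
  have e3 : mu (prm2 ν α σ q r η N) m 1 ≤ ν * (18 * zq N q m ^ (2 * q)) ^ α := by
    unfold mu
    simp only [prm2]
    refine mul_le_mul_of_nonneg_left ?_ hν.le
    refine Real.rpow_le_rpow (by positivity) (by linarith) hα.le
  have e4 : (18 * zq N q m ^ (2 * q)) ^ α ≤ 18 * zq N q m ^ (2 * α * q) := by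
    rw [Real.mul_rpow (by norm_num) (by positivity), ← Real.rpow_mul h0.le]
    have h5 : α ≤ 1 := by
      have := H.α1
      linarith
    have h6 : (18 : ℝ) ^ α ≤ 18 := by
      calc (18 : ℝ) ^ α ≤ 18 ^ (1 : ℝ) := Real.rpow_le_rpow_of_exponent_le (by norm_num) h5
        _ = 18 := Real.rpow_one 18
    have h7 : 2 * q * α = 2 * α * q := by ring
    rw [h7]
    exact mul_le_mul_of_nonneg_right h6 (by positivity)
  calc _ ≤ ν * (18 * zq N q m ^ (2 * q)) ^ α := e3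
    _ ≤ ν * (18 * zq N q m ^ (2 * α * q)) := mul_le_mul_of_nonneg_left e4 hν.le
    _ = _ := by ring

theorem mu_zero_ge (hν : 0 < ν) (H : Exps α σ q r x η) (hN : 1 ≤ N) (m : ℕ) :
    ν * zq N q m ^ (2 * α * q) ≤ mu (prm2 ν α σ q r η N) (m + 1) 0 := by
  have h0 := zq_pos H.q1 hN m
  have hα := H.α0
  unfold mu
  simp only [prm2]
  refine mul_le_mul_of_nonneg_left ?_ hν.le
  have e1 : zq N q m ^ (2 * α * q) = ((zq N q (m + 1)) ^ 2) ^ α := by
    rw [← Real.rpow_two (zq N q (m + 1)), zq_succ_rpow H.q1 hN, ← Real.rpow_mul h0.le]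
    congr 1
    ring
  rw [e1]
  refine Real.rpow_le_rpow (by positivity) ?_ hα.le
  have h2 := pow_le_pow_left₀ (zq_pos H.q1 hN (m + 1)).le (K_ge H.q1 hN (m + 1)) 2
  have h3 : 0 ≤ (((0 : ℕ) : ℝ) * ((Kq N q (m + 1 + 1) : ℕ) : ℝ)) ^ 2 := sq_nonneg _
  linarith

/-- the use of the growth of the scale -/
theorem half_pow_le {L C A B : ℝ} {m : ℕ} (hB : 0 ≤ B) (h : 4 * C * (2 ^ 14) ^ m ≤ A)
    (hL : L ≤ C * B) : L ≤ 1 / 4 * (1 / 2) ^ (14 * m) * (A * B) := by
  have h1 : (0 : ℝ) < (1 / 2) ^ (14 * m) := by positivity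
  have h2 : ((1 / 2 : ℝ) ^ (14 * m)) * (2 ^ 14) ^ m = 1 := by
    rw [← pow_mul, ← mul_pow]; norm_num
  calc L ≤ C * B := hL
    _ = 1 / 4 * ((1 / 2) ^ (14 * m)) * ((4 * C * (2 ^ 14) ^ m) * B) := by
        have : 1 / 4 * ((1 / 2 : ℝ) ^ (14 * m)) * ((4 * C * (2 ^ 14) ^ m) * B) =
          C * B * (((1 / 2 : ℝ) ^ (14 * m)) * (2 ^ 14) ^ m) := by ring
        rw [this, h2, mul_one]
    _ ≤ _ := by
        refine mul_le_mul_of_nonneg_left ?_ (by positivity)
        exact mul_le_mul_of_nonneg_right h hB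

end

theorem pn1 : S_PN1 := by
  intro hZ ν α σ q r x η hν H
  obtain ⟨Z1, -, Z3, -⟩ := hZ
  have hq := H.q1
  have hα := H.α0
  have hη := H.η0
  have hr : 0 < r := by
    have := H.dis
    have : 0 < 2 * α * q := by positivity
    linarith
  obtain ⟨N₁, h₁⟩ := Z1 q (q - 1) 2 1 hq (by linarith) (by norm_num)
  obtain ⟨N₂, h₂⟩ := Z1 q 1 101 2 hq (by norm_num) (by norm_num)
  obtain ⟨N₃, h₃⟩ := Z1 q η (4 * (72 * ν)) (2 ^ 14) hq hη (by norm_num)
  obtain ⟨N₄, h₄⟩ := Z1 q ((q - 1) * r) (4 * (7 * 2 ^ 14)) (2 ^ 14) hq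
    (mul_pos (by linarith) hr) (by norm_num)
  obtain ⟨N₅, h₅⟩ := Z1 q η (4 * 4800) (2 ^ 14) hq hη (by norm_num)
  refine ⟨max 2 (max N₁ (max N₂ (max N₃ (max N₄ N₅)))), fun N hNN => ?_⟩
  simp only [max_le_iff] at hNN
  obtain ⟨hN2, hN₁, hN₂, hN₃, hN₄, hN₅⟩ := hNN
  have hN : 1 ≤ N := by omega
  have z0 := fun m => zq_pos hq hN m
  have z1 := fun m => zq_one hq hN m
  refine ⟨?_, ?_, ?_, ?_, ?_, ?_⟩
  · -- admissible parameters
    refine ⟨hν, hα, H.α1.le, fun m => ?_, ?_, fun m => ?_⟩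
    · show 1 ≤ Kq N q m
      unfold Kq
      omega
    · refine strictMono_nat_of_lt_succ fun m => ?_
      show Kq N q m < Kq N q (m + 1)
      have h6 : 2 ≤ zq N q m ^ (q - 1) := by
        have := h₁ N hN₁ m
        simpa using this
      have h7 : zq N q m + 1 ≤ zq N q (m + 1) := by
        have e : zq N q (m + 1) = zq N q m * zq N q m ^ (q - 1) := by
          rw [zq_succ]
          nth_rewrite 2 [← Real.rpow_one (zq N q m)]
          rw [← Real.rpow_add (z0 m)]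
          congr 1
          ring
        rw [e]
        have h8 := mul_le_mul_of_nonneg_left h6 (z0 m).le
        have := z1 m
        linarith
      have h8 : ⌊zq N q m⌋₊ + 1 ≤ ⌊zq N q (m + 1)⌋₊ := by
        rw [← Nat.floor_add_one (z0 m).le]
        exact Nat.floor_le_floor h7
      unfold Kq
      omega
    · show 2 ^ m * (2 * π / (Kq N q (m + 1) : ℕ)) ≤ 1 / 16
      have h6 : 101 * 2 ^ m ≤ zq N q m := by
        have := h₂ N hN₂ m
        rwa [Real.rpow_one] at this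
      have h7 : zq N q m ≤ zq N q (m + 1) := by
        rw [zq_succ]
        calc zq N q m = zq N q m ^ (1 : ℝ) := (Real.rpow_one _).symm
          _ ≤ _ := Real.rpow_le_rpow_of_exponent_le (z1 m) hq.le
      have h8 := K_ge hq hN (m + 1)
      have h9 : (0 : ℝ) < (Kq N q (m + 1) : ℕ) := lt_of_lt_of_le (z0 (m + 1)) h8
      rw [← mul_div_assoc, div_le_iff₀ h9]
      have h10 := Real.pi_lt_d2
      have h11 : (0 : ℝ) < 2 ^ m := by positivity
      have h12 : 2 ^ m * (2 * π) ≤ 2 ^ m * (2 * 3.15) := by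
        refine mul_le_mul_of_nonneg_left (by linarith) h11.le
      linarith
  · intro m
    refine le_trans ?_ (rhs_ge (ν := ν) H hN m)
    have h6 := mu_one_le hν H hN m
    have h7 := h₃ N hN₃ m
    have h8 : 4 * mu (prm2 ν α σ q r η N) m 1 ≤ 72 * ν * zq N q m ^ (r - η) := by
      have h9 : zq N q m ^ (2 * α * q) ≤ zq N q m ^ (r - η) := by
        refine Real.rpow_le_rpow_of_exponent_le (z1 m) ?_
        have := H.dis
        linarith
      have h10 := mul_le_mul_of_nonneg_left h9 (by positivity : 0 ≤ 18 * ν)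
      linarith
    have h11 := half_pow_le (Real.rpow_nonneg (z0 m).le (r - η)) h7 h8
    rwa [← Real.rpow_add (z0 m), add_sub_cancel] at h11
  · intro m
    cases m with
    | zero =>
      simp only [rr, mul_zero]
      exact Real.sqrt_nonneg _
    | succ m =>
      refine le_trans ?_ (rhs_ge (ν := ν) H hN (m + 1))
      have h6 := ckt_le (ν := ν) H hN m
      have h7 := h₄ N hN₄ m
      have h8 : 2 * rr (prm2 ν α σ q r η N) (th2 q x N) (m + 1) ≤ 7 * zq N q m ^ r := by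
        show 2 * (2 * Real.sqrt _) ≤ _
        have h9 : Real.sqrt ((prm2 ν α σ q r η N).c m * (prm2 ν α σ q r η N).K m * th2 q x N m) ≤
            7 / 4 * zq N q m ^ r := by
          refine Real.sqrt_le_iff.2 ⟨mul_nonneg (by norm_num) (Real.rpow_nonneg (z0 m).le _), ?_⟩
          have h10 := sq_nonneg (zq N q m ^ r)
          have h11 : (7 / 4 * zq N q m ^ r) ^ 2 = 49 / 16 * (zq N q m ^ r) ^ 2 := by ring
          rw [h11]
          linarith
        linarith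
      have e1 : (1 / 2 : ℝ) ^ (14 * (m + 1)) = (1 / 2) ^ 14 * (1 / 2) ^ (14 * m) := by
        rw [← pow_add]
        congr 1
        ring
      have e2 : zq N q (m + 1) ^ r = zq N q m ^ ((q - 1) * r) * zq N q m ^ r := by
        rw [zq_succ_rpow hq hN, ← Real.rpow_add (z0 m)]
        congr 1
        ring
      have h12 : 2 ^ 14 * (2 * rr (prm2 ν α σ q r η N) (th2 q x N) (m + 1)) ≤
          7 * 2 ^ 14 * zq N q m ^ r := by linarith
      have h11 := half_pow_le (Real.rpow_nonneg (z0 m).le r) h7 h12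
      rw [e1, e2]
      have e3 : 1 / 4 * ((1 / 2 : ℝ) ^ 14 * (1 / 2) ^ (14 * m)) *
          (zq N q m ^ ((q - 1) * r) * zq N q m ^ r) = (1 / 2) ^ 14 *
          (1 / 4 * (1 / 2) ^ (14 * m) * (zq N q m ^ ((q - 1) * r) * zq N q m ^ r)) := by ring
      rw [e3]
      have h13 := mul_le_mul_of_nonneg_left h11 (by positivity : (0 : ℝ) ≤ (1 / 2) ^ 14)
      refine le_trans (le_of_eq ?_) h13
      rw [← mul_assoc, ← mul_pow]
      norm_num
  · intro m
    refine le_trans ?_ (rhs_ge (ν := ν) H hN m)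
    have h7 := h₅ N hN₅ m
    have h8 : 1600 * (((prm2 ν α σ q r η N).K m : ℕ) * th2 q x N (m + 1)) ≤
        4800 * zq N q m ^ (r - η) := by
      simp only [prm2, th2]
      have h9 := K_le hq hN m
      have h10 : zq N q (m + 1) ^ (-x) = zq N q m ^ (q * (-x)) := zq_succ_rpow hq hN m _
      rw [h10]
      have h11 : (Kq N q m : ℝ) * zq N q m ^ (q * (-x)) ≤
          3 * zq N q m * zq N q m ^ (q * (-x)) :=
        mul_le_mul_of_nonneg_right h9 (Real.rpow_nonneg (z0 m).le _)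
      have h12 : zq N q m * zq N q m ^ (q * (-x)) ≤ zq N q m ^ (r - η) := by
        nth_rewrite 1 [← Real.rpow_one (zq N q m)]
        rw [← Real.rpow_add (z0 m)]
        refine Real.rpow_le_rpow_of_exponent_le (z1 m) ?_
        have := H.ang
        linarith
      linarith
    have h11 := half_pow_le (Real.rpow_nonneg (z0 m).le (r - η)) h7 h8
    rwa [← Real.rpow_add (z0 m), add_sub_cancel] at h11
  · refine ⟨1, fun m => ?_⟩
    rw [one_mul]
    show zq N q m ^ (-(q * σ + η)) ≤ (Kq N q (m + 1) : ℕ)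
    refine le_trans ?_ (K_ge hq hN (m + 1))
    rw [zq_succ]
    refine Real.rpow_le_rpow_of_exponent_le (z1 m) ?_
    have h6 : q * (-(2 * α)) ≤ q * σ := mul_le_mul_of_nonneg_left H.σ0 (by linarith)
    have h7 : q * (2 * α) ≤ q * 1 := mul_le_mul_of_nonneg_left (by have := H.α1; linarith) (by linarith)
    linarith
  · intro M
    obtain ⟨m₀, hm₀⟩ := Z3 q (2 * α * q) (|M| / ν ^ 2) 1 N hq (by positivity) (by norm_num) hN2
    refine ⟨m₀, fun m hm => ?_⟩
    have h6 := hm₀ m hm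
    rw [one_pow, mul_one, div_le_iff₀ (by positivity)] at h6
    have h7 := mu_zero_ge hν H hN m
    have h8 : (ν * zq N q m ^ (2 * α * q)) ^ 2 ≤ mu (prm2 ν α σ q r η N) (m + 1) 0 ^ 2 :=
      pow_le_pow_left₀ (mul_nonneg hν.le (Real.rpow_nonneg (z0 m).le _)) h7 2
    refine le_trans ?_ h8
    show M * zq N q m ^ (-(q * σ + η)) ≤ _
    have h9 : zq N q m ^ (-(q * σ + η)) ≤ zq N q m ^ (2 * α * q) := by
      refine Real.rpow_le_rpow_of_exponent_le (z1 m) ?_
      have h10 : q * (-(2 * α)) ≤ q * σ := mul_le_mul_of_nonneg_left H.σ0 (by linarith)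
      linarith
    have h10 : 0 ≤ zq N q m ^ (-(q * σ + η)) := Real.rpow_nonneg (z0 m).le _
    calc M * zq N q m ^ (-(q * σ + η)) ≤ |M| * zq N q m ^ (-(q * σ + η)) :=
          mul_le_mul_of_nonneg_right (le_abs_self M) h10
      _ ≤ |M| * zq N q m ^ (2 * α * q) := mul_le_mul_of_nonneg_left h9 (abs_nonneg M)
      _ ≤ (zq N q m ^ (2 * α * q) * ν ^ 2) * zq N q m ^ (2 * α * q) :=
          mul_le_mul_of_nonneg_right h6 (Real.rpow_nonneg (z0 m).le _)
      _ = (ν * zq N q m ^ (2 * α * q)) ^ 2 := by ring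

end Pool.Agent.H306.HE.TPN1
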