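import Pool.Agent.H306.HE.Stm2

/-! The parameters, second part: the times (helper840 for helper306). -/

noncomputable section

namespace Pool.Agent.H306.HE.TPN2

open Set MeasureTheory Pool.Agent.H306.HD Pool.Agent.H306.HE

open scoped Real

theorem z_pos {N : ℕ} (hN : 1 ≤ N) (q : ℝ) (m : ℕ) : 0 < zq N q m := by
  unfold zq
  have : (0 : ℝ) < N := by exact_mod_cast hN
  exact Real.rpow_pos_of_pos this _

theorem z_one {N : ℕ} (hN : 1 ≤ N) {q : ℝ} (hq : 0 < q) (m : ℕ) : 1 ≤ zq N q m := by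
  unfold zq
  have : (1 : ℝ) ≤ N := by exact_mod_cast hN
  exact Real.one_le_rpow this (pow_pos hq m).le

theorem z_succ {N : ℕ} (q : ℝ) (m : ℕ) : zq N q (m + 1) = zq N q m ^ q := by
  unfold zq
  rw [← Real.rpow_mul (Nat.cast_nonneg N), pow_succ]

theorem K_lo (N : ℕ) (q : ℝ) (m : ℕ) : zq N q m ≤ Kq N q m := by
  unfold Kq
  have h := Nat.lt_floor_add_one (zq N q m)
  have h0 : (0 : ℝ) ≤ ⌊zq N q m⌋₊ := Nat.cast_nonneg _
  push_cast
  linarith

theorem K_hi {N : ℕ} {q : ℝ} {m : ℕ} (h1 : 1 ≤ zq N q m) : (Kq N q m : ℝ) ≤ 3 * zq N q m := by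
  unfold Kq
  have h := Nat.floor_le (by linarith : 0 ≤ zq N q m)
  push_cast
  linarith

section

variable {ν α σ q r x η : ℝ} {N : ℕ}

theorem r_pos (hE : Exps α σ q r x η) : 0 < r := by
  have h1 := hE.dis
  have h2 := hE.α0
  have h3 := hE.q1
  have h4 := hE.η0
  have : 0 < 2 * α * q := by positivity
  linarith

theorem ckt (ν : ℝ) (hE : Exps α σ q r x η) (hN : 1 ≤ N) (m : ℕ) :
    zq N q m ^ (2 * r) ≤ (prm2 ν α σ q r η N).c m * (prm2 ν α σ q r η N).K m * th2 q x N m ∧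
    (prm2 ν α σ q r η N).c m * (prm2 ν α σ q r η N).K m * th2 q x N m
      ≤ 3 * zq N q m ^ (2 * r) := by
  have hq : 0 < q := by linarith [hE.q1]
  have hz := z_pos hN q m
  have h1 := z_one hN hq m
  have e : zq N q m ^ (2 * r) = zq N q m ^ (-(q * σ + η)) * zq N q m * zq N q m ^ (-x) := by
    have : 2 * r = -(q * σ + η) + 1 + -x := by
      rw [hE.req]
      ring
    rw [this, Real.rpow_add hz, Real.rpow_add hz, Real.rpow_one]
  have c0 : 0 ≤ zq N q m ^ (-(q * σ + η)) := (Real.rpow_pos_of_pos hz _).le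
  have x0 : 0 ≤ zq N q m ^ (-x) := (Real.rpow_pos_of_pos hz _).le
  show zq N q m ^ (2 * r) ≤ zq N q m ^ (-(q * σ + η)) * (Kq N q m : ℝ) * zq N q m ^ (-x) ∧
    zq N q m ^ (-(q * σ + η)) * (Kq N q m : ℝ) * zq N q m ^ (-x) ≤ 3 * zq N q m ^ (2 * r)
  rw [e]
  constructor
  · exact mul_le_mul_of_nonneg_right (mul_le_mul_of_nonneg_left (K_lo N q m) c0) x0
  · calc zq N q m ^ (-(q * σ + η)) * (Kq N q m : ℝ) * zq N q m ^ (-x)
        ≤ zq N q m ^ (-(q * σ + η)) * (3 * zq N q m) * zq N q m ^ (-x) :=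
          mul_le_mul_of_nonneg_right (mul_le_mul_of_nonneg_left (K_hi h1) c0) x0
      _ = _ := by ring

theorem sq_r (hN : 1 ≤ N) (q r : ℝ) (m : ℕ) : (zq N q m ^ r) ^ 2 = zq N q m ^ (2 * r) := by
  have hz := z_pos hN q m
  rw [← Real.rpow_natCast, ← Real.rpow_mul hz.le]
  congr 1
  push_cast
  ring

theorem rh_bd (ν : ℝ) (hE : Exps α σ q r x η) (hN : 1 ≤ N) (m : ℕ) :
    3 / 5 * zq N q m ^ r ≤ rh2 ν α σ q r x η N m ∧
    rh2 ν α σ q r x η N m ≤ 11 / 10 * zq N q m ^ r := by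
  obtain ⟨h1, h2⟩ := ckt ν hE hN m
  have hz := z_pos hN q m
  have hr0 : 0 < zq N q m ^ r := Real.rpow_pos_of_pos hz _
  have hs := sq_r hN q r m
  unfold rh2
  constructor
  · refine Real.le_sqrt_of_sq_le ?_
    rw [mul_pow, hs]
    have : 0 ≤ zq N q m ^ (2 * r) := (Real.rpow_pos_of_pos hz _).le
    linarith
  · refine Real.sqrt_le_iff.mpr ⟨by positivity, ?_⟩
    rw [mul_pow, hs]
    have : 0 ≤ zq N q m ^ (2 * r) := (Real.rpow_pos_of_pos hz _).le
    linarith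

theorem rh_pos (ν : ℝ) (hE : Exps α σ q r x η) (hN : 1 ≤ N) (m : ℕ) :
    0 < rh2 ν α σ q r x η N m := by
  have h := (rh_bd ν hE hN m).1
  have : 0 < zq N q m ^ r := Real.rpow_pos_of_pos (z_pos hN q m) _
  linarith

theorem th_pos (hN : 1 ≤ N) (q x : ℝ) (m : ℕ) : 0 < th2 q x N m :=
  Real.rpow_pos_of_pos (z_pos hN q m) _

theorem th_le (hN : 1 ≤ N) (hq : 0 < q) (hx : 0 < x) (m : ℕ) : th2 q x N m ≤ 1 :=
  Real.rpow_le_one_of_one_le_of_nonpos (z_one hN hq m) (by linarith)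

theorem ep_pos (ν α σ q r η : ℝ) (N m : ℕ) : 0 < (prm2 ν α σ q r η N).ε m := Real.exp_pos _

/-- the argument of the logarithm -/
theorem A_pos (ν : ℝ) (hE : Exps α σ q r x η) (hN : 1 ≤ N) (m : ℕ) :
    0 < 11 * rh2 ν α σ q r x η N m * th2 q x N (m + 1) /
      ((prm2 ν α σ q r η N).ε m * th2 q x N m) := by
  have h1 := rh_pos ν hE hN m
  have h2 := th_pos hN q x m
  have h3 := th_pos hN q x (m + 1)
  have h4 := ep_pos ν α σ q r η N m
  positivity

theorem tau_nonneg (ν : ℝ) (hE : Exps α σ q r x η) (hN : 1 ≤ N) (m : ℕ) :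
    0 ≤ tau2 ν α σ q r x η N m := by
  have h1 := rh_pos ν hE hN m
  have h2 := A_pos ν hE hN m
  unfold tau2
  refine mul_nonneg (by positivity) (Real.log_nonneg (by linarith))

theorem exp_tau (ν : ℝ) (hE : Exps α σ q r x η) (hN : 1 ≤ N) (m : ℕ) :
    Real.exp (rh2 ν α σ q r x η N m * tau2 ν α σ q r x η N m / 2) =
      1 + 11 * rh2 ν α σ q r x η N m * th2 q x N (m + 1) /
      ((prm2 ν α σ q r η N).ε m * th2 q x N m) := by
  have h1 := rh_pos ν hE hN m
  have h2 := A_pos ν hE hN m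
  have e : rh2 ν α σ q r x η N m * tau2 ν α σ q r x η N m / 2 =
      Real.log (1 + 11 * rh2 ν α σ q r x η N m * th2 q x N (m + 1) /
      ((prm2 ν α σ q r η N).ε m * th2 q x N m)) := by
    unfold tau2
    field_simp
  rw [e, Real.exp_log (by linarith)]

/-- bound of the logarithm -/
theorem log_le (ν : ℝ) (hE : Exps α σ q r x η) (hN : 1 ≤ N) (m : ℕ)
    (h : 14 * zq N q m ^ (r + x) * Real.exp (-(1 / 960 * zq N q m ^ (r * (1 - 1 / q)))) ≤ 1) :
    Real.log (1 + 11 * rh2 ν α σ q r x η N m * th2 q x N (m + 1) /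
      ((prm2 ν α σ q r η N).ε m * th2 q x N m)) ≤ zq N q m ^ (r * (1 - 1 / q)) / 60 := by
  have hq : 0 < q := by linarith [hE.q1]
  have hA := A_pos ν hE hN m
  have hz := z_pos hN q m
  have hz1 := z_one hN hq m
  have hr := r_pos hE
  obtain ⟨Z, hZ⟩ : ∃ Z, Z = zq N q m ^ (r * (1 - 1 / q)) := ⟨_, rfl⟩
  rw [← hZ] at h ⊢
  have e0 : (prm2 ν α σ q r η N).ε m = Real.exp (-(Z / 64)) := by
    rw [hZ]
    rfl
  have e1 : th2 q x N m = (zq N q m ^ x)⁻¹ := Real.rpow_neg hz.le x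
  have hx1 : 0 < zq N q m ^ x := Real.rpow_pos_of_pos hz _
  have hrz : 0 < zq N q m ^ r := Real.rpow_pos_of_pos hz _
  have erx : zq N q m ^ (r + x) = zq N q m ^ r * zq N q m ^ x := Real.rpow_add hz r x
  have hrx1 : 1 ≤ zq N q m ^ (r + x) := Real.one_le_rpow hz1 (by linarith [hE.x0])
  have hZ0 : 0 ≤ Z := by
    rw [hZ]
    exact (Real.rpow_pos_of_pos hz _).le
  have a1 : 11 * rh2 ν α σ q r x η N m * th2 q x N (m + 1) /
      ((prm2 ν α σ q r η N).ε m * th2 q x N m) ≤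
      13 * zq N q m ^ (r + x) * Real.exp (Z / 64) := by
    rw [e0, e1, Real.exp_neg, ← mul_inv, div_inv_eq_mul]
    have k1 := (rh_bd ν hE hN m).2
    have k2 := th_le hN hq hE.x0 (m + 1)
    have k3 := (th_pos hN q x (m + 1)).le
    have k4 := (rh_pos ν hE hN m).le
    calc 11 * rh2 ν α σ q r x η N m * th2 q x N (m + 1) * (Real.exp (Z / 64) * zq N q m ^ x)
        ≤ 11 * (11 / 10 * zq N q m ^ r) * 1 * (Real.exp (Z / 64) * zq N q m ^ x) := by
          gcongr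
      _ = 121 / 10 * (zq N q m ^ r * zq N q m ^ x * Real.exp (Z / 64)) := by ring
      _ ≤ 13 * (zq N q m ^ r * zq N q m ^ x * Real.exp (Z / 64)) := by
          have : 0 ≤ zq N q m ^ r * zq N q m ^ x * Real.exp (Z / 64) := by positivity
          linarith
      _ = 13 * zq N q m ^ (r + x) * Real.exp (Z / 64) := by
          rw [erx]
          ring
  have a2 : 1 ≤ zq N q m ^ (r + x) * Real.exp (Z / 64) := by
    have : 1 ≤ Real.exp (Z / 64) := Real.one_le_exp (by positivity)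
    nlinarith
  have a3 : 1 + 11 * rh2 ν α σ q r x η N m * th2 q x N (m + 1) /
      ((prm2 ν α σ q r η N).ε m * th2 q x N m) ≤
      14 * zq N q m ^ (r + x) * Real.exp (Z / 64) := by
    have : 14 * zq N q m ^ (r + x) * Real.exp (Z / 64) =
      13 * zq N q m ^ (r + x) * Real.exp (Z / 64) + zq N q m ^ (r + x) * Real.exp (Z / 64) := by
      ring
    linarith
  have a4 : 14 * zq N q m ^ (r + x) ≤ Real.exp (Z / 960) := by
    rw [Real.exp_neg, ← div_eq_mul_inv, div_le_one (Real.exp_pos _)] at h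
    refine h.trans (le_of_eq ?_)
    congr 1
    ring
  have a5 : 14 * zq N q m ^ (r + x) * Real.exp (Z / 64) ≤ Real.exp (Z / 60) := by
    calc 14 * zq N q m ^ (r + x) * Real.exp (Z / 64)
        ≤ Real.exp (Z / 960) * Real.exp (Z / 64) :=
          mul_le_mul_of_nonneg_right a4 (Real.exp_pos _).le
      _ = Real.exp (Z / 60) := by
          rw [← Real.exp_add]
          congr 1
          ring
  calc _ ≤ Real.log (Real.exp (Z / 60)) := Real.log_le_log (by linarith) (a3.trans a5)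
    _ = Z / 60 := Real.log_exp _

theorem tau_le (ν : ℝ) (hE : Exps α σ q r x η) (hN : 1 ≤ N) (m : ℕ)
    (h : 14 * zq N q m ^ (r + x) * Real.exp (-(1 / 960 * zq N q m ^ (r * (1 - 1 / q)))) ≤ 1) :
    tau2 ν α σ q r x η N m ≤ (zq N q m ^ (r / q))⁻¹ / 18 := by
  have hq : 0 < q := by linarith [hE.q1]
  have hz := z_pos hN q m
  have h1 := log_le ν hE hN m h
  have h2 := (rh_bd ν hE hN m).1
  have h3 := rh_pos ν hE hN m
  have hrz : 0 < zq N q m ^ r := Real.rpow_pos_of_pos hz _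
  have hZ0 : 0 < zq N q m ^ (r * (1 - 1 / q)) := Real.rpow_pos_of_pos hz _
  have e : (zq N q m ^ (r / q))⁻¹ = zq N q m ^ (r * (1 - 1 / q)) / zq N q m ^ r := by
    rw [← Real.rpow_neg hz.le, ← Real.rpow_sub hz]
    congr 1
    field_simp
    ring
  unfold tau2
  calc 2 / rh2 ν α σ q r x η N m * Real.log (1 + 11 * rh2 ν α σ q r x η N m * th2 q x N (m + 1) /
        ((prm2 ν α σ q r η N).ε m * th2 q x N m))
      ≤ 2 / rh2 ν α σ q r x η N m * (zq N q m ^ (r * (1 - 1 / q)) / 60) :=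
        mul_le_mul_of_nonneg_left h1 (by positivity)
    _ ≤ 2 / (3 / 5 * zq N q m ^ r) * (zq N q m ^ (r * (1 - 1 / q)) / 60) := by
        refine mul_le_mul_of_nonneg_right ?_ (by positivity)
        exact div_le_div_of_nonneg_left (by norm_num) (by positivity) h2
    _ = _ := by
        rw [e]
        field_simp
        norm_num

/-- the bound in terms of the previous scale -/
theorem tau_le' (ν : ℝ) (hE : Exps α σ q r x η) (hN : 1 ≤ N) (m : ℕ)
    (h : 14 * zq N q (m + 1) ^ (r + x) *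
      Real.exp (-(1 / 960 * zq N q (m + 1) ^ (r * (1 - 1 / q)))) ≤ 1) :
    tau2 ν α σ q r x η N (m + 1) ≤ (zq N q m ^ r)⁻¹ / 18 := by
  have hq : 0 < q := by linarith [hE.q1]
  have hz := z_pos hN q m
  have h1 := tau_le ν hE hN (m + 1) h
  have e : zq N q (m + 1) ^ (r / q) = zq N q m ^ r := by
    rw [z_succ, ← Real.rpow_mul hz.le]
    congr 1
    field_simp
  rwa [e] at h1

/-- growth of the scale -/
theorem z_grow (hN : 1 ≤ N)
    (h : ∀ m, 3 ≤ zq N q m ^ (r * (q - 1))) (m i : ℕ) :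
    3 ^ i * zq N q m ^ r ≤ zq N q (m + i) ^ r := by
  induction i with
  | zero => simp
  | succ i ih =>
    have hz := z_pos hN q (m + i)
    have e : zq N q (m + (i + 1)) ^ r = zq N q (m + i) ^ (r * (q - 1)) * zq N q (m + i) ^ r := by
      have : m + (i + 1) = (m + i) + 1 := by ring
      rw [this, z_succ, ← Real.rpow_mul hz.le, ← Real.rpow_add hz]
      congr 1
      ring
    rw [e, pow_succ]
    have h1 := h (m + i)
    have h2 : 0 ≤ zq N q (m + i) ^ r := (Real.rpow_pos_of_pos hz _).le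
    calc 3 ^ i * 3 * zq N q m ^ r = 3 * (3 ^ i * zq N q m ^ r) := by ring
      _ ≤ 3 * zq N q (m + i) ^ r := mul_le_mul_of_nonneg_left ih (by norm_num)
      _ ≤ _ := mul_le_mul_of_nonneg_right h1 h2

theorem W_bd (ν : ℝ) (hE : Exps α σ q r x η) (hN : 1 ≤ N)
    (h : ∀ m, 14 * zq N q m ^ (r + x) *
      Real.exp (-(1 / 960 * zq N q m ^ (r * (1 - 1 / q)))) ≤ 1)
    (h3 : ∀ m, 3 ≤ zq N q m ^ (r * (q - 1))) (m : ℕ) :
    Summable (fun i => tau2 ν α σ q r x η N (m + 1 + i)) ∧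
    W2 ν α σ q r x η N m ≤ (zq N q m ^ r)⁻¹ / 12 := by
  have hz := z_pos hN q m
  have hzr : 0 < zq N q m ^ r := Real.rpow_pos_of_pos hz _
  have hb : ∀ i, tau2 ν α σ q r x η N (m + 1 + i) ≤ (zq N q m ^ r)⁻¹ / 18 * (1 / 3) ^ i := by
    intro i
    have e : m + 1 + i = (m + i) + 1 := by ring
    rw [e]
    refine (tau_le' ν hE hN (m + i) (h _)).trans ?_
    have hg := z_grow hN h3 m i
    have h0 : 0 < (3 : ℝ) ^ i * zq N q m ^ r := by positivity
    have h1 : (zq N q (m + i) ^ r)⁻¹ ≤ ((3 : ℝ) ^ i * zq N q m ^ r)⁻¹ := inv_anti₀ h0 hg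
    calc (zq N q (m + i) ^ r)⁻¹ / 18 ≤ ((3 : ℝ) ^ i * zq N q m ^ r)⁻¹ / 18 := by gcongr
      _ = _ := by
        rw [mul_inv, one_div, inv_pow]
        ring
  have hs : Summable (fun i : ℕ => (zq N q m ^ r)⁻¹ / 18 * (1 / 3 : ℝ) ^ i) :=
    (summable_geometric_of_lt_one (by norm_num) (by norm_num)).mul_left _
  have hsum : Summable (fun i => tau2 ν α σ q r x η N (m + 1 + i)) :=
    Summable.of_nonneg_of_le (fun i => tau_nonneg ν hE hN _) hb hs
  refine ⟨hsum, ?_⟩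
  unfold W2
  refine (hsum.tsum_le_tsum hb hs).trans (le_of_eq ?_)
  rw [tsum_mul_left, tsum_geometric_of_lt_one (by norm_num) (by norm_num)]
  ring

theorem mu_le (hE : Exps α σ q r x η) (hν : 0 < ν) (hN : 1 ≤ N) (m : ℕ) :
    mu (prm2 ν α σ q r η N) m 0 ≤ 3 * ν * zq N q m ^ (2 * α) := by
  have hq : 0 < q := by linarith [hE.q1]
  have hz := z_pos hN q m
  have h1 := z_one hN hq m
  have hK0 : (0 : ℝ) ≤ Kq N q m := Nat.cast_nonneg _
  have e : mu (prm2 ν α σ q r η N) m 0 = ν * ((Kq N q m : ℝ)) ^ (2 * α) := by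
    show ν * ((Kq N q m : ℝ) ^ 2 + (((0 : ℕ) : ℝ) * (Kq N q (m + 1) : ℝ)) ^ 2) ^ α = _
    have : ((Kq N q m : ℝ) ^ 2 + (((0 : ℕ) : ℝ) * (Kq N q (m + 1) : ℝ)) ^ 2)
        = (Kq N q m : ℝ) ^ (2 : ℝ) := by
      rw [Real.rpow_two]
      push_cast
      ring
    rw [this, ← Real.rpow_mul hK0]
  rw [e]
  have h2 : (Kq N q m : ℝ) ^ (2 * α) ≤ (3 * zq N q m) ^ (2 * α) :=
    Real.rpow_le_rpow hK0 (K_hi h1) (by linarith [hE.α0])
  have h3 : (3 : ℝ) ^ (2 * α) ≤ 3 := by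
    have := Real.rpow_le_rpow_of_exponent_le (by norm_num : (1 : ℝ) ≤ 3)
      (by linarith [hE.α1] : 2 * α ≤ 1)
    rwa [Real.rpow_one] at this
  rw [Real.mul_rpow (by norm_num) hz.le] at h2
  have h4 : 0 ≤ zq N q m ^ (2 * α) := (Real.rpow_pos_of_pos hz _).le
  calc ν * (Kq N q m : ℝ) ^ (2 * α) ≤ ν * (3 ^ (2 * α) * zq N q m ^ (2 * α)) :=
        mul_le_mul_of_nonneg_left h2 hν.le
    _ ≤ ν * (3 * zq N q m ^ (2 * α)) :=
        mul_le_mul_of_nonneg_left (mul_le_mul_of_nonneg_right h3 h4) hν.le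
    _ = _ := by ring

theorem mu_nonneg (hν : 0 < ν) (m : ℕ) : 0 ≤ mu (prm2 ν α σ q r η N) m 0 := by
  show 0 ≤ ν * ((Kq N q m : ℝ) ^ 2 + (((0 : ℕ) : ℝ) * (Kq N q (m + 1) : ℝ)) ^ 2) ^ α
  positivity

end

theorem pn2 : S_PN2 := by
  intro hZ ν α σ q r x η δ hν hδ hE
  obtain ⟨Z1, Z2, -, -⟩ := hZ
  have hr := r_pos hE
  have hq1 := hE.q1
  have hq : 0 < q := by linarith
  have hη := hE.η0
  have hx := hE.x0
  have hp : 0 < r * (1 - 1 / q) := by
    have : 1 / q < 1 := by rwa [div_lt_one hq]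
    exact mul_pos hr (by linarith)
  obtain ⟨N1, h1⟩ := Z2 q (r * (1 - 1 / q)) (1 / 960) (r + x) 14 1 hq1 hp (by norm_num)
    (by norm_num) (by norm_num)
  obtain ⟨N2, h2⟩ := Z1 q (r * (q - 1)) 3 1 hq1 (mul_pos hr (by linarith)) (by norm_num)
  obtain ⟨N3, h3⟩ := Z1 q η ν 1 hq1 hη (by norm_num)
  obtain ⟨N4, h4⟩ := Z2 q (r * (1 - 1 / q)) (1 / 64) (q * x) 1 1 hq1 hp (by norm_num)
    (by norm_num) (by norm_num)
  obtain ⟨N5, h5⟩ := Z1 q (r / q) (1 / δ) 1 hq1 (by positivity) (by norm_num)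
  obtain ⟨N6, h6⟩ := Z1 q (η / q) ν 1 hq1 (by positivity) (by norm_num)
  refine ⟨1 + N1 + N2 + N3 + N4 + N5 + N6, fun N hN => ?_⟩
  have hN1 : 1 ≤ N := by omega
  have g1 : ∀ m, 14 * zq N q m ^ (r + x) *
      Real.exp (-(1 / 960 * zq N q m ^ (r * (1 - 1 / q)))) ≤ 1 := by
    intro m
    have := h1 N (by omega) m
    rwa [one_pow, mul_one] at this
  have g2 : ∀ m, 3 ≤ zq N q m ^ (r * (q - 1)) := by
    intro m
    have := h2 N (by omega) m
    rwa [one_pow, mul_one] at this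
  have g3 : ∀ m, ν ≤ zq N q m ^ η := by
    intro m
    have := h3 N (by omega) m
    rwa [one_pow, mul_one] at this
  have g4 : ∀ m, zq N q m ^ (q * x) *
      Real.exp (-(1 / 64 * zq N q m ^ (r * (1 - 1 / q)))) ≤ 1 := by
    intro m
    have := h4 N (by omega) m
    rwa [one_pow, mul_one, one_mul] at this
  have g5 : 1 / δ ≤ zq N q 0 ^ (r / q) := by
    have := h5 N (by omega) 0
    rwa [one_pow, mul_one] at this
  have g6 : ν ≤ zq N q 0 ^ (η / q) := by
    have := h6 N (by omega) 0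
    rwa [one_pow, mul_one] at this
  have T0 : ∀ m, 0 ≤ tau2 ν α σ q r x η N m := fun m => tau_nonneg ν hE hN1 m
  have W0 : ∀ m, 0 ≤ W2 ν α σ q r x η N m := fun m => tsum_nonneg fun i => T0 _
  have WB := fun m => W_bd ν hE hN1 g1 g2 m
  have hsum0 : tau2 ν α σ q r x η N 0 + W2 ν α σ q r x η N 0 ≤
      5 / 36 * (zq N q 0 ^ (r / q))⁻¹ := by
    have k1 := tau_le ν hE hN1 0 (g1 0)
    have k2 := (WB 0).2
    have hz := z_pos hN1 q 0
    have k3 : (zq N q 0 ^ r)⁻¹ ≤ (zq N q 0 ^ (r / q))⁻¹ := by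
      refine inv_anti₀ (Real.rpow_pos_of_pos hz _) ?_
      refine Real.rpow_le_rpow_of_exponent_le (z_one hN1 hq 0) ?_
      rw [div_le_iff₀ hq]
      nlinarith
    linarith
  refine ⟨T0, W0, ?_, ?_, ?_, ?_, ?_, ?_, ?_⟩
  · intro m
    have hs := (WB m).1
    unfold W2
    rw [hs.tsum_eq_zero_add]
    congr 1
    refine tsum_congr fun i => ?_
    congr 1
    ring
  · refine hsum0.trans ?_
    have hz : 0 < zq N q 0 ^ (r / q) := Real.rpow_pos_of_pos (z_pos hN1 q 0) _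
    have k : (zq N q 0 ^ (r / q))⁻¹ ≤ δ := by
      rw [inv_le_comm₀ hz hδ, ← one_div]
      exact g5
    have k0 : 0 < (zq N q 0 ^ (r / q))⁻¹ := by positivity
    linarith
  · intro m
    have e := exp_tau ν hE hN1 m
    have hρ := rh_pos ν hE hN1 m
    have t1 := th_pos hN1 q x m
    have t2 := th_pos hN1 q x (m + 1)
    have ep := ep_pos ν α σ q r η N m
    show th2 q x N (m + 1) * rh2 ν α σ q r x η N m < 3 / 32 *
      ((prm2 ν α σ q r η N).ε m * th2 q x N m) *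
      (Real.exp (rh2 ν α σ q r x η N m * tau2 ν α σ q r x η N m / 2) - 1)
    rw [e]
    have k : 3 / 32 * ((prm2 ν α σ q r η N).ε m * th2 q x N m) *
        (1 + 11 * rh2 ν α σ q r x η N m * th2 q x N (m + 1) /
        ((prm2 ν α σ q r η N).ε m * th2 q x N m) - 1) =
        33 / 32 * (th2 q x N (m + 1) * rh2 ν α σ q r x η N m) := by
      field_simp
      ring
    rw [k]
    have : 0 < th2 q x N (m + 1) * rh2 ν α σ q r x η N m := mul_pos t2 hρ
    linarith
  · intro m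
    have k2 := (WB m).2
    have hz := z_pos hN1 q m
    have hzr : 0 < zq N q m ^ r := Real.rpow_pos_of_pos hz _
    have k1 : Real.sqrt (5 / 2 * ((prm2 ν α σ q r η N).c m * (prm2 ν α σ q r η N).K m *
        th2 q x N m)) ≤ 14 / 5 * zq N q m ^ r := by
      refine Real.sqrt_le_iff.mpr ⟨by positivity, ?_⟩
      rw [mul_pow, sq_r hN1]
      have := (ckt ν hE hN1 m).2
      have h0 : 0 ≤ zq N q m ^ (2 * r) := (Real.rpow_pos_of_pos hz _).le
      linarith
    calc _ ≤ 14 / 5 * zq N q m ^ r * ((zq N q m ^ r)⁻¹ / 12) :=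
          mul_le_mul k1 k2 (W0 m) (by positivity)
      _ = 14 / 60 := by
          field_simp
          norm_num
      _ ≤ 1 / 4 := by norm_num
  · intro m
    have k2 := (WB m).2
    have hz := z_pos hN1 q m
    have hzr : 0 < zq N q m ^ r := Real.rpow_pos_of_pos hz _
    have k1 := mu_le hE hν hN1 (m + 1)
    have e1 : zq N q (m + 1) ^ (2 * α) = zq N q m ^ (2 * α * q) := by
      rw [z_succ, ← Real.rpow_mul hz.le]
      congr 1
      ring
    rw [e1] at k1
    have e2 : zq N q m ^ (2 * α * q) * zq N q m ^ η ≤ zq N q m ^ r := by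
      rw [← Real.rpow_add hz]
      exact Real.rpow_le_rpow_of_exponent_le (z_one hN1 hq m) hE.dis
    have e3 : ν * zq N q m ^ (2 * α * q) ≤ zq N q m ^ r := by
      have h0 : 0 ≤ zq N q m ^ (2 * α * q) := (Real.rpow_pos_of_pos hz _).le
      calc ν * zq N q m ^ (2 * α * q) ≤ zq N q m ^ η * zq N q m ^ (2 * α * q) :=
            mul_le_mul_of_nonneg_right (g3 m) h0
        _ = zq N q m ^ (2 * α * q) * zq N q m ^ η := by ring
        _ ≤ _ := e2
    have k3 : mu (prm2 ν α σ q r η N) (m + 1) 0 ≤ 3 * zq N q m ^ r := by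
      calc _ ≤ 3 * ν * zq N q m ^ (2 * α * q) := k1
        _ = 3 * (ν * zq N q m ^ (2 * α * q)) := by ring
        _ ≤ _ := by linarith
    calc _ ≤ 3 * zq N q m ^ r * ((zq N q m ^ r)⁻¹ / 12) :=
          mul_le_mul k3 k2 (W0 m) (by positivity)
      _ = 1 / 4 := by
          field_simp
          norm_num
      _ ≤ 1 / 2 := by norm_num
  · intro m
    have k2 := (WB m).2
    have hz := z_pos hN1 q m
    have hzr : 0 < zq N q m ^ r := Real.rpow_pos_of_pos hz _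
    have hzr1 : 1 ≤ zq N q m ^ r := Real.one_le_rpow (z_one hN1 hq m) hr.le
    have t0 := th_pos hN1 q x m
    have t1 := th_le hN1 hq hx m
    have ep := ep_pos ν α σ q r η N m
    have k3 : W2 ν α σ q r x η N m ≤ 1 / 12 := by
      have : (zq N q m ^ r)⁻¹ ≤ 1 := inv_le_one_of_one_le₀ hzr1
      linarith
    have e1 : th2 q x N (m + 1) = (zq N q m ^ (q * x))⁻¹ := by
      unfold th2
      rw [z_succ, ← Real.rpow_mul hz.le, ← Real.rpow_neg hz.le]
      congr 1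
      ring
    have hqx : 0 < zq N q m ^ (q * x) := Real.rpow_pos_of_pos hz _
    have e2 : (prm2 ν α σ q r η N).ε m ≤ th2 q x N (m + 1) := by
      rw [e1, le_inv_comm₀ ep hqx]
      have h4 := g4 m
      have e3 : Real.exp (-(1 / 64 * zq N q m ^ (r * (1 - 1 / q)))) =
          (prm2 ν α σ q r η N).ε m := by
        show _ = Real.exp (-(zq N q m ^ (r * (1 - 1 / q)) / 64))
        congr 1
        ring
      rw [e3] at h4
      rw [← one_div, le_div_iff₀ ep]
      exact h4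
    calc 9 / 4 * ((prm2 ν α σ q r η N).ε m * th2 q x N m) * W2 ν α σ q r x η N m
        ≤ 9 / 4 * ((prm2 ν α σ q r η N).ε m * 1) * (1 / 12) := by
          have := W0 m
          gcongr
      _ ≤ (prm2 ν α σ q r η N).ε m / 2 := by
          linarith
      _ ≤ _ := by linarith
  · have hz := z_pos hN1 q 0
    have k1 := mu_le hE hν hN1 0
    have k0 : 0 < zq N q 0 ^ (r / q) := Real.rpow_pos_of_pos hz _
    have e2 : zq N q 0 ^ (2 * α) * zq N q 0 ^ (η / q) ≤ zq N q 0 ^ (r / q) := by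
      rw [← Real.rpow_add hz]
      refine Real.rpow_le_rpow_of_exponent_le (z_one hN1 hq 0) ?_
      rw [le_div_iff₀ hq]
      have : (2 * α + η / q) * q = 2 * α * q + η := by
        field_simp
      rw [this]
      exact hE.dis
    have e3 : ν * zq N q 0 ^ (2 * α) ≤ zq N q 0 ^ (r / q) := by
      have h0 : 0 ≤ zq N q 0 ^ (2 * α) := (Real.rpow_pos_of_pos hz _).le
      calc ν * zq N q 0 ^ (2 * α) ≤ zq N q 0 ^ (η / q) * zq N q 0 ^ (2 * α) :=
            mul_le_mul_of_nonneg_right g6 h0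
        _ = zq N q 0 ^ (2 * α) * zq N q 0 ^ (η / q) := by ring
        _ ≤ _ := e2
    have k3 : mu (prm2 ν α σ q r η N) 0 0 ≤ 3 * zq N q 0 ^ (r / q) := by
      calc _ ≤ 3 * ν * zq N q 0 ^ (2 * α) := k1
        _ = 3 * (ν * zq N q 0 ^ (2 * α)) := by ring
        _ ≤ _ := by linarith
    calc _ ≤ 3 * zq N q 0 ^ (r / q) * (5 / 36 * (zq N q 0 ^ (r / q))⁻¹) :=
          mul_le_mul k3 hsum0 (add_nonneg (T0 0) (W0 0)) (by positivity)
      _ = 15 / 36 := by
          field_simp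
          norm_num
      _ ≤ 1 / 2 := by norm_num

end Pool.Agent.H306.HE.TPN2
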