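import Pool.Agent.H306.HE.Stm
import Pool.Agent.H306.HD.TREC

/-! Existence of the sequence of bands (`S_REC2`), adapted from `HD.TREC` (by helper390). -/

noncomputable section

namespace Pool.Agent.H306.HE.TREC2

open Set

open Pool.Agent.H306.HD Pool.Agent.H306.HD.TREC

/-- The bounds for one band. -/
def Bd2 (k : ℝ) (B b w : ℝ → ℝ) (a : ℕ → ℝ → ℝ) : Prop :=
  ∀ t ∈ Icc (0 : ℝ) 1, 0 ≤ B t ∧ 0 ≤ b t ∧ 0 ≤ a 1 t ∧
    |a 0 t| + |a 2 t| / 2 ≤ B t / 8 ∧ 0 ≤ w t ∧ w t ≤ k * b t ∧ |a 0 t| ≤ B t ∧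
    ∀ i, 1 ≤ i → |a i t| ≤ (1 / 4) ^ i * B t

lemma step2 (hEX : S_BEX) (hBD : S_BBD) (P : Prm) (θ τ W lm tn : ℕ → ℝ) (hP : P.Ok)
    (hC : ChP P θ τ W lm tn) (m : ℕ) (B : ℝ → ℝ) (hB : Inv P m B) :
    ∃ (b : ℝ → ℝ), Inv P (m + 1) b ∧ ∃ (w J : ℝ → ℝ) (a : ℕ → ℝ → ℝ),
      BSol (mu P (m + 1) 0) (P.c m) (P.ε m) (mu P m) B b w a ∧
      WRel (P.K m) (2 * θ (m + 1)) b w J ∧ Bd2 (P.K m) B b w a := by
  obtain ⟨LB, hLB⟩ := hB.lip
  have hk : (0 : ℝ) ≤ P.K m := Nat.cast_nonneg _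
  have hβ : 0 ≤ 2 * θ (m + 1) := by linarith [hC.θ_pos (m + 1)]
  obtain ⟨b, w, J, a, hsol, hrel⟩ := hEX (P.K m) (2 * θ (m + 1)) (mu P (m + 1) 0) (P.c m) (P.ε m)
    (P.ν * P.K (m + 1)) LB (mu P m) B hk hβ (mu_mono P hP m) (mu_diff P hP m) hLB
  have hbd := hBD (P.K m) (2 * θ (m + 1)) (mu P (m + 1) 0) (P.c m) (P.ε m) (mu P m) B b w J a hk hβ
    (hC.c_pos m).le (hC.ε_pos m).le (mu_mono P hP m) hB.nonneg hB.mono hsol hrel
  have hBd : Bd2 (P.K m) B b w a := by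
    intro t ht
    obtain ⟨h1, h2, h3, h4, h5, h6⟩ := hbd t ht
    have hB0 := hB.nonneg t ht
    have h42 := h6 2 (by norm_num)
    refine ⟨hB0, h1, h2, ?_, h3, h4, ?_, ?_⟩
    · norm_num at h42
      linarith
    · linarith
    · intro i hi
      refine (h6 i hi).trans ?_
      apply mul_le_mul_of_nonneg_right _ hB0
      have : (0 : ℝ) ≤ (1 / 4) ^ i := by positivity
      linarith
  refine ⟨b, ⟨?_, ?_, ?_⟩, w, J, a, hsol, hrel, hBd⟩
  · apply lip_of_deriv hsol.db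
    have hbc : ContinuousOn b (Icc 0 1) := fun t ht => (hsol.db t ht).continuousWithinAt
    have ha1 : ContinuousOn (a 1) (Icc 0 1) := fun t ht => (hsol.dα1 t ht).continuousWithinAt
    have ha0 : ContinuousOn (a 0) (Icc 0 1) := fun t ht => (hsol.dα0 t ht).continuousWithinAt
    have hBc : ContinuousOn B (Icc 0 1) := cont_of_lip hB.lip
    exact ((continuousOn_const.mul hbc).add (continuousOn_const.mul ha1)).add
      (continuousOn_const.mul (hBc.add ha0))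
  · intro t ht
    exact (hBd t ht).2.1
  · apply mono_of_deriv (g := fun t => P.c m * a 1 t + P.ε m * (B t + a 0 t))
    · intro t ht
      refine (hsol.db t ht).congr_deriv ?_
      ring
    · intro t ht
      obtain ⟨h0, h1, h2, h3, -, -, h4, h5⟩ := hBd t ht
      have h6 : 0 ≤ B t + a 0 t := by
        have := neg_abs_le (a 0 t)
        linarith
      have h7 := mul_nonneg (hC.c_pos m).le h2
      have h8 := mul_nonneg (hC.ε_pos m).le h6
      show 0 ≤ P.c m * a 1 t + P.ε m * (B t + a 0 t)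
      linarith

theorem rec2 : S_REC2 := by
  intro hEX hBD P θ τ W lm tn hP hC
  have hstep := step2 hEX hBD P θ τ W lm tn hP hC
  choose nb hnb nw nJ na hna using hstep
  let f : (m : ℕ) → {B : ℝ → ℝ // Inv P m B} := fun m =>
    Nat.rec (motive := fun m => {B : ℝ → ℝ // Inv P m B})
      ⟨fun t => θ 0 * Real.exp (-mu P 0 0 * t), inv0 P (θ 0) (hC.θ_pos 0)⟩
      (fun m B => ⟨nb m B.1 B.2, hnb m B.1 B.2⟩) m
  let b : ℕ → ℝ → ℝ := fun m => (f (m + 1)).1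
  let w : ℕ → ℝ → ℝ := fun m => nw m (f m).1 (f m).2
  let J : ℕ → ℝ → ℝ := fun m => nJ m (f m).1 (f m).2
  let a : ℕ → ℕ → ℝ → ℝ := fun m => na m (f m).1 (f m).2
  have hBB : ∀ m, BB P (θ 0) b m = (f m).1 := by
    intro m
    cases m with
    | zero => rfl
    | succ m => rfl
  refine ⟨b, w, J, a, ⟨?_, ?_, ?_⟩⟩
  · intro m
    rw [hBB m]
    exact (hna m (f m).1 (f m).2).1
  · intro m
    exact (hna m (f m).1 (f m).2).2.1
  · intro m
    rw [hBB m]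
    exact (hna m (f m).1 (f m).2).2.2

end Pool.Agent.H306.HE.TREC2
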