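import Pool.Agent.H306.HE.Stm

set_option autoImplicit false

/-! One stage of the cascade (all exponents below one half). -/

namespace Pool.Agent.H306.HE.TSTG

open Set Pool.Agent.H306.HD

theorem mono_lt {f f' : ℝ → ℝ}
    (hf : ∀ t ∈ Icc (0 : ℝ) 1, HasDerivWithinAt f (f' t) (Icc 0 1) t) {p q : ℝ} (hp : 0 ≤ p)
    (hpq : p ≤ q) (hq : q ≤ 1) (h : ∀ t ∈ Ioo p q, 0 ≤ f' t) : f p ≤ f q := by
  have hsub : Icc p q ⊆ Icc (0 : ℝ) 1 := Icc_subset_Icc hp hq
  have hm : MonotoneOn f (Icc p q) := by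
    refine monotoneOn_of_hasDerivWithinAt_nonneg (convex_Icc p q) (f' := f') ?_ ?_ ?_
    · intro t ht
      exact (hf t (hsub ht)).continuousWithinAt.mono hsub
    · intro t ht
      have h1 := interior_subset ht
      exact (hf t (hsub h1)).mono (interior_subset.trans hsub)
    · intro t ht
      rw [interior_Icc] at ht
      exact h t ht
  exact hm (left_mem_Icc.mpr hpq) (right_mem_Icc.mpr hpq) hpq

theorem exp_quarter : Real.exp (1 / 4) ≤ 4 / 3 := by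
  have h1 : Real.exp (1 / 4) ^ 4 = Real.exp 1 := by
    rw [← Real.exp_nat_mul]
    norm_num
  have h2 : Real.exp 1 < 2.7182818286 := Real.exp_one_lt_d9
  by_contra h
  push Not at h
  have h3 : (4 / 3 : ℝ) ^ 4 < Real.exp (1 / 4) ^ 4 :=
    pow_lt_pow_left₀ h (by norm_num) (by norm_num)
  rw [h1] at h3
  norm_num at h3 h2
  linarith

theorem hasDeriv_exp_mul (a t : ℝ) (S : Set ℝ) :
    HasDerivWithinAt (fun t => Real.exp (a * t)) (Real.exp (a * t) * a) S t := by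
  have h1 : HasDerivAt (fun t : ℝ => a * t) a t := by
    have := (hasDerivAt_id t).const_mul a
    rw [mul_one] at this
    exact this
  exact h1.exp.hasDerivWithinAt

theorem hasDeriv_lin (a t : ℝ) (S : Set ℝ) :
    HasDerivWithinAt (fun t => a * t) a S t := by
  have h1 : HasDerivAt (fun t : ℝ => a * t) a t := by
    have := (hasDerivAt_id t).const_mul a
    rw [mul_one] at this
    exact this
  exact h1.hasDerivWithinAt

theorem cl_eq {β x : ℝ} (h0 : 0 ≤ x) (h1 : x ≤ β) : cl β x = x := by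
  unfold cl
  rw [min_eq_left h1, max_eq_right h0]

theorem cut_eq {x : ℝ} (h : x ≤ 1 / 20) : cut x = 1 := by
  unfold cut cl
  rw [min_eq_right (by linarith), max_eq_right (by norm_num)]

/-- the first time -/
theorem first {f : ℝ → ℝ} {v a : ℝ} (hc : ContinuousOn f (Icc 0 a))
    (h : ∃ t ∈ Icc (0 : ℝ) a, v ≤ f t) :
    ∃ s, 0 ≤ s ∧ s ≤ a ∧ v ≤ f s ∧ (∀ t, 0 ≤ t → t < s → f t < v) ∧ (f 0 ≤ v → f s = v) := by
  set A : Set ℝ := Icc (0 : ℝ) a ∩ f ⁻¹' (Ici v) with hA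
  have hAcl : IsClosed A := hc.preimage_isClosed_of_isClosed isClosed_Icc isClosed_Ici
  have hAcomp : IsCompact A := isCompact_Icc.of_isClosed_subset hAcl inter_subset_left
  have hAne : A.Nonempty := by
    obtain ⟨t, ht, htb⟩ := h
    exact ⟨t, ht, htb⟩
  have hs'A : sInf A ∈ A := hAcomp.sInf_mem hAne
  have hs'low : ∀ t ∈ A, sInf A ≤ t := fun t ht => csInf_le hAcomp.bddBelow ht
  obtain ⟨⟨hs'0, hs'1⟩, hs'b⟩ := hs'A
  have hs'b : v ≤ f (sInf A) := hs'b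
  refine ⟨sInf A, hs'0, hs'1, hs'b, ?_, ?_⟩
  · intro t ht0 ht
    by_contra hcon
    push Not at hcon
    exact absurd (hs'low t ⟨⟨ht0, ht.le.trans hs'1⟩, hcon⟩) (not_le.mpr ht)
  · intro hf0
    have hiv := intermediate_value_Icc hs'0 (hc.mono (Icc_subset_Icc le_rfl hs'1))
    have hmem : v ∈ Icc (f 0) (f (sInf A)) := ⟨hf0, hs'b⟩
    obtain ⟨t, ht, htb⟩ := hiv hmem
    have htA : t ∈ A := ⟨⟨ht.1, ht.2.trans hs'1⟩, by
      show v ≤ f t
      rw [htb]⟩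
    have : t = sInf A := le_antisymm ht.2 (hs'low t htA)
    rw [← this, htb]

/-- all hypotheses, with the first time `tb` -/
structure Hyp (k l c ε θ θ' lm κ R tn tn' s W ta tb : ℝ) (μ : ℕ → ℝ) (B b wf J : ℝ → ℝ)
    (α : ℕ → ℝ → ℝ) : Prop where
  hk : 0 < k
  hc : 0 < c
  hε : 0 < ε
  hθ : 0 < θ
  hθ' : 0 < θ'
  hl : 0 ≤ l
  hlμ : l ≤ μ 1
  hlm : 0 < lm
  hlm2 : lm ≤ 1 / 2
  hκ : 0 < κ
  hR : 0 ≤ R
  htn : 0 ≤ tn
  htn' : 0 ≤ tn'
  htl : tn < lm * θ
  S : BSol l c ε μ B b wf α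
  Wr : WRel k (2 * θ') b wf J
  bd : SBd k B b wf α
  hμ : 4 * μ 1 ≤ Real.sqrt (3 / 20 * (lm * (c * k * θ)))
  hRρ : 2 * R ≤ Real.sqrt (3 / 20 * (lm * (c * k * θ)))
  hkt : k * tn' ≤ 1 / 80
  hkθ : 1600 * (k * θ') ≤ Real.sqrt (3 / 20 * (lm * (c * k * θ)))
  D : Drv B θ lm κ R tn s W ta
  tb0 : 0 ≤ tb
  tbs : tb ≤ s
  Btb : lm * θ ≤ B tb
  Blt : ∀ t, 0 ≤ t → t < tb → B t < lm * θ
  gate : tb = 0 ∨ 2 * (ε * θ) * Real.exp
    (Real.sqrt (5 / 4 * (c * k * tn)) + 5 * Real.sqrt (lm * (c * k * θ)) / κ) ≤ tn'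

namespace Hyp

variable {k l c ε θ θ' lm κ R tn tn' s W ta tb : ℝ} {μ : ℕ → ℝ} {B b wf J : ℝ → ℝ}
  {α : ℕ → ℝ → ℝ}

theorem tbW (H : Hyp k l c ε θ θ' lm κ R tn tn' s W ta tb μ B b wf J α) : tb ≤ s + W := by
  have h1 := H.tbs
  have h2 := H.D.w0
  linarith

theorem ta_le (H : Hyp k l c ε θ θ' lm κ R tn tn' s W ta tb μ B b wf J α) : ta ≤ tb := by
  by_contra h
  push Not at h
  have h1 := H.D.tiny tb H.tb0 h H.tbW
  have h2 := H.Btb
  have h3 := H.htl
  linarith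

theorem Btb_le (H : Hyp k l c ε θ θ' lm κ R tn tn' s W ta tb μ B b wf J α) {t : ℝ}
    (h1 : tb ≤ t) (h2 : t ≤ s + W) : B tb ≤ 5 * B t := by
  have h3 := H.D.gr tb t H.ta_le h1 h2
  have ht : t ∈ Icc (0 : ℝ) 1 := ⟨H.tb0.trans h1, h2.trans H.D.s1⟩
  have h4 := (H.bd t ht).1
  have h5 : Real.exp (-κ * (t - tb)) ≤ 1 := by
    apply Real.exp_le_one_iff.2
    have := mul_nonneg H.hκ.le (sub_nonneg.2 h1)
    linarith
  have h6 : 5 * B t * Real.exp (-κ * (t - tb)) ≤ 5 * B t * 1 :=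
    mul_le_mul_of_nonneg_left h5 (by positivity)
  linarith

theorem Blow (H : Hyp k l c ε θ θ' lm κ R tn tn' s W ta tb μ B b wf J α) {t : ℝ}
    (h1 : tb ≤ t) (h2 : t ≤ s + W) : lm * θ / 5 ≤ B t := by
  have h3 := H.Btb_le h1 h2
  have h4 := H.Btb
  linarith

theorem B5 (H : Hyp k l c ε θ θ' lm κ R tn tn' s W ta tb μ B b wf J α) {t t' : ℝ}
    (h1 : tb ≤ t') (h2 : t' ≤ s + W) (h3 : 0 ≤ t) (h4 : t ≤ t') : B t ≤ 5 * B t' := by
  rcases lt_or_ge t tb with h | h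
  · have h5 := H.Blt t h3 h
    have h6 := H.Btb_le h1 h2
    have h7 := H.Btb
    linarith
  · have h5 := H.D.gr t t' (H.ta_le.trans h) h4 h2
    have ht : t' ∈ Icc (0 : ℝ) 1 := ⟨H.tb0.trans h1, h2.trans H.D.s1⟩
    have h6 := (H.bd t' ht).1
    have h7 : Real.exp (-κ * (t' - t)) ≤ 1 := by
      apply Real.exp_le_one_iff.2
      have := mul_nonneg H.hκ.le (sub_nonneg.2 h4)
      linarith
    have h8 : 5 * B t' * Real.exp (-κ * (t' - t)) ≤ 5 * B t' * 1 :=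
      mul_le_mul_of_nonneg_left h7 (by positivity)
    linarith

/-- (1) -/
theorem tinyb (H : Hyp k l c ε θ θ' lm κ R tn tn' s W ta tb μ B b wf J α) (hE1 : S_E1) {t₁ : ℝ}
    (h0 : 0 ≤ t₁) (h1 : t₁ < tb) : b t₁ ≤ tn' := by
  have hg : 2 * (ε * θ) * Real.exp
      (Real.sqrt (5 / 4 * (c * k * tn)) + 5 * Real.sqrt (lm * (c * k * θ)) / κ) ≤ tn' := by
    rcases H.gate with h | h
    · exact absurd h1 (by rw [h]; exact not_lt.2 h0)
    · exact h
  have hk := H.hk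
  have hc := H.hc
  have hε := H.hε
  have hθ := H.hθ
  have hlm := H.hlm
  have hκ := H.hκ
  have htn := H.htn
  have ht1 : t₁ ≤ 1 := h1.le.trans (H.tbW.trans H.D.s1)
  set A := Real.sqrt (5 / 4 * (c * k * tn)) with hA
  set C := 5 / 2 * Real.sqrt (lm * (c * k * θ)) with hC
  have hA0 : 0 ≤ A := Real.sqrt_nonneg _
  have hA2 : A ^ 2 = 5 / 4 * (c * k * tn) := Real.sq_sqrt (by positivity)
  have hC0 : 0 ≤ C := by positivity
  have hC2 : C ^ 2 = 25 / 4 * (lm * (c * k * θ)) := by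
    rw [hC, mul_pow, Real.sq_sqrt (by positivity)]
    ring
  set e1 := Real.exp (-(κ / 2) * t₁) with he1
  have he10 : 0 < e1 := Real.exp_pos _
  have h := hE1 k l c ε (lm * θ) t₁ μ B b wf (fun t => A + C * (Real.exp (κ / 2 * t) * e1))
    (fun t => C * (Real.exp (κ / 2 * t) * (κ / 2) * e1))
    (fun t => A * t + C * (2 / κ) * ((Real.exp (κ / 2 * t) - 1) * e1)) α hk.le hc.le hε.le H.hl
    H.hlμ (by positivity) H.S H.bd ⟨h0, ht1⟩
    (fun t ht => (H.Blt t ht.1 (ht.2.trans_lt h1)).le) ?_ ?_ ?_ t₁ ⟨h0, le_rfl⟩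
  · have h2 := h.2
    have e2 : Real.exp (κ / 2 * t₁) * e1 = 1 := by
      rw [he1, ← Real.exp_add]
      have : κ / 2 * t₁ + -(κ / 2) * t₁ = 0 := by ring
      rw [this, Real.exp_zero]
    have e3 : A * t₁ + C * (2 / κ) * ((Real.exp (κ / 2 * t₁) - 1) * e1) ≤
        A + 5 * Real.sqrt (lm * (c * k * θ)) / κ := by
      have f1 : A * t₁ ≤ A * 1 := mul_le_mul_of_nonneg_left ht1 hA0
      have f2 : (Real.exp (κ / 2 * t₁) - 1) * e1 ≤ 1 := by
        have : (Real.exp (κ / 2 * t₁) - 1) * e1 = Real.exp (κ / 2 * t₁) * e1 - e1 := by ring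
        rw [this, e2]
        linarith
      have f3 : C * (2 / κ) * ((Real.exp (κ / 2 * t₁) - 1) * e1) ≤ C * (2 / κ) * 1 :=
        mul_le_mul_of_nonneg_left f2 (by positivity)
      have f4 : C * (2 / κ) * 1 = 5 * Real.sqrt (lm * (c * k * θ)) / κ := by
        rw [hC]
        field_simp
      linarith
    have e4 := Real.exp_le_exp.2 e3
    have e5 : 9 / 8 * (ε * (lm * θ)) ≤ 2 * (ε * θ) := by
      have f1 : ε * θ * lm ≤ ε * θ * (1 / 2) :=
        mul_le_mul_of_nonneg_left H.hlm2 (by positivity)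
      have f2 : 0 < ε * θ := by positivity
      linarith
    calc b t₁ ≤ _ := h2
      _ ≤ 2 * (ε * θ) * Real.exp (A + 5 * Real.sqrt (lm * (c * k * θ)) / κ) :=
        mul_le_mul e5 e4 (Real.exp_pos _).le (by positivity)
      _ ≤ tn' := hg
  · intro t ht
    have hg0 : 0 < Real.exp (κ / 2 * t) * e1 := mul_pos (Real.exp_pos _) he10
    refine ⟨by positivity, by positivity, ?_, ?_⟩
    · have := (((hasDeriv_exp_mul (κ / 2) t (Icc 0 t₁)).mul_const e1).const_mul C).const_add A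
      exact this
    · show 5 / 4 * (c * k * B t) ≤ (A + C * (Real.exp (κ / 2 * t) * e1)) ^ 2
      have hCg : 0 ≤ C * (Real.exp (κ / 2 * t) * e1) := by positivity
      have e0 : (A + C * (Real.exp (κ / 2 * t) * e1)) ^ 2 = A ^ 2 +
          2 * A * (C * (Real.exp (κ / 2 * t) * e1)) +
          C ^ 2 * (Real.exp (κ / 2 * t) * e1) ^ 2 := by ring
      have e0' : 0 ≤ 2 * A * (C * (Real.exp (κ / 2 * t) * e1)) := by positivity
      have e0'' : 0 ≤ C ^ 2 * (Real.exp (κ / 2 * t) * e1) ^ 2 := by positivity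
      rw [e0]
      rcases lt_or_ge t ta with hta | hta
      · have h3 := H.D.tiny t ht.1 hta (ht.2.trans (h1.le.trans H.tbW))
        have h4 : c * k * B t ≤ c * k * tn := mul_le_mul_of_nonneg_left h3 (by positivity)
        rw [hA2]
        linarith
      · have h3 := H.D.gr t t₁ hta ht.2 (h1.le.trans H.tbW)
        have h4 := (H.Blt t₁ h0 h1).le
        have e2 : Real.exp (-κ * (t₁ - t)) = (Real.exp (κ / 2 * t) * e1) ^ 2 := by
          rw [he1, ← Real.exp_add, ← Real.exp_nat_mul]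
          congr 1
          push_cast
          ring
        rw [e2] at h3
        have h5 : 5 * B t₁ * (Real.exp (κ / 2 * t) * e1) ^ 2 ≤
            5 * (lm * θ) * (Real.exp (κ / 2 * t) * e1) ^ 2 :=
          mul_le_mul_of_nonneg_right (by linarith) (by positivity)
        have h6 : c * k * B t ≤ c * k * (5 * (lm * θ) * (Real.exp (κ / 2 * t) * e1) ^ 2) :=
          mul_le_mul_of_nonneg_left (h3.trans h5) (by positivity)
        have e3 : C ^ 2 * (Real.exp (κ / 2 * t) * e1) ^ 2 = 5 / 4 *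
            (c * k * (5 * (lm * θ) * (Real.exp (κ / 2 * t) * e1) ^ 2)) := by
          rw [hC2]
          ring
        rw [e3]
        have := sq_nonneg A
        linarith
  · simp
  · intro t ht
    have d1 := (hasDeriv_lin A t (Icc 0 t₁)).add
      ((((hasDeriv_exp_mul (κ / 2) t (Icc 0 t₁)).sub_const 1).mul_const e1).const_mul (C * (2 / κ)))
    have e2 : A + C * (2 / κ) * (Real.exp (κ / 2 * t) * (κ / 2) * e1) =
        A + C * (Real.exp (κ / 2 * t) * e1) := by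
      field_simp
    rw [e2] at d1
    exact d1

theorem J_mono (H : Hyp k l c ε θ θ' lm κ R tn tn' s W ta tb μ B b wf J α) {p q : ℝ}
    (hp : 0 ≤ p) (hpq : p ≤ q) (hq : q ≤ 1) : J p ≤ J q :=
  mono_lt H.Wr.dJ hp hpq hq fun t ht => (H.bd t ⟨hp.trans ht.1.le, ht.2.le.trans hq⟩).2.2.2.2.1

theorem J_tb (H : Hyp k l c ε θ θ' lm κ R tn tn' s W ta tb μ B b wf J α) (hE1 : S_E1) :
    J tb ≤ 1 / 80 := by
  have htb1 : tb ≤ 1 := H.tbW.trans H.D.s1
  have h := mono_lt (f := fun t => k * tn' * t - J t) (f' := fun t => k * tn' - wf t)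
    (fun t ht => (hasDeriv_lin (k * tn') t _).sub (H.Wr.dJ t ht)) le_rfl H.tb0 htb1 ?_
  · simp only [mul_zero, H.Wr.J0, sub_zero] at h
    have h1 : k * tn' * tb ≤ k * tn' * 1 :=
      mul_le_mul_of_nonneg_left htb1 (mul_nonneg H.hk.le H.htn')
    have h2 := H.hkt
    linarith
  · intro t ht
    have h1 := H.tinyb hE1 ht.1.le ht.2
    have h2 := (H.bd t ⟨ht.1.le, ht.2.le.trans htb1⟩).2.2.2.2.2
    have h3 : k * b t ≤ k * tn' := mul_le_mul_of_nonneg_left h1 H.hk.le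
    linarith

theorem w_eq (H : Hyp k l c ε θ θ' lm κ R tn tn' s W ta tb μ B b wf J α) {t : ℝ}
    (ht : t ∈ Icc (0 : ℝ) 1) (h1 : b t ≤ 2 * θ') (h2 : J t ≤ 1 / 20) : wf t = k * b t := by
  rw [H.Wr.w_eq t ht, cl_eq (H.bd t ht).2.1 h1, cut_eq h2, mul_one]

/-- (2), first part -/
theorem gr_b (H : Hyp k l c ε θ θ' lm κ R tn tn' s W ta tb μ B b wf J α) (hE1 : S_E1)
    (hE2 : S_E2) {t₁ : ℝ} (h0 : tb ≤ t₁) (h1 : t₁ ≤ s + W)
    (hb : ∀ t ∈ Icc 0 t₁, b t ≤ 2 * θ') (hJ : ∀ t ∈ Icc 0 t₁, J t ≤ 1 / 20) :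
    ∀ t t', tb ≤ t → t ≤ t' → t' ≤ t₁ → b t ≤ 5 * b t' *
      Real.exp (-(Real.sqrt (3 / 20 * (lm * (c * k * θ))) / 2) * (t' - t)) := by
  have hθ := H.hθ
  have hlm := H.hlm
  have e : 3 / 4 * (c * k * (lm * θ / 5)) = 3 / 20 * (lm * (c * k * θ)) := by ring
  have h := hE2 hE1 k l c ε (lm * θ / 5) R tb t₁ μ B b wf α H.hk H.hc H.hε H.hl H.hlμ
    (by positivity) H.hR H.S H.bd H.tb0 h0 (h1.trans H.D.s1)
    (fun t ht => H.w_eq ⟨H.tb0.trans ht.1, ht.2.trans (h1.trans H.D.s1)⟩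
      (hb t ⟨H.tb0.trans ht.1, ht.2⟩) (hJ t ⟨H.tb0.trans ht.1, ht.2⟩))
    (fun t ht => H.Blow ht.1 (ht.2.trans h1))
    (fun t ht => by
      obtain ⟨B', d1, d2⟩ := H.D.lip t ⟨H.tb0.trans ht.1, ht.2.trans h1⟩
      exact ⟨B', d1, d2 (H.Blow ht.1 (ht.2.trans h1))⟩)
    (fun t' ht' t ht => H.B5 ht'.1 (ht'.2.trans h1) ht.1 ht.2)
    (by rw [e]; exact H.hμ) (by rw [e]; exact H.hRρ)
  rw [e] at h
  exact h

/-- (2), second part -/
theorem J_step (H : Hyp k l c ε θ θ' lm κ R tn tn' s W ta tb μ B b wf J α) (hE1 : S_E1)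
    (hE2 : S_E2) {t₁ : ℝ} (h0 : tb ≤ t₁) (h1 : t₁ ≤ s + W)
    (hb : ∀ t ∈ Icc 0 t₁, b t ≤ 2 * θ') (hJ : ∀ t ∈ Icc 0 t₁, J t ≤ 1 / 20) :
    J t₁ ≤ 1 / 40 := by
  have hk := H.hk
  have hc := H.hc
  have hθ := H.hθ
  have hlm := H.hlm
  have ht1 : t₁ ≤ 1 := h1.trans H.D.s1
  set ρ := Real.sqrt (3 / 20 * (lm * (c * k * θ))) with hρ
  have hρ0 : 0 < ρ := Real.sqrt_pos.mpr (by positivity)
  have hg := H.gr_b hE1 hE2 h0 h1 hb hJ
  rw [← hρ] at hg
  have hbt : 0 ≤ b t₁ := (H.bd t₁ ⟨H.tb0.trans h0, ht1⟩).2.1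
  set e1 := Real.exp (-(ρ / 2) * t₁) with he1
  have he10 : 0 < e1 := Real.exp_pos _
  have h := mono_lt
    (f := fun t => 10 * (k * b t₁) / ρ * e1 * Real.exp (ρ / 2 * t) - J t)
    (f' := fun t => 10 * (k * b t₁) / ρ * e1 * (Real.exp (ρ / 2 * t) * (ρ / 2)) - wf t)
    (fun t ht => ((hasDeriv_exp_mul (ρ / 2) t _).const_mul _).sub (H.Wr.dJ t ht)) H.tb0 h0 ht1 ?_
  · have e2 : e1 * Real.exp (ρ / 2 * t₁) = 1 := by
      rw [he1, ← Real.exp_add]
      have : -(ρ / 2) * t₁ + ρ / 2 * t₁ = 0 := by ring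
      rw [this, Real.exp_zero]
    have h2 := H.J_tb hE1
    have h3 : 0 ≤ 10 * (k * b t₁) / ρ * e1 * Real.exp (ρ / 2 * tb) := by positivity
    have h4 : 10 * (k * b t₁) / ρ * e1 * Real.exp (ρ / 2 * t₁) = 10 * (k * b t₁) / ρ := by
      rw [mul_assoc, e2, mul_one]
    have h5 : 10 * (k * b t₁) / ρ ≤ 1 / 80 := by
      rw [div_le_iff₀ hρ0]
      have h6 : k * b t₁ ≤ k * (2 * θ') :=
        mul_le_mul_of_nonneg_left (hb t₁ ⟨H.tb0.trans h0, le_rfl⟩) hk.le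
      have h7 := H.hkθ
      rw [← hρ] at h7
      linarith
    linarith
  · intro t ht
    have ht' : t ∈ Icc (0 : ℝ) 1 := ⟨H.tb0.trans ht.1.le, ht.2.le.trans ht1⟩
    have h2 := (H.bd t ht').2.2.2.2.2
    have h3 := hg t t₁ ht.1.le ht.2.le le_rfl
    have h4 : k * b t ≤ k * (5 * b t₁ * Real.exp (-(ρ / 2) * (t₁ - t))) :=
      mul_le_mul_of_nonneg_left h3 hk.le
    have e2 : Real.exp (-(ρ / 2) * (t₁ - t)) = e1 * Real.exp (ρ / 2 * t) := by
      rw [he1, ← Real.exp_add]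
      congr 1
      ring
    have e3 : 10 * (k * b t₁) / ρ * e1 * (Real.exp (ρ / 2 * t) * (ρ / 2)) =
        k * (5 * b t₁ * (e1 * Real.exp (ρ / 2 * t))) := by
      field_simp
      ring
    rw [e2] at h4
    rw [e3]
    linarith

/-- (2) -/
theorem J_bd (H : Hyp k l c ε θ θ' lm κ R tn tn' s W ta tb μ B b wf J α) (hE1 : S_E1)
    (hE2 : S_E2) {t₁ : ℝ} (h1 : t₁ ≤ s + W)
    (hb : ∀ t ∈ Icc 0 t₁, b t ≤ 2 * θ') : ∀ t ∈ Icc 0 t₁, J t ≤ 1 / 40 := by
  intro t ht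
  by_contra hcon
  push Not at hcon
  have ht1 : t₁ ≤ 1 := h1.trans H.D.s1
  have hJc : ContinuousOn J (Icc (0 : ℝ) 1) := fun t ht => (H.Wr.dJ t ht).continuousWithinAt
  have hiv := intermediate_value_Icc ht.1
    (hJc.mono (Icc_subset_Icc le_rfl (ht.2.trans ht1)))
  have hmem : min (J t) (1 / 20) ∈ Icc (J 0) (J t) := by
    refine ⟨?_, min_le_left _ _⟩
    rw [H.Wr.J0]
    exact le_min (by linarith) (by norm_num)
  obtain ⟨t', ht', hJt'⟩ := hiv hmem
  have hm : 1 / 40 < J t' := by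
    rw [hJt']
    exact lt_min hcon (by norm_num)
  have ht'1 : t' ≤ 1 := ht'.2.trans (ht.2.trans ht1)
  have hJ20 : J t' ≤ 1 / 20 := by
    rw [hJt']
    exact min_le_right _ _
  rcases lt_or_ge t' tb with h | h
  · have h2 := H.J_mono ht'.1 h.le (H.tbW.trans H.D.s1)
    have h3 := H.J_tb hE1
    linarith
  · have h2 := H.J_step hE1 hE2 h (ht'.2.trans (ht.2.trans h1))
      (fun u hu => hb u ⟨hu.1, hu.2.trans (ht'.2.trans ht.2)⟩)
      (fun u hu => (H.J_mono hu.1 hu.2 ht'1).trans hJ20)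
    linarith

/-- the first integral bound with the constant rate -/
theorem cα_le (H : Hyp k l c ε θ θ' lm κ R tn tn' s W ta tb μ B b wf J α) (hE1 : S_E1) :
    ∀ t ∈ Icc (0 : ℝ) (s + W), c * α 1 t ≤ Real.sqrt (5 / 2 * (c * k * θ)) * b t := by
  have hk := H.hk
  have hc := H.hc
  have hθ := H.hθ
  set r := Real.sqrt (5 / 2 * (c * k * θ)) with hr
  have hr0 : 0 ≤ r := Real.sqrt_nonneg _
  have hr2 : r ^ 2 = 5 / 2 * (c * k * θ) := Real.sq_sqrt (by positivity)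
  intro t ht
  refine (hE1 k l c ε (2 * θ) (s + W) μ B b wf (fun _ => r) (fun _ => 0) (fun t => r * t) α hk.le
    hc.le H.hε.le H.hl H.hlμ (by positivity) H.S H.bd ⟨add_nonneg H.D.s0 H.D.w0, H.D.s1⟩ H.D.up
    (fun t ht => ⟨hr0, le_rfl, hasDerivWithinAt_const _ _ _, ?_⟩) (by simp)
    (fun t _ => hasDeriv_lin r t _) t ht).1
  rw [hr2]
  have h1 : c * k * B t ≤ c * k * (2 * θ) := mul_le_mul_of_nonneg_left (H.D.up t ht) (by positivity)
  linarith

theorem der_le (H : Hyp k l c ε θ θ' lm κ R tn tn' s W ta tb μ B b wf J α) (hE1 : S_E1) :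
    ∀ t ∈ Icc (0 : ℝ) (s + W), -l * b t + c * α 1 t + ε * (B t + α 0 t) ≤
      Real.sqrt (5 / 2 * (c * k * θ)) * b t + 9 / 4 * (ε * θ) := by
  intro t ht
  have ht1 : t ∈ Icc (0 : ℝ) 1 := ⟨ht.1, ht.2.trans H.D.s1⟩
  obtain ⟨g1, g2, g3, g4, -⟩ := H.bd t ht1
  have g5 := H.D.up t ht
  have a1 := abs_le.mp (le_refl |α 0 t|)
  have g6 : B t + α 0 t ≤ 9 / 4 * θ := by linarith [a1.2, abs_nonneg (α 2 t)]
  have g7 : ε * (B t + α 0 t) ≤ ε * (9 / 4 * θ) := mul_le_mul_of_nonneg_left g6 H.hε.le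
  have g8 := mul_nonneg H.hl g2
  have g9 := H.cα_le hE1 t ht
  linarith

theorem der_ge (H : Hyp k l c ε θ θ' lm κ R tn tn' s W ta tb μ B b wf J α) :
    ∀ t ∈ Icc (0 : ℝ) 1, 0 ≤ l * b t + (-l * b t + c * α 1 t + ε * (B t + α 0 t)) := by
  intro t ht
  obtain ⟨g1, g2, g3, g4, -⟩ := H.bd t ht
  have hc := H.hc
  have hε := H.hε
  have a1 := abs_le.mp (le_refl |α 0 t|)
  have g6 : 0 ≤ B t + α 0 t := by linarith [a1.1, abs_nonneg (α 2 t)]
  have g7 : 0 ≤ ε * (B t + α 0 t) := by positivity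
  have g8 : 0 ≤ c * α 1 t := by positivity
  linarith

/-- (3) -/
theorem hit (H : Hyp k l c ε θ θ' lm κ R tn tn' s W ta tb μ B b wf J α) (hE1 : S_E1)
    (hE2 : S_E2) {τ : ℝ} (hτ : 0 ≤ τ) (hτW : τ ≤ W)
    (hgrow : θ' * Real.sqrt (3 / 8 * (c * k * θ)) <
      3 / 32 * (ε * θ) * (Real.exp (Real.sqrt (3 / 8 * (c * k * θ)) * τ / 2) - 1)) :
    ∃ t ∈ Icc (0 : ℝ) (s + τ), θ' ≤ b t := by
  by_contra hno
  push Not at hno
  obtain ⟨hb0, hα0, hdb, hdα0, hdα1, hdα, -⟩ := H.S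
  have hs0 := H.D.s0
  have hs1 := H.D.s1
  have hc := H.hc
  have hk := H.hk
  have hε := H.hε
  have hθ := H.hθ
  have hθ' := H.hθ'
  have hlμ := H.hlμ
  have hl := H.hl
  have hlm := H.hlm
  have hbd := H.bd
  have hJ := H.J_bd hE1 hE2 (t₁ := s + τ) (by linarith)
    (fun t ht => by have := hno t ht; linarith)
  set r := Real.sqrt (5 / 2 * (c * k * θ)) with hr
  set ρ := Real.sqrt (3 / 8 * (c * k * θ)) with hρ
  have hckθ : 0 < c * k * θ := by positivity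
  have hr0 : 0 < r := Real.sqrt_pos.mpr (by positivity)
  have hρ0 : 0 < ρ := Real.sqrt_pos.mpr (by positivity)
  have hr2 : r ^ 2 = 5 / 2 * (c * k * θ) := Real.sq_sqrt (by positivity)
  have hρ2 : ρ ^ 2 = 3 / 8 * (c * k * θ) := Real.sq_sqrt (by positivity)
  have hρμ : μ 1 ≤ ρ / 2 := by
    have h1 := H.hμ
    have h2 : Real.sqrt (3 / 20 * (lm * (c * k * θ))) ≤ ρ := by
      apply Real.sqrt_le_sqrt
      have h3 : lm * (c * k * θ) ≤ 1 / 2 * (c * k * θ) :=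
        mul_le_mul_of_nonneg_right H.hlm2 hckθ.le
      linarith
    have h3 : 0 ≤ ρ := hρ0.le
    linarith
  set D := 3 / 4 * (ε * θ) / ρ with hD
  have hDρ : D * ρ = 3 / 4 * (ε * θ) := by rw [hD]; field_simp
  have hm := mono_lt (f := fun t => Real.exp (-(ρ / 2) * t) * (b t + c / ρ * α 1 t + D))
    (f' := fun t => Real.exp (-(ρ / 2) * t) * (-(ρ / 2)) * (b t + c / ρ * α 1 t + D) +
      Real.exp (-(ρ / 2) * t) * ((-l * b t + c * α 1 t + ε * (B t + α 0 t)) +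
        c / ρ * (-μ 1 * α 1 t + wf t * (B t + α 0 t + α 2 t / 2))))
    (fun u hu => (hasDeriv_exp_mul _ _ _).mul
      (((hdb u hu).add ((hdα1 u hu).const_mul (c / ρ))).add_const D))
    (p := s) (q := s + τ) hs0 (by linarith) (by linarith) ?_
  · have hsτ : s + τ ∈ Icc (0 : ℝ) (s + W) := ⟨by linarith, by linarith⟩
    have hsτ1 : s + τ ∈ Icc (0 : ℝ) 1 := ⟨by linarith, by linarith⟩
    have hs1' : s ∈ Icc (0 : ℝ) 1 := ⟨hs0, by linarith⟩
    obtain ⟨g1, g2, g3, g4, -⟩ := hbd s hs1'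
    have hD0 : 0 < D := by rw [hD]; positivity
    have hYs : 0 ≤ b s + c / ρ * α 1 s := by positivity
    have e1 : Real.exp (-(ρ / 2) * s) = Real.exp (ρ * τ / 2) * Real.exp (-(ρ / 2) * (s + τ)) := by
      rw [← Real.exp_add]
      congr 1
      ring
    rw [e1] at hm
    have hE := Real.exp_pos (-(ρ / 2) * (s + τ))
    have hm2 : Real.exp (ρ * τ / 2) * (b s + c / ρ * α 1 s + D) ≤
        b (s + τ) + c / ρ * α 1 (s + τ) + D := by
      have : Real.exp (-(ρ / 2) * (s + τ)) *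
          (Real.exp (ρ * τ / 2) * (b s + c / ρ * α 1 s + D)) ≤
          Real.exp (-(ρ / 2) * (s + τ)) * (b (s + τ) + c / ρ * α 1 (s + τ) + D) := by
        linarith
      exact le_of_mul_le_mul_left this hE
    have hEτ := Real.exp_pos (ρ * τ / 2)
    have hm3 : Real.exp (ρ * τ / 2) * D ≤ b (s + τ) + c / ρ * α 1 (s + τ) + D := by
      have := mul_nonneg hEτ.le hYs
      linarith
    have hr3 : r ≤ 3 * ρ := by
      have : r ^ 2 ≤ (3 * ρ) ^ 2 := by
        rw [mul_pow, hr2, hρ2]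
        linarith
      exact (abs_le_of_sq_le_sq' this (by positivity)).2
    have hx := H.cα_le hE1 (s + τ) hsτ
    rw [← hr] at hx
    have hbt := hno (s + τ) ⟨by linarith, le_rfl⟩
    have hbt0 := (hbd (s + τ) hsτ1).2.1
    have hX : c / ρ * α 1 (s + τ) ≤ 3 * b (s + τ) := by
      rw [div_mul_eq_mul_div, div_le_iff₀ hρ0]
      have : r * b (s + τ) ≤ 3 * ρ * b (s + τ) := mul_le_mul_of_nonneg_right hr3 hbt0
      linarith
    have hm4 : (Real.exp (ρ * τ / 2) - 1) * D < 4 * θ' := by linarith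
    have hm5 : (Real.exp (ρ * τ / 2) - 1) * (D * ρ) < 4 * (θ' * ρ) := by
      have := mul_lt_mul_of_pos_right hm4 hρ0
      linarith
    rw [hDρ] at hm5
    have hθρ : 0 < θ' * ρ := by positivity
    linarith
  · intro u hu
    have huW : u ∈ Icc s (s + W) := ⟨hu.1.le, by linarith [hu.2]⟩
    have hu1 : u ∈ Icc (0 : ℝ) 1 := ⟨hs0.trans hu.1.le, by linarith [hu.2]⟩
    obtain ⟨g1, g2, g3, g4, -⟩ := hbd u hu1
    have g5 := H.D.low u huW
    have hbu : b u < θ' := hno u ⟨hs0.trans hu.1.le, hu.2.le⟩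
    have hcu := H.w_eq hu1 (by linarith) (by
      have := hJ u ⟨hs0.trans hu.1.le, hu.2.le⟩
      linarith)
    have a1 := abs_le.mp (le_refl |α 0 u|)
    have a2 := abs_le.mp (le_refl |α 2 u|)
    have g6 : 3 / 8 * θ ≤ B u + α 0 u := by linarith [a1.1, abs_nonneg (α 2 u)]
    have g7 : 3 / 8 * θ ≤ B u + α 0 u + α 2 u / 2 := by linarith [a1.1, a2.1]
    have hX0 : 0 ≤ c / ρ * α 1 u := by positivity
    have hXc : c * α 1 u = ρ * (c / ρ * α 1 u) := by field_simp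
    have g8 : ρ * b u ≤ c / ρ * (k * b u * (B u + α 0 u + α 2 u / 2)) := by
      have e1 : ρ * b u = c / ρ * (k * b u * (3 / 8 * θ)) := by
        have : ρ * ρ = 3 / 8 * (c * k * θ) := by rw [← hρ2]; ring
        field_simp
        linear_combination (8 * b u) * this
      rw [e1]
      refine mul_le_mul_of_nonneg_left ?_ (by positivity)
      exact mul_le_mul_of_nonneg_left g7 (by positivity)
    have g9 : ε * (3 / 8 * θ) ≤ ε * (B u + α 0 u) := mul_le_mul_of_nonneg_left g6 hε.le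
    have g10 : l * b u ≤ μ 1 * b u := mul_le_mul_of_nonneg_right hlμ g2
    have g11 : ρ / 2 * (b u + c / ρ * α 1 u) ≤ (ρ - μ 1) * (b u + c / ρ * α 1 u) :=
      mul_le_mul_of_nonneg_right (by linarith) (by linarith)
    have hE := Real.exp_pos (-(ρ / 2) * u)
    have key : 0 ≤ -(ρ / 2) * (b u + c / ρ * α 1 u + D) +
        ((-l * b u + c * α 1 u + ε * (B u + α 0 u)) +
        c / ρ * (-μ 1 * α 1 u + wf u * (B u + α 0 u + α 2 u / 2))) := by
      rw [hcu]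
      have e2 : c / ρ * (-μ 1 * α 1 u + k * b u * (B u + α 0 u + α 2 u / 2)) =
          -μ 1 * (c / ρ * α 1 u) + c / ρ * (k * b u * (B u + α 0 u + α 2 u / 2)) := by ring
      rw [e2, hXc]
      have e3 : ρ / 2 * D = 3 / 8 * (ε * θ) := by linarith
      linarith
    have := mul_nonneg hE.le key
    linarith

/-- (4), upper bound -/
theorem up_b (H : Hyp k l c ε θ θ' lm κ R tn tn' s W ta tb μ B b wf J α) (hE1 : S_E1)
    {s' w : ℝ} (hs'0 : 0 ≤ s') (hs'W : s' + w ≤ s + W) (hbs' : b s' = θ')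
    (hlt : ∀ t, 0 ≤ t → t < s' → b t < θ')
    (hrw : Real.sqrt (5 / 2 * (c * k * θ)) * w ≤ 1 / 4) (hεw : 9 / 4 * (ε * θ) * w ≤ θ' / 2) :
    ∀ t ∈ Icc 0 (s' + w), b t ≤ 2 * θ' := by
  obtain ⟨hb0, hα0, hdb, hdα0, hdα1, hdα, -⟩ := H.S
  have hs1 := H.D.s1
  have hε := H.hε
  have hθ := H.hθ
  have hθ' := H.hθ'
  have hk := H.hk
  have hc := H.hc
  have hder := H.der_le hE1
  set r := Real.sqrt (5 / 2 * (c * k * θ)) with hr
  have hr0 : 0 < r := Real.sqrt_pos.mpr (by positivity)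
  intro t ht
  rcases lt_or_ge t s' with hl' | hge
  · have := hlt t ht.1 hl'
    linarith
  · have ht1 : t ≤ 1 := by linarith [ht.2]
    have htW : t ≤ s + W := by linarith [ht.2]
    have hm := mono_lt
      (f := fun t => 9 / 4 * (ε * θ) * t - Real.exp (-r * t) * (Real.exp (r * s') * b t))
      (f' := fun t => 9 / 4 * (ε * θ) - (Real.exp (-r * t) * (-r) * (Real.exp (r * s') * b t) +
        Real.exp (-r * t) * (Real.exp (r * s') *
          (-l * b t + c * α 1 t + ε * (B t + α 0 t)))))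
      (fun u hu => (hasDeriv_lin _ _ _).sub
        ((hasDeriv_exp_mul _ _ _).mul ((hdb u hu).const_mul (Real.exp (r * s')))))
      hs'0 hge ht1 ?_
    · have e1 : Real.exp (-r * s') * (Real.exp (r * s') * b s') = θ' := by
        rw [← mul_assoc, ← Real.exp_add, hbs']
        have : -r * s' + r * s' = 0 := by ring
        rw [this, Real.exp_zero, one_mul]
      have e2 : Real.exp (-r * t) * (Real.exp (r * s') * b t) =
          Real.exp (-(r * (t - s'))) * b t := by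
        rw [← mul_assoc, ← Real.exp_add]
        congr 2
        ring
      rw [e1, e2] at hm
      have htw : t - s' ≤ w := by linarith [ht.2]
      have hts : 0 ≤ t - s' := by linarith
      have f1 : 9 / 4 * (ε * θ) * (t - s') ≤ 9 / 4 * (ε * θ) * w :=
        mul_le_mul_of_nonneg_left htw (by positivity)
      have f2 : Real.exp (-(r * (t - s'))) * b t ≤ 3 / 2 * θ' := by linarith
      have f3 : r * (t - s') ≤ 1 / 4 := (mul_le_mul_of_nonneg_left htw hr0.le).trans hrw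
      have f4 : Real.exp (r * (t - s')) ≤ 4 / 3 :=
        (Real.exp_le_exp.mpr f3).trans exp_quarter
      have f5 : b t = Real.exp (r * (t - s')) * (Real.exp (-(r * (t - s'))) * b t) := by
        rw [← mul_assoc, ← Real.exp_add]
        rw [add_neg_cancel, Real.exp_zero, one_mul]
      rw [f5]
      calc Real.exp (r * (t - s')) * (Real.exp (-(r * (t - s'))) * b t) ≤
            Real.exp (r * (t - s')) * (3 / 2 * θ') :=
            mul_le_mul_of_nonneg_left f2 (Real.exp_pos _).le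
        _ ≤ 4 / 3 * (3 / 2 * θ') := mul_le_mul_of_nonneg_right f4 (by positivity)
        _ = 2 * θ' := by ring
    · intro u hu
      have huW : u ∈ Icc (0 : ℝ) (s + W) := ⟨hs'0.trans hu.1.le, hu.2.le.trans htW⟩
      have g1 := hder u huW
      have hE := Real.exp_pos (-r * u)
      have hE2 := Real.exp_pos (r * s')
      have hEE : Real.exp (-r * u) * Real.exp (r * s') ≤ 1 := by
        rw [← Real.exp_add]
        apply Real.exp_le_one_iff.mpr
        have := mul_le_mul_of_nonneg_left hu.1.le hr0.le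
        linarith
      have hEE0 : 0 < Real.exp (-r * u) * Real.exp (r * s') := mul_pos hE hE2
      have g2 : Real.exp (-r * u) * Real.exp (r * s') *
          (-l * b u + c * α 1 u + ε * (B u + α 0 u) - r * b u) ≤
          Real.exp (-r * u) * Real.exp (r * s') * (9 / 4 * (ε * θ)) :=
        mul_le_mul_of_nonneg_left (by linarith) hEE0.le
      have g3 : Real.exp (-r * u) * Real.exp (r * s') * (9 / 4 * (ε * θ)) ≤
          1 * (9 / 4 * (ε * θ)) := mul_le_mul_of_nonneg_right hEE (by positivity)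
      linarith

/-- (4), lower bound -/
theorem low_b (H : Hyp k l c ε θ θ' lm κ R tn tn' s W ta tb μ B b wf J α)
    {s' w : ℝ} (hs'0 : 0 ≤ s') (hs'W : s' + w ≤ s + W) (hbs' : b s' = θ')
    (hlw : l * w ≤ 1 / 2) : ∀ t ∈ Icc s' (s' + w), θ' / 2 ≤ b t := by
  obtain ⟨hb0, hα0, hdb, hdα0, hdα1, hdα, -⟩ := H.S
  have hs1 := H.D.s1
  have hθ' := H.hθ'
  have hl := H.hl
  have hblow := H.der_ge
  intro t ht
  have ht1 : t ≤ 1 := by linarith [ht.2]
  have hm := mono_lt (f := fun t => Real.exp (l * t) * b t)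
    (f' := fun t => Real.exp (l * t) * l * b t +
      Real.exp (l * t) * (-l * b t + c * α 1 t + ε * (B t + α 0 t)))
    (fun u hu => (hasDeriv_exp_mul _ _ _).mul (hdb u hu)) hs'0 ht.1 ht1 ?_
  · rw [hbs'] at hm
    have e1 : Real.exp (l * t) = Real.exp (l * (t - s')) * Real.exp (l * s') := by
      rw [← Real.exp_add]
      congr 1
      ring
    rw [e1] at hm
    have hE := Real.exp_pos (l * s')
    have hm2 : θ' ≤ Real.exp (l * (t - s')) * b t := by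
      have : Real.exp (l * s') * θ' ≤ Real.exp (l * s') * (Real.exp (l * (t - s')) * b t) := by
        linarith
      exact le_of_mul_le_mul_left this hE
    have htw : t - s' ≤ w := by linarith [ht.2]
    have hts : 0 ≤ t - s' := by linarith [ht.1]
    have f3 : l * (t - s') ≤ 1 / 2 := (mul_le_mul_of_nonneg_left htw hl).trans hlw
    have f4 : 1 / 2 ≤ Real.exp (-(l * (t - s'))) := by
      have := Real.add_one_le_exp (-(l * (t - s')))
      linarith
    have f5 : b t = Real.exp (-(l * (t - s'))) * (Real.exp (l * (t - s')) * b t) := by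
      rw [← mul_assoc, ← Real.exp_add, neg_add_cancel, Real.exp_zero, one_mul]
    rw [f5]
    calc θ' / 2 = 1 / 2 * θ' := by ring
      _ ≤ Real.exp (-(l * (t - s'))) * θ' := mul_le_mul_of_nonneg_right f4 hθ'.le
      _ ≤ _ := mul_le_mul_of_nonneg_left hm2 (Real.exp_pos _).le
  · intro u hu
    have hu1 : u ∈ Icc (0 : ℝ) 1 := ⟨hs'0.trans hu.1.le, hu.2.le.trans ht1⟩
    have g1 := hblow u hu1
    have hE := Real.exp_pos (l * u)
    have := mul_nonneg hE.le g1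
    linarith

/-- (5) -/
theorem lip_b (H : Hyp k l c ε θ θ' lm κ R tn tn' s W ta tb μ B b wf J α) (hE1 : S_E1) {lm' : ℝ}
    (h7 : 45 * (ε * θ) ≤ Real.sqrt (c * k * θ) * (lm' * θ')) {t : ℝ} (ht : t ∈ Icc 0 (s + W))
    (hb : lm' * θ' / 5 ≤ b t) :
    -l * b t + c * α 1 t + ε * (B t + α 0 t) ≤ 2 * Real.sqrt (c * k * θ) * b t := by
  have hk := H.hk
  have hc := H.hc
  have hθ := H.hθ
  have h1 := H.der_le hE1 t ht
  set r := Real.sqrt (5 / 2 * (c * k * θ)) with hr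
  set ρ := Real.sqrt (c * k * θ) with hρ
  have hρ0 : 0 ≤ ρ := Real.sqrt_nonneg _
  have hr2 : r ^ 2 = 5 / 2 * (c * k * θ) := Real.sq_sqrt (by positivity)
  have hρ2 : ρ ^ 2 = c * k * θ := Real.sq_sqrt (by positivity)
  have hckθ : 0 < c * k * θ := by positivity
  have h2 : r ≤ 7 / 4 * ρ := by
    have : r ^ 2 ≤ (7 / 4 * ρ) ^ 2 := by
      rw [mul_pow, hr2, hρ2]
      linarith
    exact (abs_le_of_sq_le_sq' this (by positivity)).2
  have hb0 : 0 ≤ b t := (H.bd t ⟨ht.1, ht.2.trans H.D.s1⟩).2.1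
  have h3 : r * b t ≤ 7 / 4 * ρ * b t := mul_le_mul_of_nonneg_right h2 hb0
  have h4 : ρ * (lm' * θ' / 5) ≤ ρ * b t := mul_le_mul_of_nonneg_left hb hρ0
  linarith

end Hyp

theorem stg : S_STG := by
  intro hE1 hE2 k l c ε θ θ' lm lm' κ R tn tn' s τ w ta μ B b wf J α hk hc hε hθ hθ' hl hlμ hτ hw
    hlm hlm2 hlm' hκ hR htn htn' htl S Wr bd hμ hRρ hgrow hrw hlw hεw hkt hkθ h7 hgate D
  have hBc : ContinuousOn B (Icc 0 (s + (τ + w))) := by
    intro t ht
    obtain ⟨B', d1, -⟩ := D.lip t ht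
    exact d1.continuousWithinAt.mono (Icc_subset_Icc le_rfl D.s1)
  obtain ⟨tb, tb0, tbs, Btb, Blt, -⟩ := first (f := B) (v := lm * θ) (a := s)
    (hBc.mono (Icc_subset_Icc le_rfl (by linarith))) ⟨s, ⟨D.s0, le_rfl⟩, by
      have h1 := D.low s ⟨le_rfl, by linarith⟩
      have h2 : lm * θ ≤ 1 / 2 * θ := mul_le_mul_of_nonneg_right hlm2 hθ.le
      linarith⟩
  have gate : tb = 0 ∨ 2 * (ε * θ) * Real.exp
      (Real.sqrt (5 / 4 * (c * k * tn)) + 5 * Real.sqrt (lm * (c * k * θ)) / κ) ≤ tn' := by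
    rcases hgate with h | h
    · left
      by_contra hne
      have hpos : 0 < tb := lt_of_le_of_ne tb0 (Ne.symm hne)
      have h1 := Blt 0 le_rfl hpos
      have h2 := h 0 ⟨le_rfl, by linarith [D.s0]⟩
      linarith
    · right
      exact h
  have H : Hyp k l c ε θ θ' lm κ R tn tn' s (τ + w) ta tb μ B b wf J α :=
    ⟨hk, hc, hε, hθ, hθ', hl, hlμ, hlm, hlm2, hκ, hR, htn, htn', htl, S, Wr, bd, hμ, hRρ, hkt, hkθ,
      D, tb0, tbs, Btb, Blt, gate⟩
  have hhit := H.hit hE1 hE2 hτ (by linarith) hgrow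
  have hbc : ContinuousOn b (Icc (0 : ℝ) 1) := fun t ht => (S.db t ht).continuousWithinAt
  have hs1 := D.s1
  obtain ⟨s', hs'0, hs'1, -, hlt, heq⟩ := first (f := b) (v := θ') (a := s + τ)
    (hbc.mono (Icc_subset_Icc le_rfl (by linarith))) hhit
  have hbs' := heq (by rw [S.b0]; exact hθ'.le)
  have hs'W : s' + w ≤ s + (τ + w) := by linarith
  have hup := H.up_b hE1 hs'0 hs'W hbs' hlt hrw hεw
  have hJ := H.J_bd hE1 hE2 hs'W hup
  have hJ' : ∀ t ∈ Icc 0 (s' + w), J t ≤ 1 / 20 := fun t ht => (hJ t ht).trans (by norm_num)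
  refine ⟨s', tb, hs'1, hbs', ?_, hJ'⟩
  refine ⟨hs'0, hw, by linarith, tb0, hup, H.low_b hs'0 hs'W hbs' hlw, ?_, ?_, ?_⟩
  · intro t ht0 ht _
    exact H.tinyb hE1 ht0 ht
  · intro t t' h1 h2 h3
    rcases le_or_gt tb (s' + w) with h | h
    · exact H.gr_b hE1 hE2 h hs'W hup hJ' t t' h1 h2 h3
    · exact absurd (h1.trans (h2.trans h3)) (not_le.2 h)
  · intro t ht
    have ht1 : t ∈ Icc (0 : ℝ) 1 := ⟨ht.1, by linarith [ht.2]⟩
    exact ⟨_, S.db t ht1, fun hb => H.lip_b hE1 h7 ⟨ht.1, ht.2.trans hs'W⟩ hb⟩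

end Pool.Agent.H306.HE.TSTG
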