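import Pool.Agent.H306.HE.Stm

/-! The windows by induction from the statement about one stage, second version (helper307, for helper306;
adapted from `HD.TWIN` of helper860). -/

set_option autoImplicit false

noncomputable section

namespace Pool.Agent.H306.HE.TWN

open Set MeasureTheory

open scoped Real

open Pool.Agent.H306.CK Pool.Agent.H306.DS Pool.Agent.H306.HD Pool.Agent.H306.HE

theorem mu_nonneg (P : Prm) (hP : P.Ok) (m j : ℕ) : 0 ≤ mu P m j := by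
  unfold mu
  have := hP.ν_pos.le
  positivity

theorem mu_succ_le (P : Prm) (hP : P.Ok) (m : ℕ) : mu P (m + 1) 0 ≤ mu P m 1 := by
  unfold mu
  refine mul_le_mul_of_nonneg_left (Real.rpow_le_rpow (by positivity) ?_ hP.α_pos.le) hP.ν_pos.le
  push_cast
  have h := sq_nonneg (P.K m : ℝ)
  linarith

theorem K_pos (P : Prm) (hP : P.Ok) (m : ℕ) : (0 : ℝ) < P.K m := by
  have := hP.K_one m
  exact_mod_cast this

theorem kp_pos {P : Prm} {θ τ W lm tn : ℕ → ℝ} (hP : P.Ok) (hC : ChP P θ τ W lm tn) (m : ℕ) :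
    0 < kp P θ lm m := by
  cases m with
  | zero => exact one_pos
  | succ m =>
    show 0 < Real.sqrt (3 / 20 * (lm m * (P.c m * P.K m * θ m))) / 2
    have h1 := hC.lm_pos m
    have h2 := hC.c_pos m
    have h3 := K_pos P hP m
    have h4 := hC.θ_pos m
    positivity

theorem rr_nonneg (P : Prm) (θ : ℕ → ℝ) (m : ℕ) : 0 ≤ rr P θ m := by
  cases m with
  | zero => exact le_rfl
  | succ m =>
    show 0 ≤ 2 * Real.sqrt (P.c m * P.K m * θ m)
    positivity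

/-- one step of the induction -/
theorem step (hS : S_STG) (hE1 : S_E1) (hE2 : S_E2) {P : Prm} {θ τ W lm tn : ℕ → ℝ}
    {b w J : ℕ → ℝ → ℝ} {a : ℕ → ℕ → ℝ → ℝ}
    (hP : P.Ok) (hC : ChP P θ τ W lm tn) (hB : BSeq P θ b w J a) (m : ℕ) (s ta : ℝ)
    (hor : (∀ t ∈ Icc 0 (s + (τ m + W m)), lm m * θ m ≤ BB P (θ 0) b m t) ∨
      2 * (P.ε m * θ m) * Real.exp (Real.sqrt (5 / 4 * (P.c m * P.K m * tn m)) +
        5 * Real.sqrt (lm m * (P.c m * P.K m * θ m)) / kp P θ lm m) ≤ tn (m + 1))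
    (hw : Drv (BB P (θ 0) b m) (θ m) (lm m) (kp P θ lm m) (rr P θ m) (tn m) s (τ m + W m) ta) :
    ∃ s' ta', s' ≤ s + τ m ∧ b m s' = θ (m + 1) ∧
      Drv (b m) (θ (m + 1)) (lm (m + 1)) (kp P θ lm (m + 1)) (rr P θ (m + 1)) (tn (m + 1)) s'
        (W m) ta' ∧ ∀ t ∈ Icc 0 (s' + W m), J m t ≤ 1 / 20 :=
  hS hE1 hE2 (P.K m) (mu P (m + 1) 0) (P.c m) (P.ε m) (θ m) (θ (m + 1)) (lm m) (lm (m + 1))
    (kp P θ lm m) (rr P θ m) (tn m) (tn (m + 1)) s (τ m) (W m) ta (mu P m) (BB P (θ 0) b m) (b m)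
    (w m) (J m) (a m) (K_pos P hP m) (hC.c_pos m) (hC.ε_pos m) (hC.θ_pos m) (hC.θ_pos (m + 1))
    (mu_nonneg P hP (m + 1) 0) (mu_succ_le P hP m) (hC.τ_nonneg m) (hC.W_nonneg m) (hC.lm_pos m)
    (hC.lm_le m) (hC.lm_pos (m + 1)) (kp_pos hP hC m) (rr_nonneg P θ m) (hC.tn_nn m)
    (hC.tn_nn (m + 1)) (hC.tn_lt m) (hB.sol m) (hB.rel m)
    (fun t ht => by
      obtain ⟨h1, h2, h3, h4, h5, h6, -, -⟩ := hB.bds m t ht
      exact ⟨h1, h2, h3, h4, h5, h6⟩)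
    (hC.h1 m) (hC.h1' m) (hC.h2 m) (hC.h3 m) (hC.h4 m) (hC.h5 m) (hC.h6 m) (hC.h6' m) (hC.h7 m)
    hor hw

/-- the first window -/
theorem first {P : Prm} {θ τ W lm tn : ℕ → ℝ} (b : ℕ → ℝ → ℝ)
    (hP : P.Ok) (hC : ChP P θ τ W lm tn) :
    Drv (BB P (θ 0) b 0) (θ 0) (lm 0) (kp P θ lm 0) (rr P θ 0) (tn 0) 0 (τ 0 + W 0) 0 := by
  have hmu := mu_nonneg P hP 0 0
  have hθ := hC.θ_pos 0
  have hT : 0 ≤ τ 0 + W 0 := add_nonneg (hC.τ_nonneg 0) (hC.W_nonneg 0)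
  have htot := hC.total
  refine ⟨le_rfl, hT, by linarith, le_rfl, ?_, ?_, ?_, ?_, ?_⟩
  · intro t ht
    show θ 0 * Real.exp (-mu P 0 0 * t) ≤ 2 * θ 0
    have h1 : Real.exp (-mu P 0 0 * t) ≤ 1 := by
      rw [Real.exp_le_one_iff]
      have := mul_nonneg hmu ht.1
      linarith
    nlinarith
  · intro t ht
    show θ 0 / 2 ≤ θ 0 * Real.exp (-mu P 0 0 * t)
    have h1 : mu P 0 0 * t ≤ 1 / 2 := by
      refine le_trans (mul_le_mul_of_nonneg_left ?_ hmu) hC.h0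
      have := ht.2
      linarith
    have h2 : (1 : ℝ) / 2 ≤ Real.exp (-mu P 0 0 * t) := by
      have h3 := Real.add_one_le_exp (-mu P 0 0 * t)
      linarith
    nlinarith
  · intro t h0 h1 _
    exact absurd h1 (not_lt.mpr h0)
  · intro t t' h0 htt h1
    show θ 0 * Real.exp (-mu P 0 0 * t) ≤
      5 * (θ 0 * Real.exp (-mu P 0 0 * t')) * Real.exp (-(1 : ℝ) * (t' - t))
    have h2 : mu P 0 0 * (t' - t) ≤ 1 / 2 := by
      refine le_trans (mul_le_mul_of_nonneg_left ?_ hmu) hC.h0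
      linarith
    have h3 : Real.exp (-mu P 0 0 * t) ≤
        Real.exp (-mu P 0 0 * t') * Real.exp (-(1 : ℝ) * (t' - t)) * Real.exp 1 := by
      rw [← Real.exp_add, ← Real.exp_add, Real.exp_le_exp]
      have h4 : mu P 0 0 * (t' - t) = mu P 0 0 * t' - mu P 0 0 * t := by ring
      linarith
    have h5 : Real.exp 1 ≤ 5 := by
      have := Real.exp_one_lt_d9
      linarith
    have h6 : 0 ≤ Real.exp (-mu P 0 0 * t') * Real.exp (-(1 : ℝ) * (t' - t)) := by positivity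
    have h7 := mul_le_mul_of_nonneg_left h5 h6
    have h8 := mul_le_mul_of_nonneg_left (h3.trans h7) hθ.le
    calc θ 0 * Real.exp (-mu P 0 0 * t)
        ≤ θ 0 * (Real.exp (-mu P 0 0 * t') * Real.exp (-(1 : ℝ) * (t' - t)) * 5) := h8
      _ = 5 * (θ 0 * Real.exp (-mu P 0 0 * t')) * Real.exp (-(1 : ℝ) * (t' - t)) := by ring
  · intro t ht
    refine ⟨θ 0 * (Real.exp (-mu P 0 0 * t) * (-mu P 0 0)), ?_, ?_⟩
    · show HasDerivWithinAt (fun t => θ 0 * Real.exp (-mu P 0 0 * t)) _ _ _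
      have h1 : HasDerivAt (fun t : ℝ => -mu P 0 0 * t) (-mu P 0 0) t := by
        have := (hasDerivAt_id t).const_mul (-mu P 0 0)
        rw [mul_one] at this
        exact this
      exact ((h1.exp).const_mul (θ 0)).hasDerivWithinAt
    · intro _
      show _ ≤ (0 : ℝ) * _
      rw [zero_mul]
      have h1 : 0 ≤ θ 0 * (Real.exp (-mu P 0 0 * t) * mu P 0 0) := by positivity
      have h2 : θ 0 * (Real.exp (-mu P 0 0 * t) * (-mu P 0 0)) =
          -(θ 0 * (Real.exp (-mu P 0 0 * t) * mu P 0 0)) := by ring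
      rw [h2]
      linarith

theorem wn : S_WN := by
  intro hS hE1 hE2 P θ τ W lm tn b w J a hP hC hB
  have h0 := first b hP hC
  obtain ⟨s₀, ta₀, hs₀, hbs₀, hw₀, hJ₀⟩ := step hS hE1 hE2 hP hC hB 0 0 0
    (Or.inl fun t ht => by
      have h1 : t ∈ Icc (0 : ℝ) (0 + (τ 0 + W 0)) := ht
      have h2 := h0.low t h1
      have h3 := hC.lm_le 0
      have h4 := hC.θ_pos 0
      nlinarith) h0
  have hstep : ∀ (m : ℕ) (p : ℝ × ℝ), ∃ p' : ℝ × ℝ,
      Drv (b m) (θ (m + 1)) (lm (m + 1)) (kp P θ lm (m + 1)) (rr P θ (m + 1)) (tn (m + 1)) p.1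
        (W m) p.2 →
      p'.1 ≤ p.1 + τ (m + 1) ∧ b (m + 1) p'.1 = θ (m + 1 + 1) ∧
        Drv (b (m + 1)) (θ (m + 1 + 1)) (lm (m + 1 + 1)) (kp P θ lm (m + 1 + 1))
          (rr P θ (m + 1 + 1)) (tn (m + 1 + 1)) p'.1 (W (m + 1)) p'.2 ∧
        ∀ t ∈ Icc 0 (p'.1 + W (m + 1)), J (m + 1) t ≤ 1 / 20 := by
    intro m p
    by_cases hw : Drv (b m) (θ (m + 1)) (lm (m + 1)) (kp P θ lm (m + 1)) (rr P θ (m + 1))
        (tn (m + 1)) p.1 (W m) p.2
    · have hw' : Drv (BB P (θ 0) b (m + 1)) (θ (m + 1)) (lm (m + 1)) (kp P θ lm (m + 1))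
          (rr P θ (m + 1)) (tn (m + 1)) p.1 (τ (m + 1) + W (m + 1)) p.2 := by
        rw [← hC.W_eq m]
        exact hw
      obtain ⟨s', ta', hs'⟩ := step hS hE1 hE2 hP hC hB (m + 1) p.1 p.2 (Or.inr (hC.h8 m)) hw'
      exact ⟨(s', ta'), fun _ => hs'⟩
    · exact ⟨(0, 0), fun h => absurd h hw⟩
  choose f hf using hstep
  let s : ℕ → ℝ × ℝ := fun n => Nat.rec (s₀, ta₀) (fun m x => f m x) n
  have hs0 : s 0 = (s₀, ta₀) := rfl
  have hss : ∀ m, s (m + 1) = f m (s m) := fun m => rfl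
  have hwin : ∀ m, b m (s m).1 = θ (m + 1) ∧
      Drv (b m) (θ (m + 1)) (lm (m + 1)) (kp P θ lm (m + 1)) (rr P θ (m + 1)) (tn (m + 1)) (s m).1
        (W m) (s m).2 ∧ ∀ t ∈ Icc 0 ((s m).1 + W m), J m t ≤ 1 / 20 := by
    intro m
    induction m with
    | zero => exact ⟨hbs₀, hw₀, hJ₀⟩
    | succ m ih =>
      rw [hss]
      exact (hf m (s m) ih.2.1).2
  have hle : ∀ m, (s (m + 1)).1 + W (m + 1) ≤ (s m).1 + W m := by
    intro m
    have h1 := (hf m (s m) (hwin m).2.1).1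
    rw [← hss] at h1
    have h2 := hC.W_eq m
    linarith
  refine ⟨fun m => (s m).1, fun m => (hwin m).2.1.s0, ?_, hle, fun m => (hwin m).1,
    fun m t ht => ⟨(hwin m).2.1.up t ht, (hwin m).2.2 t ht⟩⟩
  intro m
  induction m with
  | zero =>
    show (s 0).1 + W 0 ≤ τ 0 + W 0
    rw [hs0]
    show s₀ + W 0 ≤ τ 0 + W 0
    linarith
  | succ m ih => exact (hle m).trans ih

end Pool.Agent.H306.HE.TWN
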