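import Pool.Agent.H306.HE.Stm2

/-! Growth of the scale (helper336, for helper306). -/

noncomputable section

namespace Pool.Agent.H306.HE.TZ

open Filter Topology Pool.Agent.H306.HE

theorem zq_rpow (N : ℕ) (q e : ℝ) (m : ℕ) : zq N q m ^ e = (N : ℝ) ^ (q ^ m * e) := by
  unfold zq
  rw [← Real.rpow_mul (Nat.cast_nonneg N)]

theorem one_le_zq {N : ℕ} (hN : 1 ≤ N) {q : ℝ} (hq : 1 < q) (m : ℕ) : 1 ≤ zq N q m := by
  unfold zq
  have h1 : (1 : ℝ) ≤ N := by exact_mod_cast hN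
  exact Real.one_le_rpow h1 (pow_nonneg (by linarith) m)

theorem zq_lower {N : ℕ} (hN : 1 ≤ N) {q e : ℝ} (hq : 1 < q) (he : 0 < e) (m : ℕ) :
    (N : ℝ) ^ e * ((N : ℝ) ^ (e * (q - 1))) ^ m ≤ zq N q m ^ e := by
  have h1 : (1 : ℝ) ≤ N := by exact_mod_cast hN
  have h0 : (0 : ℝ) < N := by linarith
  rw [zq_rpow, ← Real.rpow_natCast, ← Real.rpow_mul h0.le, ← Real.rpow_add h0]
  refine Real.rpow_le_rpow_of_exponent_le h1 ?_
  have h2 := one_add_mul_le_pow (a := q - 1) (by linarith) m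
  have e2 : 1 + (q - 1) = q := by ring
  rw [e2] at h2
  have h3 := mul_le_mul_of_nonneg_right h2 he.le
  linarith

theorem exists_nat (e C : ℝ) (he : 0 < e) : ∃ N₀ : ℕ, ∀ N : ℕ, N₀ ≤ N → C ≤ (N : ℝ) ^ e := by
  have h := (tendsto_rpow_atTop he).comp tendsto_natCast_atTop_atTop
  exact Filter.eventually_atTop.1 (h.eventually (eventually_ge_atTop C))

theorem z1 (q e C L : ℝ) (hq : 1 < q) (he : 0 < e) (hL : 0 ≤ L) :
    ∃ N₀ : ℕ, ∀ N, N₀ ≤ N → ∀ m : ℕ, C * L ^ m ≤ zq N q m ^ e := by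
  obtain ⟨N₁, h1⟩ := exists_nat e |C| he
  obtain ⟨N₂, h2⟩ := exists_nat (e * (q - 1)) L (mul_pos he (by linarith))
  refine ⟨N₁ + N₂ + 1, fun N hN m => ?_⟩
  have h3 := h1 N (by omega)
  have h4 := h2 N (by omega)
  refine le_trans ?_ (zq_lower (by omega : 1 ≤ N) hq he m)
  calc C * L ^ m ≤ |C| * L ^ m := mul_le_mul_of_nonneg_right (le_abs_self C) (pow_nonneg hL m)
    _ ≤ (N : ℝ) ^ e * ((N : ℝ) ^ (e * (q - 1))) ^ m :=
      mul_le_mul h3 (pow_le_pow_left₀ hL h4 m) (pow_nonneg hL m)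
        (Real.rpow_nonneg (Nat.cast_nonneg N) _)

theorem small (p a e : ℝ) (hp : 0 < p) (ha : 0 < a) : ∃ C : ℝ, 0 < C ∧ ∀ z : ℝ, 1 ≤ z →
    z ^ e * Real.exp (-(a * z ^ p)) ≤ C * z⁻¹ := by
  obtain ⟨k, hk⟩ := exists_nat_ge ((|e| + 1) / p)
  rw [div_le_iff₀ hp] at hk
  refine ⟨(k.factorial : ℝ) / a ^ k, by positivity, fun z hz => ?_⟩
  have hz0 : 0 < z := by linarith
  have hy : 0 ≤ a * z ^ p := by positivity
  have h1 := Real.pow_div_factorial_le_exp (a * z ^ p) hy k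
  have e1 : (a * z ^ p) ^ k = a ^ k * z ^ (p * k) := by
    rw [mul_pow, ← Real.rpow_natCast (z ^ p), ← Real.rpow_mul hz0.le]
  rw [e1] at h1
  have hpos : 0 < a ^ k * z ^ (p * k) / (k.factorial : ℝ) := by positivity
  have h2 : Real.exp (-(a * z ^ p)) ≤ (a ^ k * z ^ (p * k) / (k.factorial : ℝ))⁻¹ := by
    rw [Real.exp_neg]
    exact inv_anti₀ hpos h1
  have h3 : z ^ (e - p * k) ≤ z⁻¹ := by
    rw [← Real.rpow_neg_one]
    refine Real.rpow_le_rpow_of_exponent_le hz ?_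
    have := le_abs_self e
    linarith
  calc z ^ e * Real.exp (-(a * z ^ p)) ≤
        z ^ e * (a ^ k * z ^ (p * k) / (k.factorial : ℝ))⁻¹ :=
        mul_le_mul_of_nonneg_left h2 (by positivity)
    _ = (k.factorial : ℝ) / a ^ k * z ^ (e - p * k) := by
        rw [Real.rpow_sub hz0]
        have h5 : z ^ (p * k) ≠ 0 := by positivity
        have h6 : a ^ k ≠ 0 := by positivity
        have h7 : (k.factorial : ℝ) ≠ 0 := by positivity
        field_simp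
    _ ≤ (k.factorial : ℝ) / a ^ k * z⁻¹ := mul_le_mul_of_nonneg_left h3 (by positivity)

theorem z2 (q p a e C L : ℝ) (hq : 1 < q) (hp : 0 < p) (ha : 0 < a) (hC : 0 ≤ C) (hL : 0 ≤ L) :
    ∃ N₀ : ℕ, ∀ N, N₀ ≤ N → ∀ m : ℕ,
      C * L ^ m * zq N q m ^ e * Real.exp (-(a * zq N q m ^ p)) ≤ 1 := by
  obtain ⟨C₁, hC₁, h1⟩ := small p a e hp ha
  obtain ⟨N₁, h2⟩ := z1 q 1 (C * C₁) L hq one_pos hL
  refine ⟨N₁ + 1, fun N hN m => ?_⟩
  have h3 := h2 N (by omega) m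
  rw [Real.rpow_one] at h3
  have hz := one_le_zq (by omega : 1 ≤ N) hq m
  have hz0 : 0 < zq N q m := by linarith
  have h4 := h1 (zq N q m) hz
  have hCL : 0 ≤ C * L ^ m := mul_nonneg hC (pow_nonneg hL m)
  calc C * L ^ m * zq N q m ^ e * Real.exp (-(a * zq N q m ^ p)) =
        C * L ^ m * (zq N q m ^ e * Real.exp (-(a * zq N q m ^ p))) := by ring
    _ ≤ C * L ^ m * (C₁ * (zq N q m)⁻¹) := mul_le_mul_of_nonneg_left h4 hCL
    _ = (C * C₁ * L ^ m) * (zq N q m)⁻¹ := by ring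
    _ ≤ zq N q m * (zq N q m)⁻¹ := mul_le_mul_of_nonneg_right h3 (inv_nonneg.2 hz0.le)
    _ = 1 := mul_inv_cancel₀ hz0.ne'

theorem z3 (q e C L : ℝ) (N : ℕ) (hq : 1 < q) (he : 0 < e) (hL : 0 ≤ L) (hN : 2 ≤ N) :
    ∃ m₀ : ℕ, ∀ m, m₀ ≤ m → C * L ^ m ≤ zq N q m ^ e := by
  have hN2 : (1 : ℝ) < N := by
    have : 1 < N := by omega
    exact_mod_cast this
  have hlog : 0 < Real.log N := Real.log_pos hN2
  obtain ⟨L', hL'⟩ : ∃ L' : ℝ, L' = L + 1 := ⟨_, rfl⟩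
  obtain ⟨C', hC'⟩ : ∃ C' : ℝ, C' = |C| + 1 := ⟨_, rfl⟩
  have hLp : 0 < L' := by linarith
  have hCp : 0 < C' := by
    have := abs_nonneg C
    linarith
  have t0 := tendsto_pow_const_div_const_pow_of_one_lt 0 hq
  have t1 := tendsto_pow_const_div_const_pow_of_one_lt 1 hq
  have t2 := (t0.const_mul (Real.log C')).add (t1.const_mul (Real.log L'))
  rw [mul_zero, mul_zero, add_zero] at t2
  have t3 := t2.eventually (gt_mem_nhds (mul_pos hlog he))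
  obtain ⟨m₀, hm₀⟩ := Filter.eventually_atTop.1 t3
  refine ⟨m₀, fun m hm => ?_⟩
  have h1 := hm₀ m hm
  have hqm : 0 < q ^ m := pow_pos (by linarith) m
  have h2 : Real.log C' + m * Real.log L' < q ^ m * (Real.log N * e) := by
    have h3 : Real.log C' * ((m : ℝ) ^ 0 / q ^ m) + Real.log L' * ((m : ℝ) ^ 1 / q ^ m) =
        (Real.log C' + m * Real.log L') / q ^ m := by
      rw [pow_zero, pow_one]
      ring
    rw [h3, div_lt_iff₀ hqm] at h1
    linarith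
  have h4 : C * L ^ m ≤ C' * L' ^ m := by
    refine mul_le_mul ?_ (pow_le_pow_left₀ hL (by linarith) m) (pow_nonneg hL m) hCp.le
    have := le_abs_self C
    linarith
  refine h4.trans ?_
  rw [zq_rpow, Real.rpow_def_of_pos (by linarith)]
  have h5 : C' * L' ^ m = Real.exp (Real.log C' + m * Real.log L') := by
    rw [Real.exp_add, Real.exp_log hCp, Real.exp_nat_mul, Real.exp_log hLp]
  rw [h5]
  refine Real.exp_le_exp.2 ?_
  have e5 : Real.log N * (q ^ m * e) = q ^ m * (Real.log N * e) := by ring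
  rw [e5]
  exact h2.le

theorem z4 (q p a e L : ℝ) (N : ℕ) (hq : 1 < q) (hp : 0 < p) (ha : 0 < a) (hL : 0 ≤ L)
    (hN : 2 ≤ N) : ∃ C : ℝ, 0 ≤ C ∧
    ∀ m : ℕ, L ^ m * zq N q m ^ e * Real.exp (-(a * zq N q m ^ p)) ≤ C := by
  obtain ⟨C₁, hC₁, h1⟩ := small p a e hp ha
  obtain ⟨m₀, h2⟩ := z3 q 1 1 L N hq one_pos hL hN
  refine ⟨C₁ * (L + 1) ^ m₀, by positivity, fun m => ?_⟩
  have hz := one_le_zq (by omega : 1 ≤ N) hq m
  have hz0 : 0 < zq N q m := by linarith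
  have h4 := h1 (zq N q m) hz
  have hLm : 0 ≤ L ^ m := pow_nonneg hL m
  have h5 : L ^ m * (zq N q m)⁻¹ ≤ (L + 1) ^ m₀ := by
    rcases le_total m₀ m with hm | hm
    · have h6 := h2 m hm
      rw [Real.rpow_one, one_mul] at h6
      calc L ^ m * (zq N q m)⁻¹ ≤ zq N q m * (zq N q m)⁻¹ :=
            mul_le_mul_of_nonneg_right h6 (inv_nonneg.2 hz0.le)
        _ = 1 := mul_inv_cancel₀ hz0.ne'
        _ ≤ (L + 1) ^ m₀ := one_le_pow₀ (by linarith)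
    · calc L ^ m * (zq N q m)⁻¹ ≤ L ^ m * 1 :=
            mul_le_mul_of_nonneg_left (inv_le_one_of_one_le₀ hz) hLm
        _ = L ^ m := mul_one _
        _ ≤ (L + 1) ^ m := pow_le_pow_left₀ hL (by linarith) m
        _ ≤ (L + 1) ^ m₀ := pow_le_pow_right₀ (by linarith) hm
  calc L ^ m * zq N q m ^ e * Real.exp (-(a * zq N q m ^ p)) =
        L ^ m * (zq N q m ^ e * Real.exp (-(a * zq N q m ^ p))) := by ring
    _ ≤ L ^ m * (C₁ * (zq N q m)⁻¹) := mul_le_mul_of_nonneg_left h4 hLm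
    _ = C₁ * (L ^ m * (zq N q m)⁻¹) := by ring
    _ ≤ C₁ * (L + 1) ^ m₀ := mul_le_mul_of_nonneg_left h5 hC₁.le

theorem zz : S_Z :=
  ⟨z1, fun q p a e C L hq hp ha hC hL => z2 q p a e C L hq hp ha hC hL,
    fun q e C L N hq he hL hN => z3 q e C L N hq he hL hN,
    fun q p a e L N hq hp ha hL hN => z4 q p a e L N hq hp ha hL hN⟩

end Pool.Agent.H306.HE.TZ
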