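import Pool.Agent.H306.HE.Core
import Pool.Agent.H306.HE.TBEX
import Pool.Agent.H306.HE.TBBD
import Pool.Agent.H306.HE.TE1
import Pool.Agent.H306.HE.TE2
import Pool.Agent.H306.HE.TSTG
import Pool.Agent.H306.HE.TREC2
import Pool.Agent.H306.HE.TWN
import Pool.Agent.H306.HE.TOP
import Pool.Agent.H306.HE.TCH
import Pool.Agent.H306.HE.TZ
import Pool.Agent.H306.HE.TPN1
import Pool.Agent.H306.HE.TPN2
import Pool.Agent.H306.HE.TPN3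
import Pool.Agent.H306.HE.TPB2

/-! The main theorem for all `α < 1/2`. -/

noncomputable section

namespace Pool.Agent.H306.HE

open Set MeasureTheory

open scoped Real ContDiff ENNReal

open Pool.Agent.H306.CK Pool.Agent.H306.DS Pool.Agent.H306.HD Pool.Agent.H306.HD.Asm

theorem main (ν α σ δ : ℝ) (hν : 0 < ν) (hα : 0 < α) (hα1 : α < 1 / 2) (hσ : -(2 * α) ≤ σ)
    (hασ : σ < 1 / 4 - 3 * α + α ^ 2) (hδ : 0 < δ) :
    ∃ K : (V → V) → V → V,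
      (∀ v, SF v → SF (K v)) ∧
      (∀ v w, SF v → SF w → ∀ a b : ℝ,
        K (fun x i => a * v x i + b * w x i) = fun x i => a * K v x i + b * K w x i) ∧
      (∀ s : ℝ, ∃ C : ℝ, ∀ v, SF v → hs (s + σ) (K v) ≤ ENNReal.ofReal C * hs s v) ∧
      (∀ s : ℝ, |s| ≤ 1 / δ → ∀ v, SF v → hs (s + σ) (K v) ≤ ENNReal.ofReal δ * hs s v) ∧
      (∀ v, SF v → |inner3 v (K v)| ≤ δ * inner3 v (MG (lam 1 α) v)) ∧
      (∀ v, SF v → inner3 v (fun x i => -MG (lam ν α) v x i + K v x i) ≤ 0) ∧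
      (∀ (T : ℝ) (u : ℝ → V → V) (p : ℝ → V → ℝ),
        IsSol (fun v x i => -MG (lam ν α) v x i + K v x i) (Ico 0 T) u p →
        (∀ t ∈ Ico 0 T, SF (u t)) → ∀ s ∈ Ico 0 T, ∀ t ∈ Ico 0 T, s ≤ t →
        inner3 (u t) (u t) ≤ inner3 (u s) (u s)) ∧
      ∃ (T : ℝ) (u : ℝ → V → V), 0 < T ∧ T ≤ δ ∧ (∀ x i, |u 0 x i| ≤ δ) ∧
        ContDiffOn ℝ ∞ (fun z : ℝ × V => u z.1 z.2) (Ico 0 T ×ˢ univ) ∧
        IsSol (fun v x i => -MG (lam ν α) v x i + K v x i) (Ico 0 T) u (fun _ _ => 0) ∧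
        (∀ t ∈ Ico 0 T, SF (u t)) ∧
        (∀ s : ℝ, ∀ t ∈ Ico 0 T, ∃ C : ℝ, ∀ τ ∈ Icc 0 t, hs s (u τ) ≤ ENNReal.ofReal C) ∧
        (∀ M : ℝ, ∃ t ∈ Ico 0 T, ∃ x, M < ‖curl (u t) x‖) ∧
        (∀ (T' : ℝ) (v : ℝ → V → V) (q : ℝ → V → ℝ),
          IsSol (fun v x i => -MG (lam ν α) v x i + K v x i) (Ico 0 T') v q →
          (∀ t ∈ Ico 0 T', SF (v t)) → v 0 = u 0 → T' ≤ T ∧ ∀ t ∈ Ico 0 T', v t = u t) ∧
        ∃ w : ℝ → V → V, w 0 = u 0 ∧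
          ContDiffOn ℝ ∞ (fun z : ℝ × V => w z.1 z.2) (Ici 0 ×ˢ univ) ∧
          IsSol (fun v x i => -MG (lam ν α) v x i) (Ici 0) w (fun _ _ => 0) ∧
          (∀ t ∈ Ici (0 : ℝ), SF (w t)) ∧
          ∀ s : ℝ, ∀ t ∈ Ici (0 : ℝ), hs s (w t) ≤ hs s (w 0) := by
  obtain ⟨q, r, x, η₁, hE⟩ := exps hα hα1 hσ hασ
  set S : ℝ := max (1 / δ) 1 with hSdef
  have hS2 : 1 ≤ S := le_max_right _ _
  obtain ⟨C, n, hC1, hbdp⟩ := TBDP.bdp TPROF.prof TCOMM.comm TBDM.bdm TMODES.modes TFCP.fcp S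
  set κ : ℝ := min δ ν with hκ
  have hκ0 : 0 < κ := lt_min hδ hν
  set η : ℝ := min (δ / 3) (κ ^ 2 / 12) with hη
  have hη0 : 0 < η := lt_min (by positivity) (by positivity)
  have hη1 : 3 * η ≤ δ := by
    have := min_le_left (δ / 3) (κ ^ 2 / 12)
    linarith
  have hη2 : 12 * η ≤ κ ^ 2 := by
    have := min_le_right (δ / 3) (κ ^ 2 / 12)
    linarith
  have hδ' : 0 < min δ (1 / 2) := lt_min hδ (by norm_num)
  obtain ⟨N₁, hN₁⟩ := TPN1.pn1 TZ.zz ν α σ q r x η₁ hν hE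
  obtain ⟨N₂, hN₂⟩ := TPN2.pn2 TZ.zz ν α σ q r x η₁ (min δ (1 / 2)) hν hδ' hE
  obtain ⟨N₃, hN₃⟩ := TPN3.pn3 TZ.zz ν α σ q r x η₁ hν hE
  obtain ⟨N₄, hN₄⟩ := TPB2.pb2 TZ.zz ν α σ q r x η₁ S C η n hν (by linarith) (by linarith) hη0 hE
  obtain ⟨N₅, hN₅⟩ := TZ.zz.1 q x (1 / δ) 1 hE.q1 hE.x0 zero_le_one
  set N : ℕ := N₁ + N₂ + N₃ + N₄ + N₅ + 1 with hN
  obtain ⟨hP, h1, h1', h6', hcle, hsmall⟩ := hN₁ N (by omega)
  obtain ⟨hτ, hW, hWeq, htot, h2, h3, h4, h5, h0⟩ := hN₂ N (by omega)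
  obtain ⟨htn, htl, h6, h7, hrap, hseed, h8⟩ := hN₃ N (by omega)
  obtain ⟨hB1, hB2⟩ := hN₄ N (by omega)
  have hN1 : (0 : ℝ) < N := by exact_mod_cast (by omega : 0 < N)
  have hz : ∀ m, 0 < zq N q m := fun m => Real.rpow_pos_of_pos hN1 _
  have hc_pos : ∀ m, 0 < (prm2 ν α σ q r η₁ N).c m := fun m => Real.rpow_pos_of_pos (hz m) _
  have hε_pos : ∀ m, 0 < (prm2 ν α σ q r η₁ N).ε m := fun m => Real.exp_pos _
  have hθ_pos : ∀ m, 0 < th2 q x N m := fun m => Real.rpow_pos_of_pos (hz m) _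
  have hlm : ∀ m, 0 < lm2 m := fun m => by unfold lm2; positivity
  have hlm1 : ∀ m, lm2 m ≤ 1 / 2 := fun m => by
    unfold lm2
    calc ((1 : ℝ) / 2) ^ (28 * m + 1) ≤ (1 / 2) ^ 1 :=
          pow_le_pow_of_le_one (by norm_num) (by norm_num) (by omega)
      _ = 1 / 2 := pow_one _
  have hCh : ChP (prm2 ν α σ q r η₁ N) (th2 q x N) (tau2 ν α σ q r x η₁ N)
      (W2 ν α σ q r x η₁ N) lm2 (tn2 q r N) :=
    ⟨hc_pos, hε_pos, hθ_pos, hτ, hW, hWeq, htot.trans (min_le_right _ _), hlm, hlm1, htn, htl, h1, h1',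
      h2, h3, h4, h5, h6, h6', h7, h8, h0, hrap, hcle, hseed, hsmall⟩
  have hStd : Std (prm2 ν α σ q r η₁ N) := ⟨hP, hrap, hε_pos, hc_pos, hcle⟩
  have hodd : ∀ m, Odd ((prm2 ν α σ q r η₁ N).K (m + 1)) := fun m => ⟨_, rfl⟩
  have hσ1 : |σ| ≤ 1 := by
    have := hE.σ1
    rw [abs_le]
    constructor <;> linarith
  have hσ2 : σ + 2 * (prm2 ν α σ q r η₁ N).α - 1 ≤ 0 := by
    have := hE.σ1
    change σ + 2 * α - 1 ≤ 0
    linarith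
  have hO : OpB (prm2 ν α σ q r η₁ N) σ := by
    intro s
    obtain ⟨C', n', hC'1, hbdp'⟩ := TBDP.bdp TPROF.prof TCOMM.comm TBDM.bdm TMODES.modes TFCP.fcp |s|
    obtain ⟨C'', hC''0, hC''⟩ := hB2 |s| C' n' (abs_nonneg s) (by linarith)
    refine ⟨C'', hC''0, fun m v hv => ?_⟩
    exact (hbdp' _ hP s σ le_rfl hσ1 hσ2 m v hv).trans
      (mul_le_mul' (ENNReal.ofReal_le_ofReal (hC'' m)) le_rfl)
  have hsm : ∀ s : ℝ, |s| ≤ S → ∀ m v, SP v → hs (s + σ) (PP (prm2 ν α σ q r η₁ N) m v) ≤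
      ENNReal.ofReal (η * (1 / 8) ^ m) * hs s v := by
    intro s hs m v hv
    exact (hbdp _ hP s σ hs hσ1 hσ2 m v hv).trans
      (mul_le_mul' (ENNReal.ofReal_le_ofReal (hB1 m)) le_rfl)
  obtain ⟨b, w, J, ad, hseq⟩ := TREC2.rec2 TBEX.bex TBBD.bbd _ _ _ _ _ _ hP hCh
  obtain ⟨T, hT, hTle, hch⟩ := TCH.ch TOP.op TE1.g TWN.wn TSTG.stg TE1.e1 TE2.e2 _ _ _ _ _ _ b w J
    ad hP hCh hseq
  have hθ : th2 q x N 0 ≤ δ := by
    have h9 := hN₅ N (by omega) 0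
    rw [one_pow, mul_one] at h9
    unfold th2
    rw [Real.rpow_neg (hz 0).le, inv_le_comm₀ (Real.rpow_pos_of_pos (hz 0) _) hδ, ← one_div]
    exact h9
  exact core ν α σ δ η (th2 q x N 0) T hν hα hα1 hσ hE.σ1 hδ (prm2 ν α σ q r η₁ N) rfl rfl hStd hodd hO
    hη0 hη1 hη2 hsm (hθ_pos 0) hθ hT (hTle.trans (htot.trans (min_le_left _ _))) b _ hch

end Pool.Agent.H306.HE
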