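import Pool.Agent.H306.HD.Stm4

/-! Second version of the chain (for all `α < 1/2`): the cut-off is on the angle `J = ∫ w`, not on the time. -/

noncomputable section

namespace Pool.Agent.H306.HE

open Set MeasureTheory Pool.Agent.H306.HD

open scoped Real

/-- The cut-off: `1` for `J ≤ 1/20`, `0` for `J ≥ 1/10`, linear in between. -/
def cut (J : ℝ) : ℝ := cl 1 (2 - 20 * J)

/-- The equations of one band with the angular velocity `w`. -/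
structure BSol (l c ε : ℝ) (μ : ℕ → ℝ) (B b w : ℝ → ℝ) (α : ℕ → ℝ → ℝ) : Prop where
  b0 : b 0 = 0
  α0 : ∀ i, α i 0 = 0
  db : ∀ t ∈ Icc (0 : ℝ) 1, HasDerivWithinAt b
    (-l * b t + c * α 1 t + ε * (B t + α 0 t)) (Icc 0 1) t
  dα0 : ∀ t ∈ Icc (0 : ℝ) 1, HasDerivWithinAt (α 0)
    (-μ 0 * α 0 t - w t / 2 * α 1 t) (Icc 0 1) t
  dα1 : ∀ t ∈ Icc (0 : ℝ) 1, HasDerivWithinAt (α 1)
    (-μ 1 * α 1 t + w t * (B t + α 0 t + α 2 t / 2)) (Icc 0 1) t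
  dα : ∀ i, 2 ≤ i → ∀ t ∈ Icc (0 : ℝ) 1, HasDerivWithinAt (α i)
    (-μ i * α i t + (-1) ^ (i + 1) * (w t / 2) * (α (i - 1) t + α (i + 1) t))
    (Icc 0 1) t
  fin : ∃ C : ℝ, ∀ i, ∀ t ∈ Icc (0 : ℝ) 1, 4 ^ i * |α i t| ≤ C

structure WRel (k β : ℝ) (b w J : ℝ → ℝ) : Prop where
  J0 : J 0 = 0
  dJ : ∀ t ∈ Icc (0 : ℝ) 1, HasDerivWithinAt J (w t) (Icc 0 1) t
  w_eq : ∀ t ∈ Icc (0 : ℝ) 1, w t = k * cl β (b t) * cut (J t)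

/-- Existence. Proof: as `S_BAND_EX` of HD (module `TBANDEX`, store helper306_HD_TBANDEX.lean: adapt it), with the additional
real unknown `J`, `J' = w`, i.e. the Banach space `ℝ × ℝ × (ℕ →ᵇ ℝ)` and `w = k * cl β b * cut J` in place of `k * cl β b`
(`cut` is Lipschitz with values in `[0, 1]`, so the hypotheses of `S_ODE` hold as before). -/
def S_BEX : Prop := ∀ (k β l c ε M LB : ℝ) (μ : ℕ → ℝ) (B : ℝ → ℝ), 0 ≤ k → 0 ≤ β →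
  (∀ i, μ i ≤ μ (i + 1)) → (∀ i, μ (i + 1) - μ i ≤ M) →
  (∀ s ∈ Icc (0 : ℝ) 1, ∀ t ∈ Icc (0 : ℝ) 1, |B s - B t| ≤ LB * |s - t|) →
  ∃ (b w J : ℝ → ℝ) (α : ℕ → ℝ → ℝ), BSol l c ε μ B b w α ∧ WRel k β b w J

/-- A priori bounds. Proof: as `S_BAND_BD` of HD (module `TBANDBD`, store helper306_HD_TBANDBD.lean: adapt it). `w ≥ 0`, so `J` is
nondecreasing, `J ≥ 0`; `J ≤ 1/10` since `w = 0` where `J ≥ 1/10`. In place of `|∫ forcing| ≤ ι sup |forcing / w|`, `ι = k β`,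
(time `≤ 1`) use `J t ≤ ι := 1/10`: if `|x'| ≤ F w = F J'` and `x 0 = 0` then `|x t| ≤ F J t`. The numbers are the same:
`N ≤ 5 ι B̃ = B̃ / 2`. -/
def S_BBD : Prop := ∀ (k β l c ε : ℝ) (μ : ℕ → ℝ) (B b w J : ℝ → ℝ) (α : ℕ → ℝ → ℝ),
  0 ≤ k → 0 ≤ β → 0 ≤ c → 0 ≤ ε →
  (∀ i, μ i ≤ μ (i + 1)) → (∀ t ∈ Icc (0 : ℝ) 1, 0 ≤ B t) →
  MonotoneOn (fun t => Real.exp (μ 0 * t) * B t) (Icc 0 1) → BSol l c ε μ B b w α →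
  WRel k β b w J →
  ∀ t ∈ Icc (0 : ℝ) 1, 0 ≤ b t ∧ 0 ≤ α 1 t ∧ 0 ≤ w t ∧ w t ≤ k * b t ∧
    |α 0 t| ≤ 1 / 10 * B t ∧ ∀ i, 1 ≤ i → |α i t| ≤ 1 / 2 * (1 / 4) ^ i * B t

/-- Standing bounds of a band. -/
def SBd (k : ℝ) (B b w : ℝ → ℝ) (α : ℕ → ℝ → ℝ) : Prop :=
  ∀ t ∈ Icc (0 : ℝ) 1, 0 ≤ B t ∧ 0 ≤ b t ∧ 0 ≤ α 1 t ∧ |α 0 t| + |α 2 t| / 2 ≤ B t / 8 ∧
    0 ≤ w t ∧ w t ≤ k * b t

/-- Growth of one band with a variable rate.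

Proof. As `S_GROW` of HD (module `TGROW`, store helper306_HD_TGROW.lean). `z = r b - c α₁`, `z 0 = 0`,
`z' = r' b + r (-l b + c α₁ + ε (B + α₀)) + c μ₁ α₁ - c w (B + α₀ + α₂/2)
≥ -(r + μ₁) z + (r² - (9/8) c k B) b + r (μ₁ - l) b ≥ -(r + μ₁) z` (`w ≤ k b`, `r' b ≥ 0`), so `z ≥ 0`
(`(exp (E t + μ₁ t) z)' ≥ 0`). Then `b' ≤ r b + (9/8) ε Bm`, so `(exp (-E t) b)' ≤ (9/8) ε Bm` (as `E ≥ 0`), `t ≤ 1`. -/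
def S_E1 : Prop := ∀ (k l c ε Bm t₁ : ℝ) (μ : ℕ → ℝ) (B b w r r' E : ℝ → ℝ) (α : ℕ → ℝ → ℝ),
  0 ≤ k → 0 ≤ c → 0 ≤ ε → 0 ≤ l → l ≤ μ 1 → 0 ≤ Bm → BSol l c ε μ B b w α → SBd k B b w α →
  t₁ ∈ Icc (0 : ℝ) 1 → (∀ t ∈ Icc 0 t₁, B t ≤ Bm) →
  (∀ t ∈ Icc 0 t₁, 0 ≤ r t ∧ 0 ≤ r' t ∧ HasDerivWithinAt r (r' t) (Icc 0 t₁) t ∧
    5 / 4 * (c * k * B t) ≤ r t ^ 2) →
  E 0 = 0 → (∀ t ∈ Icc 0 t₁, HasDerivWithinAt E (r t) (Icc 0 t₁) t) →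
  ∀ t ∈ Icc 0 t₁, c * α 1 t ≤ r t * b t ∧ b t ≤ 9 / 8 * (ε * Bm) * Real.exp (E t)

/-- Growth of one band. Proof: as `S_GROW` of HD (module `TGROW`, adapt it: `k * cl β b` is replaced by `w`, `0 ≤ w ≤ k b`). -/
def S_G : Prop := ∀ (k l c ε r Bm t₁ : ℝ) (μ : ℕ → ℝ) (B b w : ℝ → ℝ) (α : ℕ → ℝ → ℝ),
  0 ≤ k → 0 ≤ c → 0 ≤ ε → 0 ≤ l → l ≤ μ 1 → 0 ≤ r → 0 ≤ Bm → 5 / 4 * (c * k * Bm) ≤ r ^ 2 →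
  BSol l c ε μ B b w α → SBd k B b w α →
  t₁ ∈ Icc (0 : ℝ) 1 → (∀ t ∈ Icc 0 t₁, B t ≤ Bm) →
  ∀ t ∈ Icc 0 t₁, b t ≤ 9 / 8 * (ε * Bm) * Real.exp r ∧ (r ≤ l → b t ≤ 9 / 8 * (ε * Bm))

/-- Lower growth of one band.

Proof. On `[t₀, t₁]` let `ϱ t = sqrt (3/4 * (c k B t))`, `ϱ ≥ 4 μ₁`, `ϱ ≥ 2 R`, `ϱ ≥ ϱ₀` (`ϱ₀² = (3/4) c k B₀`; put `q = ϱ₀ / 2`); `B > 0` there, so `ϱ`
is differentiable, `ϱ'/ϱ = B'/(2B) ≤ R/2`. For `Y = b + (c/ϱ) α₁`: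
`Y' = -l b + c α₁ + ε (B + α₀) + (c/ϱ) (-μ₁ α₁ + k b (B + α₀ + α₂/2)) - (ϱ'/ϱ) (c/ϱ) α₁
≥ -μ₁ Y + c α₁ + ϱ b - (R/2) Y = (ϱ - μ₁ - R/2) Y ≥ (ϱ₀/2) Y`
(`c k (7/8) B ≥ ϱ²`). Hence `b t ≤ Y t ≤ exp (-(ϱ₀/2) (t' - t)) Y t'`. At `t'`: `B ≤ 5 B t'` on `[0, t']`, so by `S_E1` with the
constant rate `r = sqrt (25/4 * (c k B t'))`, `c α₁ t' ≤ r b t'`, `Y t' ≤ (1 + r/ϱ t') b t' = (1 + sqrt (25/3)) b t' ≤ 5 b t'`. -/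
def S_E2 : Prop := S_E1 → ∀ (k l c ε B₀ R t₀ t₁ : ℝ) (μ : ℕ → ℝ) (B b w : ℝ → ℝ) (α : ℕ → ℝ → ℝ),
  0 < k → 0 < c → 0 < ε → 0 ≤ l → l ≤ μ 1 → 0 < B₀ → 0 ≤ R → BSol l c ε μ B b w α →
  SBd k B b w α → 0 ≤ t₀ → t₀ ≤ t₁ → t₁ ≤ 1 →
  (∀ t ∈ Icc t₀ t₁, w t = k * b t) → (∀ t ∈ Icc t₀ t₁, B₀ ≤ B t) →
  (∀ t ∈ Icc t₀ t₁, ∃ B' : ℝ, HasDerivWithinAt B B' (Icc 0 1) t ∧ B' ≤ R * B t) →
  (∀ t' ∈ Icc t₀ t₁, ∀ t ∈ Icc 0 t', B t ≤ 5 * B t') →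
  4 * μ 1 ≤ Real.sqrt (3 / 4 * (c * k * B₀)) → 2 * R ≤ Real.sqrt (3 / 4 * (c * k * B₀)) →
  ∀ t t', t₀ ≤ t → t ≤ t' → t' ≤ t₁ →
    b t ≤ 5 * b t' * Real.exp (-(Real.sqrt (3 / 4 * (c * k * B₀)) / 2) * (t' - t))

/-- What is known about a driving amplitude `B` on `[0, s + w]`: it is at most `tn` before `ta` and grows at least
like `exp (κ t)` after `ta`. -/
structure Drv (B : ℝ → ℝ) (θ lm κ R tn s w ta : ℝ) : Prop where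
  s0 : 0 ≤ s
  w0 : 0 ≤ w
  s1 : s + w ≤ 1
  ta0 : 0 ≤ ta
  up : ∀ t ∈ Icc 0 (s + w), B t ≤ 2 * θ
  low : ∀ t ∈ Icc s (s + w), θ / 2 ≤ B t
  tiny : ∀ t, 0 ≤ t → t < ta → t ≤ s + w → B t ≤ tn
  gr : ∀ t t', ta ≤ t → t ≤ t' → t' ≤ s + w → B t ≤ 5 * B t' * Real.exp (-κ * (t' - t))
  lip : ∀ t ∈ Icc 0 (s + w), ∃ B' : ℝ, HasDerivWithinAt B B' (Icc 0 1) t ∧
    (lm * θ / 5 ≤ B t → B' ≤ R * B t)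

/-- One stage of the cascade.

Proof. Notation: `x = α 1`, `ρ² = c k θ`, `ϱ₀ = sqrt (3/4 * (c k (lm θ / 5))) = sqrt (3/20 * (lm c k θ))`, `β = 2 θ'`.
(0) `ta ≤ s` (otherwise `θ/2 ≤ B s ≤ tn < lm θ`). Let `tb` be the first `t ∈ [0, s]` with `B t ≥ lm θ` (it exists as
`B s ≥ θ/2`; `B` is continuous). `B < lm θ` on `[0, tb)`; `ta ≤ tb` (as `tn < lm θ`). If `tb > 0`, `B tb = lm θ`. By `gr`, `B t ≥ lm θ / 5` on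
`[tb, s + τ + w]`, and `B t ≤ 5 B t'` for all `0 ≤ t ≤ t'`, `t' ≥ tb` (for `t < tb`: `B t < lm θ ≤ B tb ≤ 5 B t'`).
(1) `b ≤ tn'` on `[0, tb)`: nothing to prove if `tb = 0` (this is the case in the first alternative of `hgate`); otherwise `S_E1` on `[0, tb]` with
`Bm = lm θ`, `r t = sqrt (5/4 * (c k tn)) + sqrt (25/4 * (lm c k θ)) exp (-κ (tb - t)/2)`,
`E t ≤ sqrt (5/4 * (c k tn)) + (2/κ) sqrt (25/4 * (lm c k θ))`: `B t ≤ tn` for `t < ta` and `B t ≤ 5 lm θ exp (-κ (tb - t))` for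
`ta ≤ t ≤ tb`, so `5/4 c k B ≤ r²`. (`sqrt (25/4 X) * 2/κ = 5 sqrt X / κ`.)
(2) As long as `b ≤ β` and `J ≤ 1/20` on `[0, t']`, `w = k b` there and `S_E2` (`B₀ = lm θ / 5`, `t₀ = tb`) gives
`b t ≤ 5 b t' exp (-(ϱ₀/2) (t' - t))` for `tb ≤ t ≤ t'`; so `J t' = ∫ w ≤ k tn' + 5 k b t' (2/ϱ₀) ≤ 1/80 + 20 k θ'/ϱ₀ ≤ 1/40`
(if `b t' ≤ 2 θ'`). By continuity of `J`: if `b ≤ 2 θ'` on `[0, t₁]`, `t₁ ≤ s + τ + w`, then `J ≤ 1/40` on `[0, t₁]`.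
(3) Hitting time: suppose `b < θ'` on `[0, s + τ]`; then `w = k b` on it, and with `ρ₁ = sqrt (3/8 * (c k θ))`, on `[s, s + τ]` (`B ≥ θ/2`)
`Y = b + (c/ρ₁) x` satisfies `Y' ≥ (ρ₁ - μ₁) Y + (3/8) ε θ`, `Y ≥ 0`, `ρ₁ - μ₁ ≥ ρ₁/2`, so `Y (s+τ) ≥ (3/8) ε θ (exp (ρ₁ τ/2) - 1)/ρ₁`, while
`c x ≤ r b`, `r = sqrt (5/2 * (c k θ))` (`S_E1` with `Bm = 2 θ`), `Y ≤ (1 + r/ρ₁) b ≤ 4 b < 4 θ'`: contradiction. (As (2) of the proof of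
`S_STAGE` in HD, module `TSTAGE`, store helper306_HD_TSTAGE.lean.) So there is a first `s' ≤ s + τ` with `b s' = θ'`.
(4) On `[s', s' + w]`: `b ≤ 2 θ'` and `b ≥ θ'/2` as in (3) of the proof of `S_STAGE` (`b' ≤ r b + (9/4) ε θ`, `b' ≥ -l b`).
(5) `lip` for `b`: `b' ≤ r b + (9/4) ε θ` and for `b ≥ lm' θ'/5`, `(9/4) ε θ ≤ (1/4) ρ b` by the last hypothesis (`45 ε θ ≤ ρ lm' θ'`), so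
`b' ≤ (sqrt (5/2) + 1/4) ρ b ≤ 2 ρ b`. `ta' = tb`; `gr` is (2). -/
def S_STG : Prop := S_E1 → S_E2 → ∀ (k l c ε θ θ' lm lm' κ R tn tn' s τ w ta : ℝ) (μ : ℕ → ℝ)
  (B b wf J : ℝ → ℝ) (α : ℕ → ℝ → ℝ),
  0 < k → 0 < c → 0 < ε → 0 < θ → 0 < θ' → 0 ≤ l → l ≤ μ 1 → 0 ≤ τ → 0 ≤ w → 0 < lm →
  lm ≤ 1 / 2 → 0 < lm' → 0 < κ → 0 ≤ R → 0 ≤ tn → 0 ≤ tn' → tn < lm * θ →
  BSol l c ε μ B b wf α → WRel k (2 * θ') b wf J → SBd k B b wf α →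
  4 * μ 1 ≤ Real.sqrt (3 / 20 * (lm * (c * k * θ))) →
  2 * R ≤ Real.sqrt (3 / 20 * (lm * (c * k * θ))) →
  θ' * Real.sqrt (3 / 8 * (c * k * θ)) <
    3 / 32 * (ε * θ) * (Real.exp (Real.sqrt (3 / 8 * (c * k * θ)) * τ / 2) - 1) →
  Real.sqrt (5 / 2 * (c * k * θ)) * w ≤ 1 / 4 → l * w ≤ 1 / 2 → 9 / 4 * (ε * θ) * w ≤ θ' / 2 →
  k * tn' ≤ 1 / 80 → 1600 * (k * θ') ≤ Real.sqrt (3 / 20 * (lm * (c * k * θ))) →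
  45 * (ε * θ) ≤ Real.sqrt (c * k * θ) * (lm' * θ') →
  ((∀ t ∈ Icc 0 (s + (τ + w)), lm * θ ≤ B t) ∨ 2 * (ε * θ) * Real.exp
    (Real.sqrt (5 / 4 * (c * k * tn)) + 5 * Real.sqrt (lm * (c * k * θ)) / κ) ≤ tn') →
  Drv B θ lm κ R tn s (τ + w) ta →
  ∃ s' ta', s' ≤ s + τ ∧ b s' = θ' ∧
    Drv b θ' lm' (Real.sqrt (3 / 20 * (lm * (c * k * θ))) / 2) (2 * Real.sqrt (c * k * θ)) tn' s' w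
      ta' ∧ ∀ t ∈ Icc 0 (s' + w), J t ≤ 1 / 20

def kp (P : Prm) (θ lm : ℕ → ℝ) : ℕ → ℝ
  | 0 => 1
  | m + 1 => Real.sqrt (3 / 20 * (lm m * (P.c m * P.K m * θ m))) / 2

def rr (P : Prm) (θ : ℕ → ℝ) : ℕ → ℝ
  | 0 => 0
  | m + 1 => 2 * Real.sqrt (P.c m * P.K m * θ m)

/-- The conditions on the parameters. -/
structure ChP (P : Prm) (θ τ W lm tn : ℕ → ℝ) : Prop where
  c_pos : ∀ m, 0 < P.c m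
  ε_pos : ∀ m, 0 < P.ε m
  θ_pos : ∀ m, 0 < θ m
  τ_nonneg : ∀ m, 0 ≤ τ m
  W_nonneg : ∀ m, 0 ≤ W m
  W_eq : ∀ m, W m = τ (m + 1) + W (m + 1)
  total : τ 0 + W 0 ≤ 1 / 2
  lm_pos : ∀ m, 0 < lm m
  lm_le : ∀ m, lm m ≤ 1 / 2
  tn_nn : ∀ m, 0 ≤ tn m
  tn_lt : ∀ m, tn m < lm m * θ m
  h1 : ∀ m, 4 * mu P m 1 ≤ Real.sqrt (3 / 20 * (lm m * (P.c m * P.K m * θ m)))
  h1' : ∀ m, 2 * rr P θ m ≤ Real.sqrt (3 / 20 * (lm m * (P.c m * P.K m * θ m)))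
  h2 : ∀ m, θ (m + 1) * Real.sqrt (3 / 8 * (P.c m * P.K m * θ m)) <
    3 / 32 * (P.ε m * θ m) *
      (Real.exp (Real.sqrt (3 / 8 * (P.c m * P.K m * θ m)) * τ m / 2) - 1)
  h3 : ∀ m, Real.sqrt (5 / 2 * (P.c m * P.K m * θ m)) * W m ≤ 1 / 4
  h4 : ∀ m, mu P (m + 1) 0 * W m ≤ 1 / 2
  h5 : ∀ m, 9 / 4 * (P.ε m * θ m) * W m ≤ θ (m + 1) / 2
  h6 : ∀ m, P.K m * tn (m + 1) ≤ 1 / 80
  h6' : ∀ m, 1600 * (P.K m * θ (m + 1)) ≤ Real.sqrt (3 / 20 * (lm m * (P.c m * P.K m * θ m)))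
  h7 : ∀ m, 45 * (P.ε m * θ m) ≤ Real.sqrt (P.c m * P.K m * θ m) * (lm (m + 1) * θ (m + 1))
  h8 : ∀ m, 2 * (P.ε (m + 1) * θ (m + 1)) * Real.exp
    (Real.sqrt (5 / 4 * (P.c (m + 1) * P.K (m + 1) * tn (m + 1))) +
      5 * Real.sqrt (lm (m + 1) * (P.c (m + 1) * P.K (m + 1) * θ (m + 1))) / kp P θ lm (m + 1)) ≤
        tn (m + 2)
  h0 : mu P 0 0 * (τ 0 + W 0) ≤ 1 / 2
  rapid : ∀ N : ℕ, ∃ C : ℝ, ∀ m, P.ε m * (P.K (m + 2) : ℝ) ^ N ≤ C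
  c_le : ∃ C : ℝ, ∀ m, P.c m ≤ C * P.K (m + 1)
  seed : ∀ R : ℝ, ∃ m₀ : ℕ, ∀ m, m₀ ≤ m → R * P.ε m < θ (m + 1)
  small : ∀ M : ℝ, ∃ m₀ : ℕ, ∀ m, m₀ ≤ m → M * P.c m ≤ mu P (m + 1) 0 ^ 2

/-- The sequence of bands. -/
structure BSeq (P : Prm) (θ : ℕ → ℝ) (b w J : ℕ → ℝ → ℝ) (a : ℕ → ℕ → ℝ → ℝ) : Prop where
  sol : ∀ m, BSol (mu P (m + 1) 0) (P.c m) (P.ε m) (mu P m) (BB P (θ 0) b m) (b m) (w m) (a m)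
  rel : ∀ m, WRel (P.K m) (2 * θ (m + 1)) (b m) (w m) (J m)
  bds : ∀ m, ∀ t ∈ Icc (0 : ℝ) 1, 0 ≤ BB P (θ 0) b m t ∧ 0 ≤ b m t ∧ 0 ≤ a m 1 t ∧
    |a m 0 t| + |a m 2 t| / 2 ≤ BB P (θ 0) b m t / 8 ∧ 0 ≤ w m t ∧ w m t ≤ P.K m * b m t ∧
    |a m 0 t| ≤ BB P (θ 0) b m t ∧ ∀ i, 1 ≤ i → |a m i t| ≤ (1 / 4) ^ i * BB P (θ 0) b m t

/-- Existence of the sequence. Proof: as `S_REC` of HD (module `TREC`, store helper306_HD_TREC.lean, with `mu_mono`, `mu_diff`, ...: adapt it);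
`angle` is no longer needed. -/
def S_REC2 : Prop := S_BEX → S_BBD → ∀ (P : Prm) (θ τ W lm tn : ℕ → ℝ), P.Ok →
  ChP P θ τ W lm tn → ∃ (b w J : ℕ → ℝ → ℝ) (a : ℕ → ℕ → ℝ → ℝ), BSeq P θ b w J a

/-- The windows. Proof: `Drv (BB 0) (θ 0) (lm 0) 1 0 0 0 (τ 0 + W 0) 0` for `BB 0 t = θ₀ exp (-μ t)`, `μ = mu P 0 0`, `μ (τ 0 + W 0) ≤ 1/2`:
`exp (-1/2) ≥ 1/2`; `gr`: `B t = B t' exp (μ (t' - t))` and `exp (1/2) * exp 1 ≤ 5`; `lip`: `B' ≤ 0`; and `lm 0 θ 0 ≤ θ 0/2 ≤ B` (first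
alternative of `S_STG` for `m = 0`; the second one, `h8`, for `m ≥ 1`; `tn 0` may be positive, `tiny` is void for `ta = 0`). Induction with `S_STG`:
`Drv (BB m) (θ m) (lm m) (kp m) (rr m) (tn m) (s (m-1)) (τ m + W m) ta`, `W m = τ (m+1) + W (m+1)`. As `S_WIN` of HD (module `TWIN`, store
helper306_HD_TWIN.lean: adapt it); `mu P (m+1) 0 ≤ mu P m 1`. -/
def S_WN : Prop := S_STG → S_E1 → S_E2 → ∀ (P : Prm) (θ τ W lm tn : ℕ → ℝ) (b w J : ℕ → ℝ → ℝ)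
  (a : ℕ → ℕ → ℝ → ℝ), P.Ok → ChP P θ τ W lm tn → BSeq P θ b w J a →
  ∃ s : ℕ → ℝ, (∀ m, 0 ≤ s m) ∧ (∀ m, s m + W m ≤ τ 0 + W 0) ∧
    (∀ m, s (m + 1) + W (m + 1) ≤ s m + W m) ∧ (∀ m, b m (s m) = θ (m + 1)) ∧
    ∀ m, ∀ t ∈ Icc 0 (s m + W m), b m t ≤ 2 * θ (m + 1) ∧ J m t ≤ 1 / 20

/-- Persistence. Proof: as `S_OPEN` of HD (module `TOPEN`, store helper306_HD_TOPEN.lean: adapt it), with `S_G` in place of `S_GROW`. -/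
def S_OP : Prop := S_G → ∀ (P : Prm) (θ τ W lm tn : ℕ → ℝ) (b w J : ℕ → ℝ → ℝ)
  (a : ℕ → ℕ → ℝ → ℝ), P.Ok → ChP P θ τ W lm tn → BSeq P θ b w J a →
  (∀ t, 0 ≤ t → t < 1 → (∃ R : ℝ, ∀ m, ∀ s ∈ Icc 0 t, b m s ≤ R * P.ε m) →
    ∃ δ : ℝ, 0 < δ ∧ t + δ ≤ 1 ∧ ∃ R : ℝ, ∀ m, ∀ s ∈ Icc 0 (t + δ), b m s ≤ R * P.ε m) ∧
  ∀ t, 0 < t → t ≤ 1 → (∃ M : ℝ, ∀ m, ∀ s ∈ Ico 0 t, P.K (m + 1) * b m s ≤ M) →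
    ∃ R : ℝ, ∀ m, ∀ s ∈ Icc 0 t, b m s ≤ R * P.ε m

/-- The solution of the chain. Proof: as `S_CHAIN` of HD (statement and docstring in `HD.Stm4`, module `TCHAIN`, store helper306_HD_TCHAIN.lean: adapt
it); on `[0, T)`, `b m ≤ 2 θ (m+1)` and `J m ≤ 1/20`, so `w m t = P.K m * b m t` there (`cl`, `cut`). -/
def S_CH : Prop := S_OP → S_G → S_WN → S_STG → S_E1 → S_E2 → ∀ (P : Prm) (θ τ W lm tn : ℕ → ℝ)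
  (b w J : ℕ → ℝ → ℝ) (a : ℕ → ℕ → ℝ → ℝ), P.Ok → ChP P θ τ W lm tn → BSeq P θ b w J a →
  ∃ T : ℝ, 0 < T ∧ T ≤ τ 0 + W 0 ∧ ChSol P (θ 0) T b
    (fun m j t => (if j = 0 then BB P (θ 0) b m t else 0) + a m j t)

end Pool.Agent.H306.HE
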