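import Pool.Agent.H306.HE.Stm2

/-! Parameters, third part (super-polynomially small quantities), by helper261. -/

noncomputable section

namespace Pool.Agent.H306.HE.TPN3

open Set MeasureTheory Pool.Agent.H306.HD Pool.Agent.H306.HE

theorem one_le_zq {N : ℕ} (hN : 1 ≤ N) {q : ℝ} (hq : 0 ≤ q) (m : ℕ) : 1 ≤ zq N q m := by
  unfold zq
  exact Real.one_le_rpow (by exact_mod_cast hN) (pow_nonneg hq m)

theorem zq_succ (N : ℕ) (q : ℝ) (m : ℕ) : zq N q (m + 1) = zq N q m ^ q := by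
  unfold zq
  rw [← Real.rpow_mul (Nat.cast_nonneg N), pow_succ]

theorem K_ge {N : ℕ} (hN : 1 ≤ N) {q : ℝ} (hq : 0 ≤ q) (m : ℕ) : zq N q m ≤ (Kq N q m : ℝ) := by
  unfold Kq
  push_cast
  have h1 := Nat.lt_floor_add_one (zq N q m)
  have h2 := one_le_zq hN hq m
  have h3 : (0 : ℝ) ≤ (⌊zq N q m⌋₊ : ℝ) := Nat.cast_nonneg _
  linarith

theorem K_le {N : ℕ} (hN : 1 ≤ N) {q : ℝ} (hq : 0 ≤ q) (m : ℕ) :
    (Kq N q m : ℝ) ≤ 3 * zq N q m := by
  unfold Kq
  push_cast
  have h2 := one_le_zq hN hq m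
  have h1 := Nat.floor_le (zero_le_one.trans h2)
  linarith

theorem half_pow (m : ℕ) : lm2 m = (2 * ((2 : ℝ) ^ 28) ^ m)⁻¹ := by
  unfold lm2
  rw [one_div, inv_pow, pow_succ, pow_mul]
  congr 1
  ring

theorem pn3 : S_PN3 := by
  rintro ⟨-, hZ2, -, hZ4⟩ ν α σ q r x η hν hE
  have hq1 := hE.q1
  have hq0 : (0 : ℝ) ≤ q := by linarith
  have hr : 0 < r := by
    have h1 := hE.dis
    have h2 := hE.α0
    have h3 := hE.η0
    have h4 : 0 < 2 * α * q := by positivity
    linarith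
  have hx := hE.x0
  have hp : 0 < r * (1 - 1 / q) := by
    have : 1 / q < 1 := by rw [div_lt_one (by linarith)]; exact hq1
    apply mul_pos hr
    linarith
  set p := r * (1 - 1 / q) with hpdef
  obtain ⟨N1, h1⟩ := hZ2 q p (1 / 128) (q * x) (2 ^ 30) (2 ^ 28) hq1 hp (by norm_num)
    (by norm_num) (by norm_num)
  obtain ⟨N2, h2⟩ := hZ2 q p (1 / 128) 1 240 1 hq1 hp (by norm_num) (by norm_num) (by norm_num)
  obtain ⟨N3, h3⟩ := hZ2 q p (1 / 64) (q * x) (45 * 2 ^ 29) (2 ^ 28) hq1 hp (by norm_num)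
    (by norm_num) (by norm_num)
  obtain ⟨N4, h4⟩ := hZ2 q p (1 / 128) (q * (1 - (q * σ + η))) (15 / 4) 1 hq1 hp (by norm_num)
    (by norm_num) (by norm_num)
  obtain ⟨N5, h5⟩ := hZ2 q p (1 / 256) 0 6 1 hq1 hp (by norm_num) (by norm_num) (by norm_num)
  refine ⟨max 2 (max N1 (max N2 (max N3 (max N4 N5)))), fun N hN => ?_⟩
  have hN2 : 2 ≤ N := (le_max_left _ _).trans hN
  have hN' := (le_max_right _ _).trans hN
  have g1 := h1 N ((le_max_left _ _).trans hN')
  have hN'' := (le_max_right _ _).trans hN'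
  have g2 := h2 N ((le_max_left _ _).trans hN'')
  have hN3 := (le_max_right _ _).trans hN''
  have g3 := h3 N ((le_max_left _ _).trans hN3)
  have hN4 := (le_max_right _ _).trans hN3
  have g4 := h4 N ((le_max_left _ _).trans hN4)
  have g5 := h5 N ((le_max_right _ _).trans hN4)
  have hN1 : 1 ≤ N := by omega
  have hz1 : ∀ m, 1 ≤ zq N q m := one_le_zq hN1 hq0
  have hz0 : ∀ m, 0 < zq N q m := fun m => one_pos.trans_le (hz1 m)
  have hzs := zq_succ N q
  have hKg := fun m => K_ge hN1 hq0 m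
  have hKl := fun m => K_le hN1 hq0 m
  have hθs : ∀ m, th2 q x N (m + 1) = (zq N q m ^ (q * x))⁻¹ := by
    intro m
    unfold th2
    rw [hzs, ← Real.rpow_mul (hz0 m).le, mul_neg, Real.rpow_neg (hz0 m).le]
  have hθ0 : ∀ m, 0 < th2 q x N m := fun m => Real.rpow_pos_of_pos (hz0 m) _
  have hθ1 : ∀ m, th2 q x N m ≤ 1 := fun m =>
    Real.rpow_le_one_of_one_le_of_nonpos (hz1 m) (by linarith)
  have hlm0 : ∀ m, 0 < lm2 m := fun m => by unfold lm2; positivity
  -- the quantity c K θ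
  have hX : ∀ m, zq N q m ^ (-(q * σ + η)) * zq N q m * zq N q m ^ (-x) = zq N q m ^ (2 * r) := by
    intro m
    nth_rewrite 2 [← Real.rpow_one (zq N q m)]
    rw [← Real.rpow_add (hz0 m), ← Real.rpow_add (hz0 m), hE.req]
    congr 1
    ring
  have hXl : ∀ m, zq N q m ^ (2 * r) ≤
      (prm2 ν α σ q r η N).c m * (prm2 ν α σ q r η N).K m * th2 q x N m := by
    intro m
    rw [← hX m]
    show _ ≤ zq N q m ^ (-(q * σ + η)) * (Kq N q m : ℝ) * zq N q m ^ (-x)
    have a1 := Real.rpow_pos_of_pos (hz0 m) (-(q * σ + η))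
    have a2 := Real.rpow_pos_of_pos (hz0 m) (-x)
    have a3 := hKg m
    gcongr
  have hXu : ∀ m, (prm2 ν α σ q r η N).c m * (prm2 ν α σ q r η N).K m * th2 q x N m ≤
      3 * zq N q m ^ (2 * r) := by
    intro m
    rw [← hX m]
    show zq N q m ^ (-(q * σ + η)) * (Kq N q m : ℝ) * zq N q m ^ (-x) ≤ _
    have a1 := Real.rpow_pos_of_pos (hz0 m) (-(q * σ + η))
    have a2 := Real.rpow_pos_of_pos (hz0 m) (-x)
    have a3 := hKl m
    calc zq N q m ^ (-(q * σ + η)) * (Kq N q m : ℝ) * zq N q m ^ (-x)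
        ≤ zq N q m ^ (-(q * σ + η)) * (3 * zq N q m) * zq N q m ^ (-x) := by gcongr
      _ = 3 * (zq N q m ^ (-(q * σ + η)) * zq N q m * zq N q m ^ (-x)) := by ring
  have hsq : ∀ m, zq N q m ^ (2 * r) = (zq N q m ^ r) ^ 2 := by
    intro m
    rw [← Real.rpow_natCast, ← Real.rpow_mul (hz0 m).le]
    congr 1
    push_cast
    ring
  have htn2 : ∀ m, tn2 q r N (m + 2) = Real.exp (-(1 / 128 * zq N q (m + 1) ^ p)) := by
    intro m
    show Real.exp (-(zq N q (m + 1) ^ (r * (1 - 1 / q)) / 128)) = _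
    congr 2
    rw [hpdef]
    ring
  have hε : ∀ m, (prm2 ν α σ q r η N).ε m = Real.exp (-(1 / 64 * zq N q m ^ p)) := by
    intro m
    show Real.exp (-(zq N q m ^ (r * (1 - 1 / q)) / 64)) = _
    congr 2
    rw [hpdef]
    ring
  refine ⟨?_, ?_, ?_, ?_, ?_, ?_, ?_⟩
  · -- A
    intro m
    match m with
    | 0 => exact le_refl _
    | 1 => exact le_refl _
    | m + 2 => rw [htn2]; exact (Real.exp_pos _).le
  · -- B
    intro m
    match m with
    | 0 =>
      show (0 : ℝ) < _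
      exact mul_pos (hlm0 _) (hθ0 _)
    | 1 =>
      show (0 : ℝ) < _
      exact mul_pos (hlm0 _) (hθ0 _)
    | m + 2 =>
      rw [htn2, half_pow, hθs (m + 1), ← mul_inv, ← one_div]
      have a1 := Real.rpow_pos_of_pos (hz0 (m + 1)) (q * x)
      have a2 := Real.exp_pos (-(1 / 128 * zq N q (m + 1) ^ p))
      rw [lt_div_iff₀ (by positivity)]
      have a3 := g1 (m + 1)
      have e1 : Real.exp (-(1 / 128 * zq N q (m + 1) ^ p)) *
          (2 * ((2 : ℝ) ^ 28) ^ (m + 2) * zq N q (m + 1) ^ (q * x))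
          = (2 ^ 30 * (2 ^ 28) ^ (m + 1) * zq N q (m + 1) ^ (q * x) *
            Real.exp (-(1 / 128 * zq N q (m + 1) ^ p))) / 2 := by
        rw [pow_succ ((2 : ℝ) ^ 28) (m + 1)]
        ring
      rw [e1]
      linarith
  · -- C
    intro m
    match m with
    | 0 =>
      show _ * (0 : ℝ) ≤ _
      rw [mul_zero]; norm_num
    | m + 1 =>
      show (Kq N q (m + 1) : ℝ) * tn2 q r N (m + 2) ≤ _
      rw [htn2]
      have a3 := g2 (m + 1)
      rw [one_pow, mul_one, Real.rpow_one] at a3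
      have a2 := Real.exp_pos (-(1 / 128 * zq N q (m + 1) ^ p))
      have a4 := hKl (m + 1)
      have a5 : (Kq N q (m + 1) : ℝ) * Real.exp (-(1 / 128 * zq N q (m + 1) ^ p))
          ≤ 3 * zq N q (m + 1) * Real.exp (-(1 / 128 * zq N q (m + 1) ^ p)) := by gcongr
      linarith
  · -- D
    intro m
    have a1 := Real.rpow_pos_of_pos (hz0 m) (q * x)
    have a2 := Real.exp_pos (-(1 / 64 * zq N q m ^ p))
    have b1 : (1 : ℝ) ≤ Real.sqrt ((prm2 ν α σ q r η N).c m *
        (prm2 ν α σ q r η N).K m * th2 q x N m) := by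
      rw [Real.one_le_sqrt]
      refine le_trans ?_ (hXl m)
      exact Real.one_le_rpow (hz1 m) (by linarith)
    have b2 : 45 * ((prm2 ν α σ q r η N).ε m * th2 q x N m) ≤
        45 * Real.exp (-(1 / 64 * zq N q m ^ p)) := by
      rw [hε]
      have := hθ1 m
      nlinarith
    have b3 : 45 * Real.exp (-(1 / 64 * zq N q m ^ p)) ≤ lm2 (m + 1) * th2 q x N (m + 1) := by
      rw [half_pow, hθs m, ← mul_inv, ← one_div, le_div_iff₀ (by positivity)]
      have a3 := g3 m
      have e1 : 45 * Real.exp (-(1 / 64 * zq N q m ^ p)) *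
          (2 * ((2 : ℝ) ^ 28) ^ (m + 1) * zq N q m ^ (q * x))
          = 45 * 2 ^ 29 * (2 ^ 28) ^ m * zq N q m ^ (q * x) *
            Real.exp (-(1 / 64 * zq N q m ^ p)) := by
        rw [pow_succ ((2 : ℝ) ^ 28) m]
        ring
      rw [e1]
      exact a3
    have b4 : 0 < lm2 (m + 1) * th2 q x N (m + 1) := mul_pos (hlm0 _) (hθ0 _)
    calc 45 * ((prm2 ν α σ q r η N).ε m * th2 q x N m)
        ≤ 1 * (lm2 (m + 1) * th2 q x N (m + 1)) := by linarith
      _ ≤ _ := by gcongr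
  · -- E
    intro L
    obtain ⟨C, hC0, hC⟩ := hZ4 q p (1 / 64) (q * q * L) 1 N hq1 hp (by norm_num) (by norm_num) hN2
    refine ⟨3 ^ L * C, fun m => ?_⟩
    have a3 := hC m
    rw [one_pow, one_mul] at a3
    rw [hε]
    show _ * (Kq N q (m + 2) : ℝ) ^ L ≤ _
    have a4 := hKl (m + 2)
    have a5 : zq N q (m + 2) = zq N q m ^ (q * q) := by
      rw [hzs, hzs, ← Real.rpow_mul (hz0 m).le]
    have a6 : (Kq N q (m + 2) : ℝ) ^ L ≤ 3 ^ L * zq N q m ^ (q * q * L) := by
      calc (Kq N q (m + 2) : ℝ) ^ L ≤ (3 * zq N q (m + 2)) ^ L :=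
            pow_le_pow_left₀ (Nat.cast_nonneg _) a4 L
        _ = 3 ^ L * zq N q m ^ (q * q * L) := by
            rw [mul_pow, a5, ← Real.rpow_natCast (zq N q m ^ (q * q)) L,
              ← Real.rpow_mul (hz0 m).le]
    have a2 := Real.exp_pos (-(1 / 64 * zq N q m ^ p))
    calc Real.exp (-(1 / 64 * zq N q m ^ p)) * (Kq N q (m + 2) : ℝ) ^ L
        ≤ Real.exp (-(1 / 64 * zq N q m ^ p)) * (3 ^ L * zq N q m ^ (q * q * L)) := by gcongr
      _ = 3 ^ L * (zq N q m ^ (q * q * L) * Real.exp (-(1 / 64 * zq N q m ^ p))) := by ring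
      _ ≤ 3 ^ L * C := by gcongr
  · -- F
    intro R
    obtain ⟨C, hC0, hC⟩ := hZ4 q p (1 / 64) (q * x) 2 N hq1 hp (by norm_num) (by norm_num) hN2
    obtain ⟨m₀, hm₀⟩ := pow_unbounded_of_one_lt (|R| * C) (by norm_num : (1 : ℝ) < 2)
    refine ⟨m₀, fun m hm => ?_⟩
    have a3 := hC m
    have a1 := Real.rpow_pos_of_pos (hz0 m) (q * x)
    have a2 := Real.exp_pos (-(1 / 64 * zq N q m ^ p))
    rw [hε, hθs, ← one_div, lt_div_iff₀ a1]
    have a4 : (2 : ℝ) ^ m₀ ≤ 2 ^ m := pow_le_pow_right₀ (by norm_num) hm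
    have a5 : (0 : ℝ) < 2 ^ m := by positivity
    have a6 : R * Real.exp (-(1 / 64 * zq N q m ^ p)) * zq N q m ^ (q * x) * 2 ^ m
        ≤ |R| * C := by
      calc R * Real.exp (-(1 / 64 * zq N q m ^ p)) * zq N q m ^ (q * x) * 2 ^ m
          ≤ |R| * Real.exp (-(1 / 64 * zq N q m ^ p)) * zq N q m ^ (q * x) * 2 ^ m := by
            have := le_abs_self R
            gcongr
        _ = |R| * (2 ^ m * zq N q m ^ (q * x) * Real.exp (-(1 / 64 * zq N q m ^ p))) := by ring
        _ ≤ |R| * C := by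
            have := abs_nonneg R
            gcongr
    have a7 : R * Real.exp (-(1 / 64 * zq N q m ^ p)) * zq N q m ^ (q * x) * 2 ^ m
        < 1 * 2 ^ m := by
      rw [one_mul]
      exact a6.trans_lt (hm₀.trans_le a4)
    exact lt_of_mul_lt_mul_right a7 a5.le
  · -- G
    intro m
    have hr2 : ∀ k, 0 < zq N q k ^ r := fun k => Real.rpow_pos_of_pos (hz0 k) _
    have hzp : 0 < zq N q (m + 1) ^ p := Real.rpow_pos_of_pos (hz0 _) _
    -- first square root
    have c1 : Real.sqrt (5 / 4 * ((prm2 ν α σ q r η N).c (m + 1) * (prm2 ν α σ q r η N).K (m + 1) *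
        tn2 q r N (m + 1))) ≤ 1 := by
      rw [Real.sqrt_le_one]
      match m with
      | 0 =>
        show 5 / 4 * (_ * (0 : ℝ)) ≤ _
        rw [mul_zero, mul_zero]; norm_num
      | k + 1 =>
        show 5 / 4 * (zq N q (k + 2) ^ (-(q * σ + η)) * (Kq N q (k + 2) : ℝ) * tn2 q r N (k + 2)) ≤ 1
        rw [htn2]
        have a3 := g4 (k + 1)
        rw [one_pow, mul_one] at a3
        have a4 := hKl (k + 2)
        have a2 := Real.exp_pos (-(1 / 128 * zq N q (k + 1) ^ p))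
        have a5 := Real.rpow_pos_of_pos (hz0 (k + 2)) (-(q * σ + η))
        have a6 : zq N q (k + 2) ^ (-(q * σ + η)) * zq N q (k + 2)
            = zq N q (k + 1) ^ (q * (1 - (q * σ + η))) := by
          nth_rewrite 2 [← Real.rpow_one (zq N q (k + 2))]
          rw [← Real.rpow_add (hz0 _), hzs (k + 1), ← Real.rpow_mul (hz0 _).le]
          congr 1
          ring
        calc 5 / 4 * (zq N q (k + 2) ^ (-(q * σ + η)) * (Kq N q (k + 2) : ℝ) *
              Real.exp (-(1 / 128 * zq N q (k + 1) ^ p)))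
            ≤ 5 / 4 * (zq N q (k + 2) ^ (-(q * σ + η)) * (3 * zq N q (k + 2)) *
              Real.exp (-(1 / 128 * zq N q (k + 1) ^ p))) := by gcongr
          _ = 15 / 4 * (zq N q (k + 2) ^ (-(q * σ + η)) * zq N q (k + 2)) *
              Real.exp (-(1 / 128 * zq N q (k + 1) ^ p)) := by ring
          _ ≤ 1 := by rw [a6]; exact a3
    -- second term
    have c2 : 5 * Real.sqrt (lm2 (m + 1) * ((prm2 ν α σ q r η N).c (m + 1) *
        (prm2 ν α σ q r η N).K (m + 1) * th2 q x N (m + 1))) /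
          kp (prm2 ν α σ q r η N) (th2 q x N) lm2 (m + 1) ≤ 1 / 256 * zq N q (m + 1) ^ p := by
      show 5 * Real.sqrt (lm2 (m + 1) * ((prm2 ν α σ q r η N).c (m + 1) *
        (prm2 ν α σ q r η N).K (m + 1) * th2 q x N (m + 1))) / (Real.sqrt (3 / 20 * (lm2 m *
          ((prm2 ν α σ q r η N).c m * (prm2 ν α σ q r η N).K m * th2 q x N m))) / 2) ≤ _
      have hlow : 0 < 3 / 20 * (lm2 m *
          ((prm2 ν α σ q r η N).c m * (prm2 ν α σ q r η N).K m * th2 q x N m)) := by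
        have d1 := hlm0 m
        have d2 := (Real.rpow_pos_of_pos (hz0 m) (2 * r)).trans_le (hXl m)
        positivity
      rw [div_le_iff₀ (by positivity)]
      have hzpr : zq N q (m + 1) ^ r = zq N q (m + 1) ^ p * zq N q m ^ r := by
        rw [hzs m, ← Real.rpow_mul (hz0 m).le, ← Real.rpow_mul (hz0 m).le,
          ← Real.rpow_add (hz0 m), hpdef]
        congr 1
        field_simp
        ring
      have hS : Real.sqrt (lm2 (m + 1) * ((prm2 ν α σ q r η N).c (m + 1) *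
          (prm2 ν α σ q r η N).K (m + 1) * th2 q x N (m + 1))) ≤
          (1 / 2560 * zq N q (m + 1) ^ p) * Real.sqrt (3 / 20 * (lm2 m *
          ((prm2 ν α σ q r η N).c m * (prm2 ν α σ q r η N).K m * th2 q x N m))) := by
        rw [Real.sqrt_le_left (by positivity), mul_pow, Real.sq_sqrt hlow.le]
        have d1 : lm2 (m + 1) = lm2 m / 2 ^ 28 := by
          rw [half_pow, half_pow, pow_succ]
          field_simp
        have d2 : (prm2 ν α σ q r η N).c (m + 1) * (prm2 ν α σ q r η N).K (m + 1) *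
            th2 q x N (m + 1) ≤ 3 * ((zq N q (m + 1) ^ p) ^ 2 * zq N q m ^ (2 * r)) := by
          refine (hXu (m + 1)).trans ?_
          rw [hsq, hsq, hzpr]
          apply le_of_eq
          ring
        have d3 := hXl m
        have d4 := hlm0 m
        have d5 := Real.rpow_pos_of_pos (hz0 m) (2 * r)
        calc lm2 (m + 1) * ((prm2 ν α σ q r η N).c (m + 1) * (prm2 ν α σ q r η N).K (m + 1) *
              th2 q x N (m + 1))
            ≤ lm2 m / 2 ^ 28 * (3 * ((zq N q (m + 1) ^ p) ^ 2 * zq N q m ^ (2 * r))) := by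
              rw [d1]; gcongr
          _ ≤ (1 / 2560 * zq N q (m + 1) ^ p) ^ 2 * (3 / 20 * (lm2 m * zq N q m ^ (2 * r))) := by
              have d6 : 0 ≤ lm2 m * ((zq N q (m + 1) ^ p) ^ 2 * zq N q m ^ (2 * r)) := by positivity
              nlinarith
          _ ≤ (1 / 2560 * zq N q (m + 1) ^ p) ^ 2 * (3 / 20 * (lm2 m *
              ((prm2 ν α σ q r η N).c m * (prm2 ν α σ q r η N).K m * th2 q x N m))) := by gcongr
      linarith
    rw [htn2, hε]
    set S := Real.sqrt (5 / 4 * ((prm2 ν α σ q r η N).c (m + 1) * (prm2 ν α σ q r η N).K (m + 1) *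
        tn2 q r N (m + 1))) + 5 * Real.sqrt (lm2 (m + 1) * ((prm2 ν α σ q r η N).c (m + 1) *
        (prm2 ν α σ q r η N).K (m + 1) * th2 q x N (m + 1))) /
          kp (prm2 ν α σ q r η N) (th2 q x N) lm2 (m + 1) with hSdef
    have hS1 : S ≤ 1 + 1 / 256 * zq N q (m + 1) ^ p := add_le_add c1 c2
    have a3 := g5 (m + 1)
    rw [one_pow, mul_one, Real.rpow_zero, mul_one] at a3
    have hexp1 : Real.exp 1 ≤ 3 := by
      have := Real.exp_one_lt_d9
      linarith
    have hθ := hθ1 (m + 1)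
    have hθp := hθ0 (m + 1)
    calc 2 * (Real.exp (-(1 / 64 * zq N q (m + 1) ^ p)) * th2 q x N (m + 1)) * Real.exp S
        ≤ 2 * (Real.exp (-(1 / 64 * zq N q (m + 1) ^ p)) * 1) *
          Real.exp (1 + 1 / 256 * zq N q (m + 1) ^ p) := by gcongr
      _ = 2 * Real.exp 1 * Real.exp (-(1 / 256 * zq N q (m + 1) ^ p)) *
          Real.exp (-(1 / 128 * zq N q (m + 1) ^ p)) := by
          rw [mul_one, mul_assoc, mul_assoc, mul_assoc, ← Real.exp_add, ← Real.exp_add,
            ← Real.exp_add]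
          congr 2
          ring
      _ ≤ 6 * Real.exp (-(1 / 256 * zq N q (m + 1) ^ p)) *
          Real.exp (-(1 / 128 * zq N q (m + 1) ^ p)) := by
          gcongr
          linarith
      _ ≤ 1 * Real.exp (-(1 / 128 * zq N q (m + 1) ^ p)) := by gcongr
      _ = _ := one_mul _

end Pool.Agent.H306.HE.TPN3
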